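import Pool.Agent.R468.MF.E2

/-!
Consequences of a local limit law with a periodic factor: sums of powers of the counts.
-/

set_option autoImplicit false

namespace Pool.Agent.R468.MF

open Filter Topology

/-- standard deviation times `√(2π)` -/
noncomputable def sd (v x : ℝ) : ℝ := Real.sqrt (2 * Real.pi * (v * Real.log x))

/-- the density of the normal law of mean `μ log x` and variance `v log x` -/
noncomputable def gn (μ v x : ℝ) (j : ℤ) : ℝ :=
  Real.exp (-(((j : ℝ) - μ * Real.log x) ^ 2 / (2 * (v * Real.log x)))) / sd v x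

theorem sd_pos {v x : ℝ} (hv : 0 < v) (hx : 0 < Real.log x) : 0 < sd v x := by
  unfold sd
  have := Real.pi_pos
  apply Real.sqrt_pos.2
  positivity

theorem gn_pos {μ v x : ℝ} (hv : 0 < v) (hx : 0 < Real.log x) (j : ℤ) : 0 < gn μ v x j :=
  div_pos (Real.exp_pos _) (sd_pos hv hx)

theorem gn_le {μ v x : ℝ} (hv : 0 < v) (hx : 0 < Real.log x) (j : ℤ) : gn μ v x j ≤ 1 / sd v x := by
  unfold gn
  apply div_le_div_of_nonneg_right _ (sd_pos hv hx).le
  rw [Real.exp_le_one_iff, neg_nonpos]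
  positivity

/-- powers of the Gaussian weights -/
theorem gn_pow {μ v x : ℝ} (hv : 0 < v) (hx : 0 < Real.log x) (r : ℕ) (hr : 1 ≤ r) (j : ℤ) :
    sd v x ^ (r - 1) * gn μ v x j ^ r = 1 / Real.sqrt r * (Real.sqrt (r / (2 * Real.pi * (v * Real.log x))) *
      Real.exp (-(Real.pi * (r / (2 * Real.pi * (v * Real.log x))) * ((j : ℝ) - μ * Real.log x) ^ 2))) := by
  have hs := sd_pos hv hx
  have hpi := Real.pi_pos
  have hr0 : (0 : ℝ) < r := by exact_mod_cast hr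
  have hsr : 0 < Real.sqrt r := Real.sqrt_pos.2 hr0
  have e1 : Real.sqrt (r / (2 * Real.pi * (v * Real.log x))) = Real.sqrt r / sd v x := by
    rw [Real.sqrt_div hr0.le]
    rfl
  have e2 : Real.exp (-(((j : ℝ) - μ * Real.log x) ^ 2 / (2 * (v * Real.log x)))) ^ r =
      Real.exp (-(Real.pi * (r / (2 * Real.pi * (v * Real.log x))) * ((j : ℝ) - μ * Real.log x) ^ 2)) := by
    rw [← Real.exp_nat_mul]
    congr 1
    field_simp
  rw [e1, ← e2]
  unfold gn
  rw [div_pow]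
  obtain ⟨q, rfl⟩ : ∃ q, r = q + 1 := ⟨r - 1, by omega⟩
  rw [Nat.add_sub_cancel, pow_succ (sd v x)]
  field_simp

/-- full sums -/
theorem full_sum {α : ℝ} (hα : Irrational α) {Φ : ℝ → ℝ} (hc : Continuous Φ) (hp : ∀ t, Φ (t + 1) = Φ t)
    {μ v : ℝ} (hv : 0 < v) (r : ℕ) (hr : 1 ≤ r) : ∀ ε : ℝ, 0 < ε → ∃ X₀ : ℝ, 2 ≤ X₀ ∧ ∀ x : ℝ, X₀ ≤ x → ∀ θ : ℝ,
      (Summable fun j : ℤ => sd v x ^ (r - 1) * gn μ v x j ^ r * Φ (θ - j * α)) ∧
      |∑' j : ℤ, sd v x ^ (r - 1) * gn μ v x j ^ r * Φ (θ - j * α) -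
        1 / Real.sqrt r * ∫ t in (0 : ℝ)..1, Φ t| ≤ ε := by
  intro ε hε
  have hr0 : (0 : ℝ) < r := by exact_mod_cast hr
  have hr1 : (1 : ℝ) ≤ r := by exact_mod_cast hr
  have hsr : 0 < Real.sqrt r := Real.sqrt_pos.2 hr0
  have hsr1 : 1 ≤ Real.sqrt r := Real.one_le_sqrt.2 hr1
  have hpi := Real.pi_pos
  obtain ⟨a₀, h0, h⟩ := equi_real hα hc hp ε hε
  have hT : Tendsto (fun x : ℝ => r / (2 * Real.pi * (v * Real.log x))) atTop (𝓝 0) := by
    apply Tendsto.div_atTop tendsto_const_nhds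
    exact (Real.tendsto_log_atTop.const_mul_atTop hv).const_mul_atTop (by positivity)
  obtain ⟨X₁, hX₁⟩ := eventually_atTop.1 (hT.eventually_lt_const h0)
  refine ⟨max X₁ 2, le_max_right _ _, fun x hx θ => ?_⟩
  have hx2 : 2 ≤ x := (le_max_right _ _).trans hx
  have hl : 0 < Real.log x := Real.log_pos (by linarith)
  obtain ⟨h1, h2⟩ := h (r / (2 * Real.pi * (v * Real.log x))) (by positivity)
    (hX₁ x ((le_max_left _ _).trans hx)) (μ * Real.log x) θ
  have e : ∀ j : ℤ, sd v x ^ (r - 1) * gn μ v x j ^ r * Φ (θ - j * α) =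
      (1 / Real.sqrt r * Real.sqrt (r / (2 * Real.pi * (v * Real.log x)))) *
      (Real.exp (-(Real.pi * (r / (2 * Real.pi * (v * Real.log x))) * ((j : ℝ) - μ * Real.log x) ^ 2)) *
        Φ (θ - j * α)) := by
    intro j
    rw [gn_pow hv hl r hr j]
    ring
  simp only [e]
  refine ⟨h1.mul_left _, ?_⟩
  rw [tsum_mul_left, mul_assoc, ← mul_sub, abs_mul, abs_of_pos (by positivity)]
  have h3 : 1 / Real.sqrt r ≤ 1 := by
    rw [div_le_one hsr]; exact hsr1
  calc 1 / Real.sqrt r * |_| ≤ 1 * ε := mul_le_mul h3 h2 (abs_nonneg _) (by norm_num)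
    _ = ε := one_mul _

/-- the tails -/
theorem tail_sum {μ v : ℝ} (hv : 0 < v) (r : ℕ) (hr : 1 ≤ r) : ∀ ε : ℝ, 0 < ε → ∃ K : ℝ, 0 < K ∧
    ∃ X₀ : ℝ, 2 ≤ X₀ ∧ ∀ x : ℝ, X₀ ≤ x → ∀ J : Finset ℤ,
      (∀ j ∈ J, K * Real.sqrt (Real.log x) < |(j : ℝ) - μ * Real.log x|) →
      ∑ j ∈ J, sd v x ^ (r - 1) * gn μ v x j ^ r ≤ ε := by
  intro ε hε
  have hr0 : (0 : ℝ) < r := by exact_mod_cast hr
  have hpi := Real.pi_pos
  obtain ⟨a₀, h0, h⟩ := gauss_one 1 one_pos
  have hT : Tendsto (fun x : ℝ => r / (2 * Real.pi * (v * Real.log x))) atTop (𝓝 0) := by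
    apply Tendsto.div_atTop tendsto_const_nhds
    exact (Real.tendsto_log_atTop.const_mul_atTop hv).const_mul_atTop (by positivity)
  obtain ⟨X₁, hX₁⟩ := eventually_atTop.1 (hT.eventually_lt_const h0)
  -- the choice of `K`
  have hK : Tendsto (fun K : ℝ => Real.exp (-(r * K ^ 2 / (4 * v))) * (2 * Real.sqrt 2)) atTop (𝓝 0) := by
    rw [← zero_mul (2 * Real.sqrt 2)]
    apply Tendsto.mul_const
    apply Real.tendsto_exp_neg_atTop_nhds_zero.comp
    have : Tendsto (fun K : ℝ => r / (4 * v) * K ^ 2) atTop atTop :=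
      (tendsto_pow_atTop (by norm_num)).const_mul_atTop (by positivity)
    refine this.congr fun K => ?_
    ring
  obtain ⟨K₁, hK₁⟩ := eventually_atTop.1 (hK.eventually_le_const hε)
  refine ⟨max K₁ 1, lt_max_of_lt_right one_pos, max X₁ 2, le_max_right _ _, fun x hx J hJ => ?_⟩
  have hx2 : 2 ≤ x := (le_max_right _ _).trans hx
  have hl : 0 < Real.log x := Real.log_pos (by linarith)
  set K := max K₁ 1 with hKdef
  have hK0 : 0 < K := lt_max_of_lt_right one_pos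
  set a : ℝ := r / (2 * Real.pi * (v * Real.log x)) with ha
  have ha0 : 0 < a := by positivity
  have h1 := h (a / 2) (by positivity) (by
    have := hX₁ x ((le_max_left _ _).trans hx)
    linarith) (μ * Real.log x)
  have hsum := gauss_real_summable (a := a / 2) (by positivity) (μ * Real.log x)
  have h2 : ∀ j ∈ J, sd v x ^ (r - 1) * gn μ v x j ^ r ≤
      Real.sqrt a * Real.exp (-(r * K ^ 2 / (4 * v))) *
        Real.exp (-(Real.pi * (a / 2) * ((j : ℝ) - μ * Real.log x) ^ 2)) := by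
    intro j hj
    rw [gn_pow hv hl r hr j, ← ha]
    have hr1 : (1 : ℝ) ≤ r := by exact_mod_cast hr
    have h3 : 1 / Real.sqrt r ≤ 1 := by
      rw [div_le_one (Real.sqrt_pos.2 hr0)]; exact Real.one_le_sqrt.2 hr1
    have h4 : Real.exp (-(Real.pi * a * ((j : ℝ) - μ * Real.log x) ^ 2)) ≤
        Real.exp (-(r * K ^ 2 / (4 * v))) *
          Real.exp (-(Real.pi * (a / 2) * ((j : ℝ) - μ * Real.log x) ^ 2)) := by
      rw [← Real.exp_add]
      apply Real.exp_le_exp.2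
      have h5 : K ^ 2 * Real.log x ≤ ((j : ℝ) - μ * Real.log x) ^ 2 := by
        have h6 := (hJ j hj).le
        have h7 : (K * Real.sqrt (Real.log x)) ^ 2 ≤ |(j : ℝ) - μ * Real.log x| ^ 2 :=
          pow_le_pow_left₀ (by positivity) h6 2
        rwa [sq_abs, mul_pow, Real.sq_sqrt hl.le] at h7
      have h6 : r * K ^ 2 / (4 * v) = Real.pi * (a / 2) * (K ^ 2 * Real.log x) := by
        rw [ha]
        field_simp
        ring
      have h7 := mul_le_mul_of_nonneg_left h5 (show 0 ≤ Real.pi * (a / 2) by positivity)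
      rw [h6]
      linarith
    have h5 : 0 ≤ Real.sqrt a := Real.sqrt_nonneg _
    calc 1 / Real.sqrt r * (Real.sqrt a * Real.exp (-(Real.pi * a * ((j : ℝ) - μ * Real.log x) ^ 2)))
        ≤ 1 * (Real.sqrt a * Real.exp (-(Real.pi * a * ((j : ℝ) - μ * Real.log x) ^ 2))) :=
          mul_le_mul_of_nonneg_right h3 (by positivity)
      _ ≤ _ := by
          rw [one_mul, mul_assoc (Real.sqrt a)]
          exact mul_le_mul_of_nonneg_left h4 h5
  refine (Finset.sum_le_sum h2).trans ?_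
  rw [← Finset.mul_sum]
  have h3 := hsum.sum_le_tsum J (fun _ _ => (Real.exp_pos _).le)
  have h4 : Real.sqrt (a / 2) * ∑' j : ℤ, Real.exp (-(Real.pi * (a / 2) * ((j : ℝ) - μ * Real.log x) ^ 2)) ≤ 2 := by
    linarith [(abs_le.1 h1).2]
  have h5 : Real.sqrt a = Real.sqrt 2 * Real.sqrt (a / 2) := by
    rw [← Real.sqrt_mul (by norm_num)]
    congr 1
    ring
  have h6 := hK₁ K (le_max_left _ _)
  have h7 : 0 ≤ Real.sqrt 2 := Real.sqrt_nonneg _
  have h8 : 0 < Real.exp (-(r * K ^ 2 / (4 * v))) := Real.exp_pos _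
  calc Real.sqrt a * Real.exp (-(r * K ^ 2 / (4 * v))) *
        ∑ j ∈ J, Real.exp (-(Real.pi * (a / 2) * ((j : ℝ) - μ * Real.log x) ^ 2))
      ≤ Real.sqrt a * Real.exp (-(r * K ^ 2 / (4 * v))) *
        ∑' j : ℤ, Real.exp (-(Real.pi * (a / 2) * ((j : ℝ) - μ * Real.log x) ^ 2)) :=
        mul_le_mul_of_nonneg_left h3 (by positivity)
    _ = Real.exp (-(r * K ^ 2 / (4 * v))) * (Real.sqrt 2 * (Real.sqrt (a / 2) *
        ∑' j : ℤ, Real.exp (-(Real.pi * (a / 2) * ((j : ℝ) - μ * Real.log x) ^ 2)))) := by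
        rw [h5]; ring
    _ ≤ Real.exp (-(r * K ^ 2 / (4 * v))) * (Real.sqrt 2 * 2) := by gcongr
    _ = Real.exp (-(r * K ^ 2 / (4 * v))) * (2 * Real.sqrt 2) := by ring
    _ ≤ ε := h6

end Pool.Agent.R468.MF
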