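import Pool.Agent.R468.MF.Lvl
import Pool.Agent.TH977.LL.QQ

/-!
Decay of the counts away from the mean.
-/

set_option autoImplicit false

namespace Pool.Agent.R468.MF

open Filter Topology Finset
open Pool.Agent.R468.GL
open Pool.Agent.H499R2.ND (Td Dn cnt Tn mem_cls cls)
open Pool.Agent.R468.LL (lam lam_eq lam_pos lam_lt)
open Pool.Agent.TH977.LL

theorem pk_cheb {k : ℕ} (hk : 1 ≤ k) {a : ℝ} (ha : 0 < a) (s : Finset ℕ)
    (hs : ∀ T ∈ s, (k ≤ T ∧ T ≤ 3 * k) ∧ a ≤ |(T : ℝ) - 2 * k|) : ∑ T ∈ s, pk k T ≤ 2 * k / a ^ 2 := by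
  have h1 : ∑ T ∈ s, pk k T = ∑ n ∈ s.image (fun T => T - k), qq k n := by
    rw [sum_image]
    · apply sum_congr rfl
      intro T hT
      obtain ⟨⟨g1, g2⟩, _⟩ := hs T hT
      rw [← qq_pk hk (by omega), Nat.add_sub_cancel' g1]
    · intro T hT T' hT' h
      have g1 := (hs T hT).1.1
      have g2 := (hs T' hT').1.1
      simp only at h
      omega
  rw [h1]
  apply qq_cheb hk ha
  intro n hn
  rw [mem_image] at hn
  obtain ⟨T, hT, rfl⟩ := hn
  obtain ⟨⟨g1, g2⟩, g3⟩ := hs T hT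
  rw [Nat.cast_sub g1]
  refine g3.trans (le_of_eq ?_)
  congr 1
  ring

open scoped Classical in
/-- the sum over all stages, with bounds for the levels -/
theorem big_sum2 {al be : ℕ} (h : 1 ≤ al + be) (j : ℤ) {A : ℝ} (hA : 0 < A) (P : Finset (ℕ × ℕ)) (E : ℕ)
    (hP : ∀ p ∈ P, 1 ≤ sc A p ∧ ef (sc A p) < E) (Bd : ℕ → ℝ)
    (hB : ∀ e < E, ∀ I : Finset ℤ, (∀ i ∈ I, ∃ p ∈ P, ef (sc A p) = e ∧ i = nx al be j p) →
      ∑ i ∈ I, (((We e).filter fun x => x ∈ HS al be i).card : ℝ) ≤ Bd e) :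
    ∑ p ∈ P, den (HS al be (nx al be j p)) (sc A p) ≤ ∑ e ∈ range E, 2 / 2 ^ e * Bd e := by
  have h1 : ∑ p ∈ P, den (HS al be (nx al be j p)) (sc A p) ≤
      ∑ p ∈ P, 2 / 2 ^ ef (sc A p) * (((We (ef (sc A p))).filter fun x =>
        x ∈ HS al be (nx al be j p)).card : ℝ) := sum_le_sum fun p hp => den_We al be _ (hP p hp).1
  refine h1.trans ?_
  rw [← sum_fiberwise_of_maps_to (s := P) (t := range E) (g := fun p => ef (sc A p))
    (fun p hp => mem_range.2 (hP p hp).2)]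
  apply sum_le_sum
  intro e he
  have h3 : ∑ p ∈ P.filter (fun p => ef (sc A p) = e),
      2 / 2 ^ ef (sc A p) * (((We (ef (sc A p))).filter fun x => x ∈ HS al be (nx al be j p)).card : ℝ) =
      2 / 2 ^ e * ∑ p ∈ P.filter (fun p => ef (sc A p) = e),
        (((We e).filter fun x => x ∈ HS al be (nx al be j p)).card : ℝ) := by
    rw [mul_sum]
    apply sum_congr rfl
    intro p hp
    rw [(mem_filter.1 hp).2]
  rw [h3]
  apply mul_le_mul_of_nonneg_left _ (by positivity)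
  have h4 : ∑ p ∈ P.filter (fun p => ef (sc A p) = e),
      (((We e).filter fun x => x ∈ HS al be (nx al be j p)).card : ℝ) =
      ∑ i ∈ (P.filter (fun p => ef (sc A p) = e)).image (nx al be j),
        (((We e).filter fun x => x ∈ HS al be i).card : ℝ) := by
    rw [sum_image]
    intro p hp p' hp' hq
    rw [mem_coe, mem_filter] at hp hp'
    obtain ⟨s1, s2⟩ := ef_spec (hP p hp.1).1
    obtain ⟨s1', s2'⟩ := ef_spec (hP p' hp'.1).1
    rw [hp.2] at s1 s2
    rw [hp'.2] at s1' s2'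
    obtain ⟨k, T⟩ := p
    obtain ⟨k', T'⟩ := p'
    unfold nx at hq
    unfold sc at s1 s2 s1' s2'
    simp only at hq s1 s2 s1' s2'
    rw [pow_succ] at s2 s2'
    have c1 : A * 3 ^ k / 2 ^ T < 2 * (A * 3 ^ k' / 2 ^ T') := by linarith
    have c2 : A * 3 ^ k' / 2 ^ T' < 2 * (A * 3 ^ k / 2 ^ T) := by linarith
    have g1 : (3 : ℝ) ^ k * 2 ^ T' < 2 * (3 ^ k' * 2 ^ T) := by
      rw [← mul_div_assoc, div_lt_div_iff₀ (by positivity) (by positivity)] at c1
      have : A * (3 ^ k * 2 ^ T') < A * (2 * (3 ^ k' * 2 ^ T)) := by linarith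
      exact lt_of_mul_lt_mul_left this hA.le
    have g2 : (3 : ℝ) ^ k' * 2 ^ T < 2 * (3 ^ k * 2 ^ T') := by
      rw [← mul_div_assoc, div_lt_div_iff₀ (by positivity) (by positivity)] at c2
      have : A * (3 ^ k' * 2 ^ T) < A * (2 * (3 ^ k * 2 ^ T')) := by linarith
      exact lt_of_mul_lt_mul_left this hA.le
    have f1 : 3 ^ k * 2 ^ T' < 2 * (3 ^ k' * 2 ^ T) := by exact_mod_cast g1
    have f2 : 3 ^ k' * 2 ^ T < 2 * (3 ^ k * 2 ^ T') := by exact_mod_cast g2
    have f3 : al * k + be * T = al * k' + be * T' := by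
      have : (al : ℤ) * k + be * T = al * k' + be * T' := by linarith
      exact_mod_cast this
    obtain ⟨r1, r2⟩ := pair_inj h f3 f1 f2
    rw [r1, r2]
  rw [h4]
  apply hB e (mem_range.1 he)
  intro i hi
  rw [mem_image] at hi
  obtain ⟨p, hp, rfl⟩ := hi
  rw [mem_filter] at hp
  exact ⟨p, hp.1, hp.2, rfl⟩

open scoped Classical in
theorem triv_We {al be : ℕ} (e : ℕ) (I : Finset ℤ) :
    ∑ i ∈ I, (((We e).filter fun x => x ∈ HS al be i).card : ℝ) ≤ 5 / 2 * 2 ^ e := by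
  have h5 : ∑ i ∈ I, ((We e).filter fun x => x ∈ HS al be i).card ≤ (We e).card := by
    rw [← card_biUnion]
    · apply card_le_card
      intro x hx
      rw [mem_biUnion] at hx
      obtain ⟨p, _, hx⟩ := hx
      exact (mem_filter.1 hx).1
    · intro p hp p' hp' hne
      rw [Function.onFun, Finset.disjoint_left]
      intro x hx hx'
      exact hne (HS_unique (mem_filter.1 hx).2 (mem_filter.1 hx').2)
  have h6 : (∑ i ∈ I, (((We e).filter fun x => x ∈ HS al be i).card : ℝ)) ≤ (We e).card := by exact_mod_cast h5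
  exact h6.trans (We_card e)

end Pool.Agent.R468.MF
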