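import Pool.Agent.R468.MF.Dec

/-!
Decay of the counts away from the mean, part 2: dyadic windows.
-/

set_option autoImplicit false

namespace Pool.Agent.R468.MF

open Filter Topology Finset
open Pool.Agent.R468.GL
open Pool.Agent.H499R2.ND (Td Dn cnt Tn mem_cls cls)
open Pool.Agent.R468.LL (lam lam_eq lam_pos lam_lt)
open Pool.Agent.TH977.LL hiding lam

/-- the deviation of the next index -/
theorem nx_dev (P : Par) (j : ℤ) {A : ℝ} (hA : 0 < A) (k T : ℕ) :
    (nx P.α P.β j (k, T) : ℝ) - A0 P / lam * Real.log (sc A (k, T)) =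
      ((j : ℝ) - A0 P / lam * Real.log A) + ((T : ℝ) - 2 * k) * (A0 P / lam * Real.log 2 - P.β) := by
  have hlam := lam_pos
  have e1 : Real.log (sc A (k, T)) = Real.log A + k * Real.log 3 - T * Real.log 2 := by
    unfold sc
    simp only
    rw [Real.log_div (by positivity) (by positivity), Real.log_mul hA.ne' (by positivity), Real.log_pow,
      Real.log_pow]
  have e2 : Real.log 3 = 2 * Real.log 2 - lam := by rw [lam_eq]; ring
  have e3 : A0 P / lam * lam = A0 P := div_mul_cancel₀ _ hlam.ne'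
  rw [e1, e2]
  unfold nx
  push_cast
  have e4 : A0 P / lam * (Real.log A + k * (2 * Real.log 2 - lam) - T * Real.log 2) =
      A0 P / lam * Real.log A - k * (A0 P / lam * lam) - (T - 2 * k) * (A0 P / lam * Real.log 2) := by ring
  rw [e4, e3]
  unfold A0
  ring

theorem dec_den (P : Par) {Ψ : ℝ → ℝ} {δ : ℝ} (L : Law (NA P 1 1 {1}) (A0 P / lam) (2 * ww P ^ 2 / lam ^ 3)
    (kap P / ww P) (fun x => Real.log x / ww P) Ψ δ) : ∀ ε : ℝ, 0 < ε → ∃ K : ℝ, 0 < K ∧ ∃ t₀ : ℝ, 2000 ≤ t₀ ∧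
      ∀ A : ℝ, 0 < A → t₀ ≤ Real.log A → ∀ j : ℤ,
        K * Real.sqrt (Real.log A) < |(j : ℝ) - A0 P / lam * Real.log A| →
        den (HS P.α P.β j) A ≤ ε / Real.sqrt (Real.log A) := by
  classical
  intro ε hε
  have hlam := lam_pos
  have hA0 := A0_ge P
  have hν0 : 0 < A0 P / lam := by positivity
  have h1ab := P.one_le
  obtain ⟨C0, hC0, hupp⟩ := upp h1ab
  obtain ⟨C, hC, hharm⟩ := harm P.α P.β
  obtain ⟨K1, hK1, e₀, hat⟩ := atyp P L (ε / 400) (by positivity)
  obtain ⟨ρ, hρ⟩ : ∃ ρ : ℝ, ρ = Real.sqrt (8 * C0 / ε) := ⟨_, rfl⟩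
  have hρ2 : ρ ^ 2 = 8 * C0 / ε := by rw [hρ]; exact Real.sq_sqrt (by positivity)
  have hρ0 : 0 < ρ := by rw [hρ]; exact Real.sqrt_pos.2 (by positivity)
  set ν : ℝ := A0 P / lam with hν
  have hβ0 : (0 : ℝ) ≤ P.β := Nat.cast_nonneg _
  refine ⟨2 * K1 + ρ * (ν + P.β) + 2 * ν + 1, by positivity,
    max 2000 (max (16 * C ^ 2 / ε ^ 2) (500 * e₀ / ε)), le_max_left _ _, fun A hA ht j hj => ?_⟩
  set t := Real.log A with htdef
  have ht1' : 2000 ≤ t := (le_max_left _ _).trans ht
  have ht1 : 1250 ≤ t := by linarith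
  have ht2 : 16 * C ^ 2 / ε ^ 2 ≤ t := ((le_max_left _ _).trans (le_max_right _ _)).trans ht
  have ht3 : 500 * e₀ / ε ≤ t := ((le_max_right _ _).trans (le_max_right _ _)).trans ht
  have ht0 : 0 < t := by linarith
  have hr0 : 0 < Real.sqrt t := Real.sqrt_pos.2 ht0
  have hr1 : 1 ≤ Real.sqrt t := Real.one_le_sqrt.2 (by linarith)
  have hrr : Real.sqrt t ^ 2 = t := Real.sq_sqrt ht0.le
  set r := Real.sqrt t with hr
  obtain ⟨K0, hK0⟩ : ∃ K0 : ℕ, K0 = ⌊t / 4⌋₊ := ⟨_, rfl⟩
  have hK01 : (K0 : ℝ) ≤ t / 4 := by rw [hK0]; exact Nat.floor_le (by linarith)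
  have hK02 : t / 4 < K0 + 1 := by rw [hK0]; exact Nat.lt_floor_add_one _
  have hK03 : t / 5 ≤ K0 := by linarith
  have hK0pos : (0 : ℝ) < K0 := by linarith
  set lo : ℕ → ℕ := fun k => (39 * k + 19) / 20 with hlo
  set hi : ℕ → ℕ := fun k => 41 * k / 20 with hhi
  have hkb : ∀ k ∈ Ico K0 (2 * K0), t / 6 ≤ (k : ℝ) ∧ (k : ℝ) ≤ t / 2 := by
    intro k hk
    rw [mem_Ico] at hk
    have h1 : (K0 : ℝ) ≤ k := by exact_mod_cast hk.1
    have h2 : (k : ℝ) ≤ 2 * K0 := by exact_mod_cast hk.2.le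
    constructor <;> linarith
  -- the near and the far part
  set Nr : ℕ → Finset ℕ := fun k => (Icc (lo k) (hi k)).filter (fun T => |(T : ℝ) - 2 * k| < ρ * r) with hNr
  set Fr : ℕ → Finset ℕ := fun k => (Icc (lo k) (hi k)).filter (fun T => ¬ |(T : ℝ) - 2 * k| < ρ * r) with hFr
  have hone : ∀ k ∈ Ico K0 (2 * K0), den (HS P.α P.β j) A ≤
      1 / Real.sqrt K0 * ∑ T ∈ Nr k, den (HS P.α P.β (nx P.α P.β j (k, T))) (sc A (k, T)) +
        (ε / 4 / r + C / t) := by
    intro k hk
    obtain ⟨k1, k2⟩ := hkb k hk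
    have hk1 : 1 ≤ k := by
      have : (0 : ℝ) < k := by linarith
      exact_mod_cast this
    have h1 := (hharm A hA ht1 k k1 k2 j).1
    rw [sum_WK k (fun T => den (HS P.α P.β (j - P.α * k - P.β * (T : ℕ))) (A * 3 ^ k / 2 ^ T)),
      ← sum_filter_add_sum_filter_not (Icc ((39 * k + 19) / 20) (41 * k / 20)) (fun T : ℕ => |(T : ℝ) - 2 * k| < ρ * r)] at h1
    rw [mem_Ico] at hk
    have h2 : ∑ T ∈ Nr k, pk k T * den (HS P.α P.β (j - P.α * k - P.β * (T : ℕ))) (A * 3 ^ k / 2 ^ T) ≤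
        1 / Real.sqrt K0 * ∑ T ∈ Nr k, den (HS P.α P.β (nx P.α P.β j (k, T))) (sc A (k, T)) := by
      rw [mul_sum]
      apply sum_le_sum
      intro T hT
      rw [hNr, mem_filter, mem_Icc] at hT
      have h2 := pk_upper hk1 hT.1.1 hT.1.2
      have h3 : 1 / Real.sqrt k ≤ 1 / Real.sqrt K0 := by
        apply one_div_le_one_div_of_le (Real.sqrt_pos.2 hK0pos)
        apply Real.sqrt_le_sqrt
        exact_mod_cast hk.1
      exact mul_le_mul_of_nonneg_right (h2.trans h3) (den_nonneg _ (by positivity))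
    have h3 : ∑ T ∈ Fr k, pk k T * den (HS P.α P.β (j - P.α * k - P.β * (T : ℕ))) (A * 3 ^ k / 2 ^ T) ≤ ε / 4 / r := by
      have g1 : ∀ T ∈ Fr k, pk k T * den (HS P.α P.β (j - P.α * k - P.β * (T : ℕ))) (A * 3 ^ k / 2 ^ T) ≤
          pk k T * (2 * C0 / r) := by
        intro T hT
        rw [hFr, mem_filter, mem_Icc] at hT
        apply mul_le_mul_of_nonneg_left _ (pk_nonneg k T)
        have g2 := size_T hA k2 hT.1.1 hT.1.2
        rw [← htdef] at g2
        have g3 : 0.8 * t ≤ Real.log (A * 3 ^ k / 2 ^ T) := g2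
        obtain ⟨b1, _⟩ := sc_bd hA ht1 k2 hT.1.1 hT.1.2
        have hA' : 0 < A * 3 ^ k / 2 ^ T := by positivity
        refine (hupp _ hA' (by linarith) _).trans ?_
        have g6 : C0 / Real.sqrt (Real.log (A * 3 ^ k / 2 ^ T)) ≤ C0 / (r / 2) := by
          apply div_le_div_of_nonneg_left hC0.le (by positivity)
          apply Real.le_sqrt_of_sq_le
          rw [div_pow, hrr]
          linarith
        refine g6.trans (le_of_eq ?_)
        field_simp
      refine (sum_le_sum g1).trans ?_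
      rw [← sum_mul]
      have g2 := pk_cheb hk1 (a := ρ * r) (by positivity) (Fr k) (by
        intro T hT
        rw [hFr, mem_filter, mem_Icc] at hT
        obtain ⟨⟨b1, b2⟩, b3⟩ := hT
        simp only [hlo, hhi] at b1 b2
        exact ⟨⟨by omega, by omega⟩, not_lt.1 b3⟩)
      have g3 : 2 * (k : ℝ) / (ρ * r) ^ 2 ≤ ε / (8 * C0) := by
        rw [mul_pow, hρ2, hrr, div_le_div_iff₀ (by positivity) (by positivity)]
        have : ε * (8 * C0 / ε * t) = 8 * C0 * t := by field_simp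
        rw [this]
        have h9 := mul_le_mul_of_nonneg_left k2 (show 0 ≤ 2 * (8 * C0) by positivity)
        linarith
      have g4 := mul_le_mul_of_nonneg_right (g2.trans g3) (show 0 ≤ 2 * C0 / r by positivity)
      refine g4.trans (le_of_eq ?_)
      field_simp
      ring
    linarith
  have hsum := sum_le_sum hone
  rw [sum_const, Nat.card_Ico, show 2 * K0 - K0 = K0 by omega, nsmul_eq_mul, sum_add_distrib, sum_const,
    Nat.card_Ico, show 2 * K0 - K0 = K0 by omega, nsmul_eq_mul, ← mul_sum] at hsum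
  -- the double sum
  obtain ⟨E, hE⟩ : ∃ E : ℕ, E = Nat.log 2 ⌊A⌋₊ + 1 := ⟨_, rfl⟩
  have hA1 : 1 ≤ A := by
    rw [← Real.log_nonneg_iff hA]; linarith
  have hEt : (E : ℝ) ≤ 2 * t := by
    have h1 := (ef_spec hA1).1
    unfold ef at h1
    have h2 : (Nat.log 2 ⌊A⌋₊ : ℝ) * Real.log 2 ≤ t := by
      rw [← Real.log_pow, htdef]
      exact Real.log_le_log (by positivity) h1
    have h3 := Real.log_two_gt_d9
    rw [hE]
    push_cast
    nlinarith
  have hdbl : ∑ k ∈ Ico K0 (2 * K0), ∑ T ∈ Nr k,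
      den (HS P.α P.β (nx P.α P.β j (k, T))) (sc A (k, T)) ≤ ε * t / 50 := by
    have e1 : ∑ k ∈ Ico K0 (2 * K0), ∑ T ∈ Nr k,
        den (HS P.α P.β (nx P.α P.β j (k, T))) (sc A (k, T)) =
        ∑ p ∈ ((Ico K0 (2 * K0)).sigma Nr).image (fun q => (q.1, q.2)),
          den (HS P.α P.β (nx P.α P.β j p)) (sc A p) := by
      rw [sum_image]
      · rw [sum_sigma]
      · rintro ⟨a, b⟩ _ ⟨c, d⟩ _ heq
        simp only [Prod.mk.injEq] at heq
        obtain ⟨rfl, rfl⟩ := heq
        rfl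
    have hmem : ∀ p : ℕ × ℕ, p ∈ ((Ico K0 (2 * K0)).sigma Nr).image (fun q => (q.1, q.2)) →
        ((p.1 : ℝ) ≤ t / 2 ∧ lo p.1 ≤ p.2 ∧ p.2 ≤ hi p.1) ∧ |(p.2 : ℝ) - 2 * p.1| < ρ * r := by
      intro p hp
      rw [mem_image] at hp
      obtain ⟨⟨k, T⟩, hq, rfl⟩ := hp
      rw [mem_sigma] at hq
      obtain ⟨hq1, hq2⟩ := hq
      simp only at hq1 hq2
      rw [hNr, mem_filter, mem_Icc] at hq2
      exact ⟨⟨(hkb k hq1).2, hq2.1⟩, hq2.2⟩
    rw [e1]
    refine (big_sum2 h1ab j hA _ E ?_ (fun e => if e < e₀ then 5 / 2 * 2 ^ e else ε / 400 * 2 ^ e) ?_).trans ?_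
    · intro p hp
      obtain ⟨⟨b0, b1, b2⟩, _⟩ := hmem p hp
      obtain ⟨c1, c2⟩ := sc_bd hA ht1 b0 b1 b2
      refine ⟨c1, ?_⟩
      rw [hE]
      unfold ef sc
      have h5 : ⌊A * 3 ^ p.1 / 2 ^ p.2⌋₊ ≤ ⌊A⌋₊ := Nat.floor_le_floor c2
      have := Nat.log_mono_right (b := 2) h5
      exact Nat.lt_succ_of_le this
    · intro e he I hI
      by_cases hee : e < e₀
      · rw [if_pos hee]
        exact triv_We e I
      · rw [if_neg hee]
        apply hat e (by omega) I
        intro i hi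
        obtain ⟨p, hp, hpe, rfl⟩ := hI i hi
        obtain ⟨⟨b0, b1, b2⟩, b3⟩ := hmem p hp
        obtain ⟨c1, c2⟩ := sc_bd hA ht1 b0 b1 b2
        obtain ⟨s1, s2⟩ := ef_spec (y := sc A p) c1
        rw [hpe] at s1 s2
        have hsc0 : 0 < sc A p := by linarith [show (1 : ℝ) ≤ sc A p from c1]
        have hl2 := Real.log_two_gt_d9
        have hl2' := Real.log_two_lt_d9
        have d1 : Real.log (2 ^ e) ≤ Real.log (sc A p) := Real.log_le_log (by positivity) s1
        have d2 : Real.log (sc A p) ≤ Real.log (2 ^ (e + 1)) := Real.log_le_log hsc0 s2.le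
        have d3 : Real.log (sc A p) ≤ t := Real.log_le_log hsc0 c2
        rw [Real.log_pow] at d1 d2
        have d4 : Real.log (2 ^ (e + 2)) = e * Real.log 2 + 2 * Real.log 2 := by
          rw [Real.log_pow]; push_cast; ring
        push_cast at d2
        have d5 : |Real.log (2 ^ (e + 2)) - Real.log (sc A p)| ≤ 2 := by
          rw [d4, abs_le]
          constructor <;> linarith
        have d6 : Real.sqrt (Real.log (2 ^ (e + 2))) ≤ 2 * r := by
          rw [Real.sqrt_le_left (by positivity), mul_pow, hrr]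
          linarith [(abs_le.1 d5).2]
        have d7 := nx_dev P j hA p.1 p.2
        rw [← hν, ← htdef] at d7
        have d8 : |((p.2 : ℝ) - 2 * p.1) * (ν * Real.log 2 - P.β)| ≤ ρ * r * (ν + P.β) := by
          rw [abs_mul]
          apply mul_le_mul b3.le _ (abs_nonneg _) (by positivity)
          have n1 : 0 ≤ ν * Real.log 2 := by positivity
          have n2 : ν * Real.log 2 ≤ ν * 1 := mul_le_mul_of_nonneg_left (by linarith) hν0.le
          rw [abs_le]
          constructor <;> linarith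
        have d9 : |ν * (Real.log (2 ^ (e + 2)) - Real.log (sc A p))| ≤ 2 * ν := by
          rw [abs_mul, abs_of_pos hν0, mul_comm]
          exact mul_le_mul_of_nonneg_right d5 hν0.le
        have d10 : ((nx P.α P.β j p : ℤ) : ℝ) - ν * Real.log (2 ^ (e + 2)) =
            ((j : ℝ) - ν * t) + ((p.2 : ℝ) - 2 * p.1) * (ν * Real.log 2 - P.β) -
              ν * (Real.log (2 ^ (e + 2)) - Real.log (sc A p)) := by
          rw [← d7]
          ring
        rw [d10]
        have d11 : |(j : ℝ) - ν * t| ≤ |((j : ℝ) - ν * t) + ((p.2 : ℝ) - 2 * p.1) * (ν * Real.log 2 - P.β) -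
              ν * (Real.log (2 ^ (e + 2)) - Real.log (sc A p))| +
              |((p.2 : ℝ) - 2 * p.1) * (ν * Real.log 2 - P.β)| +
              |ν * (Real.log (2 ^ (e + 2)) - Real.log (sc A p))| := by
          generalize (j : ℝ) - ν * t = a
          generalize ((p.2 : ℝ) - 2 * p.1) * (ν * Real.log 2 - P.β) = b
          generalize ν * (Real.log (2 ^ (e + 2)) - Real.log (sc A p)) = c
          have h1 : a = (a + b - c) - b + c := by ring
          calc |a| = |(a + b - c) - b + c| := by rw [← h1]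
            _ ≤ |(a + b - c) - b| + |c| := abs_add_le _ _
            _ ≤ |a + b - c| + |b| + |c| := by linarith [abs_sub (a + b - c) b]
        have d12 : K1 * Real.sqrt (Real.log (2 ^ (e + 2))) ≤ K1 * (2 * r) := mul_le_mul_of_nonneg_left d6 hK1.le
        have d13 : 2 * ν * 1 ≤ 2 * ν * r := mul_le_mul_of_nonneg_left hr1 (by positivity)
        have d14 : (2 * K1 + ρ * (ν + P.β) + 2 * ν + 1) * r = K1 * (2 * r) + ρ * r * (ν + P.β) + 2 * ν * r + r := by ring
        rw [d14] at hj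
        linarith
    · have f1 : ∀ e ∈ range E, 2 / 2 ^ e * (if e < e₀ then 5 / 2 * 2 ^ e else ε / 400 * 2 ^ e) ≤
          (if e < e₀ then (5 : ℝ) else 0) + ε / 200 := by
        intro e _
        have h7 : (0 : ℝ) < 2 ^ e := by positivity
        by_cases hee : e < e₀
        · rw [if_pos hee, if_pos hee]
          have : 2 / 2 ^ e * (5 / 2 * 2 ^ e) = (5 : ℝ) := by field_simp
          rw [this]
          linarith [show 0 < ε / 200 by positivity]
        · rw [if_neg hee, if_neg hee]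
          have : 2 / 2 ^ e * (ε / 400 * 2 ^ e) = ε / 200 := by field_simp; norm_num
          rw [this]
          linarith
      refine (sum_le_sum f1).trans ?_
      rw [sum_add_distrib, sum_const, card_range, nsmul_eq_mul, ← sum_filter, sum_const, nsmul_eq_mul]
      have f2 : (((range E).filter fun e => e < e₀).card : ℝ) ≤ e₀ := by
        have : ((range E).filter fun e => e < e₀).card ≤ (range e₀).card := by
          apply card_le_card
          intro e he
          rw [mem_filter] at he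
          exact mem_range.2 he.2
        rw [card_range] at this
        exact_mod_cast this
      have f3 : (e₀ : ℝ) ≤ ε * t / 500 := by
        rw [div_le_iff₀ hε] at ht3
        linarith
      have f4 : (E : ℝ) * (ε / 200) ≤ 2 * t * (ε / 200) := mul_le_mul_of_nonneg_right hEt (by positivity)
      nlinarith
  set s := Real.sqrt K0 with hs
  have hs0 : 0 < s := Real.sqrt_pos.2 hK0pos
  have hss : s ^ 2 = K0 := Real.sq_sqrt hK0pos.le
  have hsr : r ≤ 12 / 5 * s := by
    apply Real.sqrt_le_iff.2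
    refine ⟨by positivity, ?_⟩
    rw [mul_pow, hss]
    linarith
  have h1 : (K0 : ℝ) * den (HS P.α P.β j) A ≤ 1 / s * (ε * t / 50) + K0 * (ε / 4 / r + C / t) := by
    refine hsum.trans (add_le_add_left ?_ _)
    exact mul_le_mul_of_nonneg_left hdbl (by positivity)
  have h2 : den (HS P.α P.β j) A ≤ ε * t / 50 / (K0 * s) + (ε / 4 / r + C / t) := by
    have h3 : (K0 : ℝ) * (ε * t / 50 / (K0 * s) + (ε / 4 / r + C / t)) = 1 / s * (ε * t / 50) + K0 * (ε / 4 / r + C / t) := by
      field_simp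
    rw [← h3] at h1
    exact le_of_mul_le_mul_left h1 hK0pos
  refine h2.trans ?_
  have h4 : ε * t / 50 / (K0 * s) ≤ ε / 4 / r := by
    rw [div_div, div_div, div_le_div_iff₀ (by positivity) (by positivity)]
    have h5 : t * r ≤ (5 * K0) * (12 / 5 * s) := by
      apply mul_le_mul _ hsr hr0.le (by positivity)
      linarith
    have h6 := mul_le_mul_of_nonneg_left h5 (show 0 ≤ 4 * ε by positivity)
    have h7 : 0 ≤ ε * (K0 * s) := by positivity
    have e5 : ε * t * (4 * r) = 4 * ε * (t * r) := by ring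
    have e6 : 4 * ε * ((5 * K0) * (12 / 5 * s)) = 48 * (ε * (K0 * s)) := by ring
    have e7 : ε * (50 * (K0 * s)) = 50 * (ε * (K0 * s)) := by ring
    rw [e5, e7]
    linarith
  have h5 : C / t ≤ ε / 4 / r := by
    rw [div_div, div_le_div_iff₀ ht0 (by positivity)]
    have h6 : 4 * C / ε ≤ r := by
      apply Real.le_sqrt_of_sq_le
      refine le_trans (le_of_eq ?_) ht2
      rw [div_pow, mul_pow]
      norm_num
    rw [div_le_iff₀ hε] at h6
    have h7 : r * r = t := by rw [← sq]; exact hrr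
    calc C * (4 * r) = 4 * C * r := by ring
      _ ≤ r * ε * r := mul_le_mul_of_nonneg_right h6 hr0.le
      _ = ε * t := by rw [← h7]; ring
  have h6 : ε / r = ε / 4 / r + (ε / 4 / r + ε / 4 / r) + ε / 4 / r := by ring
  rw [h6]
  have h7 : 0 ≤ ε / 4 / r := by positivity
  linarith

end Pool.Agent.R468.MF
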