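import Pool.Agent.TH977.LL.Main

/-!
Dyadic sums: uniform upper bounds and decay.
-/

set_option autoImplicit false

namespace Pool.Agent.R468.MF

open Filter Topology Finset
open Pool.Agent.TH977.LL (windows)

/-- a uniform upper bound -/
def Up (f : ℝ → ℤ → ℝ) : Prop := ∃ C : ℝ, 0 < C ∧ ∃ X₀ : ℝ, 2 ≤ X₀ ∧ ∀ x : ℝ, X₀ ≤ x → ∀ j : ℤ,
  f x j ≤ C * x / Real.sqrt (Real.log x)

/-- decay away from the mean -/
def De (ν : ℝ) (f : ℝ → ℤ → ℝ) : Prop := ∀ ε : ℝ, 0 < ε → ∃ K : ℝ, 0 < K ∧ ∃ X₀ : ℝ, 2 ≤ X₀ ∧ ∀ x : ℝ, X₀ ≤ x →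
  ∀ j : ℤ, K * Real.sqrt (Real.log x) < |(j : ℝ) - ν * Real.log x| → f x j ≤ ε * x / Real.sqrt (Real.log x)

/-- the bound of the sum -/
def Dy (b : ℕ) (c : ℝ) (f g : ℝ → ℤ → ℝ) : Prop := ∀ x : ℝ, 2 ≤ x → ∀ L : ℕ, Real.sqrt x ≤ x / 2 ^ L →
  x / 2 ^ L ≤ 2 * Real.sqrt x → ∀ j : ℤ, g x j ≤ ∑ l ∈ range L, f (x / 2 ^ l) (j - b * l) + c * Real.sqrt x

theorem geo2' (x : ℝ) (hx : 0 ≤ x) (L : ℕ) : ∑ l ∈ range L, x / 2 ^ l ≤ 2 * x := by
  have h : ∑ l ∈ range L, x / 2 ^ l = 2 * x - 2 * (x / 2 ^ L) := by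
    induction L with
    | zero => simp
    | succ L ih =>
      rw [sum_range_succ, ih, pow_succ]
      field_simp
      ring
  rw [h]
  have : 0 ≤ x / 2 ^ L := by positivity
  linarith

theorem root_small (x : ℝ) (hx : 0 < x) (hl : 0 < Real.log x) : Real.sqrt x ≤ x / Real.sqrt (Real.log x) := by
  rw [le_div_iff₀ (Real.sqrt_pos.2 hl)]
  calc Real.sqrt x * Real.sqrt (Real.log x) ≤ Real.sqrt x * Real.sqrt x :=
        mul_le_mul_of_nonneg_left (Real.sqrt_le_sqrt (by linarith [Real.log_le_sub_one_of_pos hx])) (Real.sqrt_nonneg _)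
    _ = x := Real.mul_self_sqrt hx.le

/-- the scales of the sum -/
theorem scales {x X₁ : ℝ} (hX1 : 2 ≤ X₁) (hx : max 2500 (2 * Real.log X₁) ≤ Real.log x) (hx0 : 0 < x) : ∃ L : ℕ,
    Real.sqrt x ≤ x / 2 ^ L ∧ x / 2 ^ L ≤ 2 * Real.sqrt x ∧
    ∀ l ∈ range L, X₁ ≤ x / 2 ^ l ∧ Real.log x / 2 ≤ Real.log (x / 2 ^ l) := by
  obtain ⟨L, h1, h2, h3, h4⟩ := windows hx0 ((le_max_left _ _).trans hx)
  refine ⟨L, h1, h2, fun l hl => ?_⟩
  have h5 := h4 l hl
  have h6 : x / 2 ^ (l + 1) ≤ x / 2 ^ l := div_le_div_of_nonneg_left hx0.le (by positivity)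
    (pow_le_pow_right₀ (by norm_num) (by omega))
  have h7 : 0 < x / 2 ^ (l + 1) := by positivity
  have h8 := Real.log_le_log h7 h6
  have h9 : Real.log x / 2 ≤ Real.log (x / 2 ^ l) := h5.trans h8
  refine ⟨?_, h9⟩
  rw [← Real.log_le_log_iff (by linarith) (by positivity)]
  linarith [(le_max_right 2500 (2 * Real.log X₁)).trans hx]

theorem Up_dy {b : ℕ} {c : ℝ} (hc : 0 ≤ c) {f g : ℝ → ℤ → ℝ} (hU : Up f) (hg : Dy b c f g) : Up g := by
  obtain ⟨C, hC, X₁, hX1, hf⟩ := hU
  refine ⟨4 * C + c, by positivity, max 2 (Real.exp (max 2500 (2 * Real.log X₁))), le_max_left _ _, fun x hx j => ?_⟩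
  have hx2 : 2 ≤ x := (le_max_left _ _).trans hx
  have hx0 : 0 < x := by linarith
  have hlx : max 2500 (2 * Real.log X₁) ≤ Real.log x := by
    rw [Real.le_log_iff_exp_le hx0]
    exact (le_max_right _ _).trans hx
  have hl : 0 < Real.log x := by linarith [(le_max_left 2500 (2 * Real.log X₁)).trans hlx]
  obtain ⟨L, h1, h2, h3⟩ := scales hX1 hlx hx0
  set r := Real.sqrt (Real.log x) with hr
  have hr0 : 0 < r := Real.sqrt_pos.2 hl
  have hrr : r ^ 2 = Real.log x := Real.sq_sqrt hl.le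
  have h4 : ∀ l ∈ range L, f (x / 2 ^ l) (j - b * l) ≤ 2 * C / r * (x / 2 ^ l) := by
    intro l hl'
    obtain ⟨g1, g2⟩ := h3 l hl'
    refine (hf _ g1 _).trans ?_
    have g3 : r / 2 ≤ Real.sqrt (Real.log (x / 2 ^ l)) := by
      apply Real.le_sqrt_of_sq_le
      rw [div_pow, hrr]
      linarith
    calc C * (x / 2 ^ l) / Real.sqrt (Real.log (x / 2 ^ l)) ≤ C * (x / 2 ^ l) / (r / 2) :=
          div_le_div_of_nonneg_left (by positivity) (by positivity) g3
      _ = 2 * C / r * (x / 2 ^ l) := by field_simp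
  have h5 := hg x hx2 L h1 h2 j
  have h6 := sum_le_sum h4
  rw [← mul_sum] at h6
  have h7 := mul_le_mul_of_nonneg_left (geo2' x hx0.le L) (show 0 ≤ 2 * C / r by positivity)
  have h8 := mul_le_mul_of_nonneg_left (root_small x hx0 hl) hc
  have h9 : (4 * C + c) * x / r = 2 * C / r * (2 * x) + c * (x / r) := by ring
  rw [h9]
  linarith

theorem De_dy {b : ℕ} {c ν : ℝ} (hc : 0 ≤ c) (hν : 0 ≤ ν) {f g : ℝ → ℤ → ℝ} (hU : Up f) (hD : De ν f) (hg : Dy b c f g) :
    De ν g := by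
  intro ε hε
  obtain ⟨C, hC, X₁, hX1, hf⟩ := hU
  obtain ⟨K₁, hK1, X₂, hX2, hd⟩ := hD (ε / 12) (by positivity)
  -- the number of the first terms
  obtain ⟨I, hI⟩ : ∃ I : ℕ, 12 * C / ε < 2 ^ I := pow_unbounded_of_one_lt _ (by norm_num)
  have hT : Tendsto (fun x : ℝ => Real.log x) atTop atTop := Real.tendsto_log_atTop
  -- `c √x` is small
  have hS : ∀ x : ℝ, 0 < x → 0 < Real.log x → 36 * c ^ 2 / ε ^ 2 * 16 ≤ Real.sqrt x →
      c * Real.sqrt x ≤ ε / 3 * (x / Real.sqrt (Real.log x)) := by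
    intro x hx0 hl hx
    have a1 : Real.log x ≤ 4 * Real.sqrt (Real.sqrt x) := by
      have := Real.log_le_sub_one_of_pos (show 0 < Real.sqrt (Real.sqrt x) from Real.sqrt_pos.2 (Real.sqrt_pos.2 hx0))
      rw [Real.log_sqrt (Real.sqrt_nonneg _), Real.log_sqrt hx0.le] at this
      linarith
    set u := Real.sqrt (Real.sqrt x) with hu
    have hu0 : 0 < u := Real.sqrt_pos.2 (Real.sqrt_pos.2 hx0)
    have huu : u ^ 2 = Real.sqrt x := Real.sq_sqrt (Real.sqrt_nonneg _)
    have hss : Real.sqrt x ^ 2 = x := Real.sq_sqrt hx0.le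
    have hs0 : 0 < Real.sqrt x := Real.sqrt_pos.2 hx0
    have a2 : Real.sqrt (Real.log x) ≤ 2 * Real.sqrt u := by
      rw [Real.sqrt_le_left (by positivity), mul_pow, Real.sq_sqrt hu0.le]
      linarith
    rcases hc.eq_or_lt with hc0 | hc0
    · rw [← hc0, zero_mul]; positivity
    have a3 : Real.sqrt (Real.log x) * (3 * c / ε) ≤ Real.sqrt x := by
      have a4 : (Real.sqrt (Real.log x) * (3 * c / ε)) ^ 2 ≤ Real.sqrt x ^ 2 := by
        rw [mul_pow, Real.sq_sqrt hl.le, hss]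
        have a5 : 36 * c ^ 2 / ε ^ 2 * 16 * 1 ≤ Real.sqrt x * 1 := by linarith
        have a6 : (3 * c / ε) ^ 2 ≤ Real.sqrt x / 64 := by
          rw [div_pow, mul_pow]
          have : 36 * c ^ 2 / ε ^ 2 * 16 = 64 * (3 ^ 2 * c ^ 2 / ε ^ 2) := by ring
          rw [this] at hx
          linarith
        have a7 : 36 * c ^ 2 / ε ^ 2 * 16 ≤ Real.sqrt x := hx
        have a8 : u ≤ u ^ 2 ∨ u < 1 := by
          rcases le_or_gt 1 u with h | h
          · left; nlinarith
          · right; exact h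
        have a9 : Real.log x ≤ 4 * Real.sqrt x := by
          have := Real.log_le_sub_one_of_pos hs0
          rw [Real.log_sqrt hx0.le] at this
          linarith
        calc Real.log x * (3 * c / ε) ^ 2 ≤ (4 * Real.sqrt x) * (Real.sqrt x / 64) :=
              mul_le_mul a9 a6 (by positivity) (by positivity)
          _ = Real.sqrt x ^ 2 / 16 := by ring
          _ ≤ x := by rw [hss]; linarith
      exact le_of_sq_le_sq a4 hs0.le
    have a10 : c * Real.sqrt x * Real.sqrt (Real.log x) ≤ ε / 3 * x := by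
      have a11 := mul_le_mul_of_nonneg_left a3 (show 0 ≤ ε / 3 * Real.sqrt x by positivity)
      have e1 : ε / 3 * Real.sqrt x * (Real.sqrt (Real.log x) * (3 * c / ε)) = c * Real.sqrt x * Real.sqrt (Real.log x) := by
        field_simp
      have e2 : ε / 3 * Real.sqrt x * Real.sqrt x = ε / 3 * x := by
        rw [mul_assoc, Real.mul_self_sqrt hx0.le]
      rw [e1, e2] at a11
      exact a11
    rw [← mul_div_assoc, le_div_iff₀ (Real.sqrt_pos.2 hl)]
    exact a10
  set Y : ℝ := 36 * c ^ 2 / ε ^ 2 * 16 with hY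
  have hY0 : 0 ≤ Y := by positivity
  set T : ℝ := max 2500 (2 * Real.log (max X₁ X₂)) with hTd
  refine ⟨K₁ + I * (ν + b), by positivity, max (max 2 (Real.exp T)) (Y ^ 2), le_max_of_le_left (le_max_left _ _),
    fun x hx j hj => ?_⟩
  have hx2 : 2 ≤ x := ((le_max_left _ _).trans (le_max_left _ _)).trans hx
  have hx0 : 0 < x := by linarith
  have hlx : T ≤ Real.log x := by
    rw [Real.le_log_iff_exp_le hx0]
    exact ((le_max_right _ _).trans (le_max_left _ _)).trans hx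
  have hl25 : 2500 ≤ Real.log x := (le_max_left _ _).trans hlx
  have hl : 0 < Real.log x := by linarith
  obtain ⟨L, h1, h2, h3⟩ := scales (X₁ := max X₁ X₂) (le_max_of_le_left hX1) hlx hx0
  set r := Real.sqrt (Real.log x) with hr
  have hr0 : 0 < r := Real.sqrt_pos.2 hl
  have hr1 : 1 ≤ r := Real.one_le_sqrt.2 (by linarith)
  have hrr : r ^ 2 = Real.log x := Real.sq_sqrt hl.le
  have hb0 : (0 : ℝ) ≤ b := Nat.cast_nonneg _
  have hscale : ∀ l ∈ range L, ∀ B : ℝ, 0 ≤ B → B * (x / 2 ^ l) / Real.sqrt (Real.log (x / 2 ^ l)) ≤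
      2 * B / r * (x / 2 ^ l) := by
    intro l hl' B hB
    obtain ⟨g1, g2⟩ := h3 l hl'
    have g3 : r / 2 ≤ Real.sqrt (Real.log (x / 2 ^ l)) := by
      apply Real.le_sqrt_of_sq_le
      rw [div_pow, hrr]
      linarith
    calc B * (x / 2 ^ l) / Real.sqrt (Real.log (x / 2 ^ l)) ≤ B * (x / 2 ^ l) / (r / 2) :=
          div_le_div_of_nonneg_left (by positivity) (by positivity) g3
      _ = 2 * B / r * (x / 2 ^ l) := by field_simp
  have h4 : ∀ l ∈ range L, f (x / 2 ^ l) (j - b * l) ≤ ε / 6 / r * (x / 2 ^ l) +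
      (if l < I then 0 else 2 * C / r * (x / 2 ^ l)) := by
    intro l hl'
    obtain ⟨g1, g2⟩ := h3 l hl'
    by_cases hlI : l < I
    · rw [if_pos hlI, add_zero]
      have hlR : (l : ℝ) ≤ I := by exact_mod_cast hlI.le
      have hl0 : (0 : ℝ) ≤ l := Nat.cast_nonneg _
      have e1 : Real.log (x / 2 ^ l) = Real.log x - l * Real.log 2 := by
        rw [Real.log_div hx0.ne' (by positivity), Real.log_pow]
      have hl2 := Real.log_two_gt_d9
      have hl2' := Real.log_two_lt_d9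
      have e2 : ((j - b * l : ℤ) : ℝ) - ν * Real.log (x / 2 ^ l) = ((j : ℝ) - ν * Real.log x) + l * (ν * Real.log 2 - b) := by
        rw [e1]; push_cast; ring
      have e3 : |(l : ℝ) * (ν * Real.log 2 - b)| ≤ I * (ν + b) := by
        rw [abs_mul, abs_of_nonneg hl0]
        apply mul_le_mul hlR _ (abs_nonneg _) (Nat.cast_nonneg _)
        have n1 : 0 ≤ ν * Real.log 2 := by positivity
        have n2 : ν * Real.log 2 ≤ ν * 1 := mul_le_mul_of_nonneg_left (by linarith) hν
        rw [abs_le]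
        constructor <;> linarith
      have e4 : Real.sqrt (Real.log (x / 2 ^ l)) ≤ r := by
        apply Real.sqrt_le_sqrt
        rw [e1]
        have : 0 ≤ (l : ℝ) * Real.log 2 := by positivity
        linarith
      have e5 : K₁ * Real.sqrt (Real.log (x / 2 ^ l)) < |((j - b * l : ℤ) : ℝ) - ν * Real.log (x / 2 ^ l)| := by
        rw [e2]
        have n1 : |(j : ℝ) - ν * Real.log x| ≤ |((j : ℝ) - ν * Real.log x) + l * (ν * Real.log 2 - b)| +
            |(l : ℝ) * (ν * Real.log 2 - b)| := by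
          have := abs_sub (((j : ℝ) - ν * Real.log x) + l * (ν * Real.log 2 - b)) (l * (ν * Real.log 2 - b))
          rwa [add_sub_cancel_right] at this
        have n2 : (K₁ + I * (ν + b)) * r = K₁ * r + I * (ν + b) * r := by ring
        have n3 : I * (ν + b) * 1 ≤ I * (ν + b) * r := mul_le_mul_of_nonneg_left hr1 (by positivity)
        have n4 := mul_le_mul_of_nonneg_left e4 hK1.le
        rw [n2] at hj
        linarith
      refine (hd _ ((le_max_right _ _).trans g1) _ e5).trans ?_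
      refine (hscale l hl' (ε / 12) (by positivity)).trans (le_of_eq ?_)
      ring
    · rw [if_neg hlI]
      refine (hf _ ((le_max_left _ _).trans g1) _).trans ?_
      refine (hscale l hl' C hC.le).trans ?_
      have : 0 ≤ ε / 6 / r * (x / 2 ^ l) := by positivity
      linarith
  have h5 := hg x hx2 L h1 h2 j
  have h6 := sum_le_sum h4
  rw [sum_add_distrib, ← mul_sum] at h6
  have h7 := mul_le_mul_of_nonneg_left (geo2' x hx0.le L) (show 0 ≤ ε / 6 / r by positivity)
  have h8 : ∑ l ∈ range L, (if l < I then 0 else 2 * C / r * (x / 2 ^ l)) ≤ 4 * C / r * (x / 2 ^ I) := by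
    have g1 : ∀ l ∈ range L, (if l < I then 0 else 2 * C / r * (x / 2 ^ l)) =
        if I ≤ l then 2 * C / r * (x / 2 ^ l) else 0 := by
      intro l _
      by_cases h : l < I
      · rw [if_pos h, if_neg (by omega)]
      · rw [if_neg h, if_pos (by omega)]
    rw [sum_congr rfl g1, ← sum_filter]
    have g2 : ∑ l ∈ (range L).filter (fun l => I ≤ l), 2 * C / r * (x / 2 ^ l) ≤
        ∑ l ∈ (range L).image (fun l => I + l), 2 * C / r * (x / 2 ^ l) := by
      apply sum_le_sum_of_subset_of_nonneg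
      · intro l hl'
        rw [mem_filter, mem_range] at hl'
        rw [mem_image]
        exact ⟨l - I, mem_range.2 (by omega), by omega⟩
      · intro l _ _
        positivity
    refine g2.trans ?_
    rw [sum_image (by intro a _ b _ h; simp only at h; omega)]
    have g3 : ∀ l ∈ range L, 2 * C / r * (x / 2 ^ (I + l)) = 2 * C / r * (x / 2 ^ I / 2 ^ l) := by
      intro l _
      rw [pow_add, ← div_div]
    rw [sum_congr rfl g3, ← mul_sum]
    have g4 := mul_le_mul_of_nonneg_left (geo2' (x / 2 ^ I) (by positivity) L) (show 0 ≤ 2 * C / r by positivity)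
    refine g4.trans (le_of_eq ?_)
    ring
  have h9 : 4 * C / r * (x / 2 ^ I) ≤ ε / 3 * (x / r) := by
    have g1 : 12 * C ≤ ε * 2 ^ I := by
      rw [div_lt_iff₀ hε] at hI
      linarith
    rw [div_mul_div_comm, ← mul_div_assoc, div_le_div_iff₀ (by positivity) hr0]
    have g2 := mul_le_mul_of_nonneg_right g1 (show 0 ≤ x * r / 3 by positivity)
    calc 4 * C * x * r = 12 * C * (x * r / 3) := by ring
      _ ≤ ε * 2 ^ I * (x * r / 3) := g2
      _ = ε / 3 * x * (r * 2 ^ I) := by ring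
  have h10 := hS x hx0 hl (by
    apply Real.le_sqrt_of_sq_le
    exact (le_max_right _ _).trans hx)
  rw [← hr] at h10
  have h11 : ε * x / r = ε / 6 / r * (2 * x) + ε / 3 * (x / r) + ε / 3 * (x / r) := by ring
  rw [h11]
  linarith

end Pool.Agent.R468.MF
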