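import Pool.Agent.R468.MF.Dec2
import Pool.Agent.R468.MF.Dy

/-!
Decay of the counts away from the mean, part 3: odd numbers and all numbers up to `x`.
-/

set_option autoImplicit false

namespace Pool.Agent.R468.MF

open Filter Topology Finset
open Pool.Agent.R468.GL
open Pool.Agent.H499R2.ND (Td Dn cnt Tn mem_cls cls cls_card_le)
open Pool.Agent.R468.LL (lam lam_eq lam_pos lam_lt)
open Pool.Agent.TH977.LL hiding lam

variable (P : Par)

/-- the counts in a window -/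
noncomputable def f1 (y : ℝ) (j : ℤ) : ℝ := ((cls (HS P.α P.β j) (y / 2) (2 * (y / 2)) 0 1 0).card : ℝ)

theorem f1_den {y : ℝ} (hy : 0 < y) (j : ℤ) : f1 P y j = den (HS P.α P.β j) (y / 2) * (y / 4) := by
  unfold f1 den
  field_simp
  ring

theorem log_half {y : ℝ} (hy : 4 ≤ y) : Real.log y / 2 ≤ Real.log (y / 2) ∧ Real.log (y / 2) ≤ Real.log y ∧
    Real.log (y / 2) = Real.log y - Real.log 2 := by
  have h1 : Real.log (y / 2) = Real.log y - Real.log 2 := Real.log_div (by linarith) (by norm_num)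
  have h2 : 2 * Real.log 2 ≤ Real.log y := by
    rw [← Real.log_rpow (by norm_num)]
    apply Real.log_le_log (by positivity)
    norm_num
    exact hy
  have h3 : 0 < Real.log 2 := Real.log_pos (by norm_num)
  refine ⟨?_, ?_, h1⟩ <;> linarith

theorem f1_Up : Up (f1 P) := by
  obtain ⟨C, hC, h⟩ := upp P.one_le
  refine ⟨C, hC, max 4 (2 * Real.exp 1250), le_max_of_le_left (by norm_num), fun y hy j => ?_⟩
  have hy4 : 4 ≤ y := (le_max_left _ _).trans hy
  have hy0 : 0 < y := by linarith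
  have h1 : 1250 ≤ Real.log (y / 2) := by
    rw [Real.le_log_iff_exp_le (by positivity), le_div_iff₀ (by norm_num)]
    linarith [(le_max_right 4 (2 * Real.exp 1250)).trans hy]
  obtain ⟨g1, g2, _⟩ := log_half hy4
  rw [f1_den P hy0]
  have h2 := h (y / 2) (by positivity) h1 j
  set r := Real.sqrt (Real.log y) with hr
  have hr0 : 0 < r := Real.sqrt_pos.2 (by linarith)
  have hrr : r ^ 2 = Real.log y := Real.sq_sqrt (by linarith)
  have h3 : r / 2 ≤ Real.sqrt (Real.log (y / 2)) := by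
    apply Real.le_sqrt_of_sq_le
    rw [div_pow, hrr]
    linarith
  have h4 : C / Real.sqrt (Real.log (y / 2)) ≤ C / (r / 2) := div_le_div_of_nonneg_left hC.le (by positivity) h3
  calc den (HS P.α P.β j) (y / 2) * (y / 4) ≤ C / (r / 2) * (y / 4) :=
        mul_le_mul_of_nonneg_right (h2.trans h4) (by positivity)
    _ = C * y / r / 2 := by field_simp; ring
    _ ≤ C * y / r := by
      have : 0 ≤ C * y / r := by positivity
      linarith

theorem f1_De {Ψ : ℝ → ℝ} {δ : ℝ} (L : Law (NA P 1 1 {1}) (A0 P / lam) (2 * ww P ^ 2 / lam ^ 3)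
    (kap P / ww P) (fun x => Real.log x / ww P) Ψ δ) : De (A0 P / lam) (f1 P) := by
  intro ε hε
  obtain ⟨K, hK, t₀, ht0, h⟩ := dec_den P L ε hε
  have hlam := lam_pos
  have hA0 := A0_ge P
  have hν0 : 0 < A0 P / lam := by positivity
  refine ⟨K + A0 P / lam, by positivity, max 4 (2 * Real.exp t₀), le_max_of_le_left (by norm_num), fun y hy j hj => ?_⟩
  have hy4 : 4 ≤ y := (le_max_left _ _).trans hy
  have hy0 : 0 < y := by linarith
  have h1 : t₀ ≤ Real.log (y / 2) := by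
    rw [Real.le_log_iff_exp_le (by positivity), le_div_iff₀ (by norm_num)]
    linarith [(le_max_right 4 (2 * Real.exp t₀)).trans hy]
  obtain ⟨g1, g2, g3⟩ := log_half hy4
  rw [f1_den P hy0]
  set r := Real.sqrt (Real.log y) with hr
  have hl : 2000 ≤ Real.log y := by linarith
  have hr0 : 0 < r := Real.sqrt_pos.2 (by linarith)
  have hr1 : 1 ≤ r := Real.one_le_sqrt.2 (by linarith)
  have hrr : r ^ 2 = Real.log y := Real.sq_sqrt (by linarith)
  have h3 : r / 2 ≤ Real.sqrt (Real.log (y / 2)) := by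
    apply Real.le_sqrt_of_sq_le
    rw [div_pow, hrr]
    linarith
  have h2 := h (y / 2) (by positivity) h1 j (by
    have n1 : Real.sqrt (Real.log (y / 2)) ≤ r := Real.sqrt_le_sqrt g2
    have n2 := mul_le_mul_of_nonneg_left n1 hK.le
    have hl2 := Real.log_two_gt_d9
    have hl2' := Real.log_two_lt_d9
    have n3 : |(j : ℝ) - A0 P / lam * Real.log y| ≤ |(j : ℝ) - A0 P / lam * Real.log (y / 2)| + A0 P / lam := by
      have e : (j : ℝ) - A0 P / lam * Real.log y = ((j : ℝ) - A0 P / lam * Real.log (y / 2)) - A0 P / lam * Real.log 2 := by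
        rw [g3]; ring
      rw [e]
      refine (abs_sub _ _).trans ?_
      rw [abs_of_pos (show 0 < A0 P / lam * Real.log 2 by positivity)]
      have := mul_le_mul_of_nonneg_left (show Real.log 2 ≤ 1 by linarith) hν0.le
      linarith
    have n4 := mul_le_mul_of_nonneg_left hr1 hν0.le
    have n5 : (K + A0 P / lam) * r = K * r + A0 P / lam * r := by ring
    rw [n5] at hj
    linarith)
  have h4 : ε / Real.sqrt (Real.log (y / 2)) ≤ ε / (r / 2) := div_le_div_of_nonneg_left hε.le (by positivity) h3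
  calc den (HS P.α P.β j) (y / 2) * (y / 4) ≤ ε / (r / 2) * (y / 4) :=
        mul_le_mul_of_nonneg_right (h2.trans h4) (by positivity)
    _ = ε * y / r / 2 := by field_simp; ring
    _ ≤ ε * y / r := by
      have : 0 ≤ ε * y / r := by positivity
      linarith

/-- odd numbers up to `x` -/
noncomputable def NO (x : ℝ) (j : ℤ) : ℝ := ({n : ℕ | (n : ℝ) ≤ x ∧ n % 2 = 1 ∧ n ∈ Lv P 1 1 {1} j}.ncard : ℝ)

theorem NO_cls {x : ℝ} (hx : 0 ≤ x) (j : ℤ) : NO P x j ≤ (cls (HS P.α P.β j) 1 x 0 1 0).card + 1 := by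
  classical
  unfold NO
  have h1 : (fun n : ℕ => (n : ℤ)) '' {n : ℕ | (n : ℝ) ≤ x ∧ n % 2 = 1 ∧ n ∈ Lv P 1 1 {1} j} ⊆
      ((insert ⌊x⌋ (cls (HS P.α P.β j) 1 x 0 1 0) : Finset ℤ) : Set ℤ) := by
    rintro z ⟨n, ⟨h1, h2, h3⟩, rfl⟩
    simp only
    rw [mem_coe, mem_insert]
    have hn : Odd n := Nat.odd_iff.2 h2
    rcases h1.lt_or_eq with h4 | h4
    · right
      rw [mem_cls]
      refine ⟨⟨?_, ?_⟩, by exact_mod_cast hn, (Lv_HS P hn j).1 h3, by simp⟩
      · have : 1 ≤ n := hn.pos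
        exact_mod_cast this
      · exact_mod_cast h4
    · left
      rw [← h4]
      simp
  have h2 := Set.ncard_le_ncard h1 (Finset.finite_toSet _)
  rw [Set.ncard_image_of_injective _ (Nat.cast_injective (R := ℤ)), Set.ncard_coe_finset] at h2
  have h3 := h2.trans (card_insert_le _ _)
  exact_mod_cast h3

theorem NO_Dy : Dy 0 3 (f1 P) (NO P) := by
  intro x hx L h1 h2 j
  have hx0 : 0 < x := by linarith
  have hs : 1 ≤ Real.sqrt x := Real.one_le_sqrt.2 (by linarith)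
  have h3 := NO_cls P hx0.le j
  have h4 := tele (HS P.α P.β j) hx0 0 0 L (hs.trans h1)
  have h5 := cls_card_le (HS P.α P.β j) (hs.trans h1) 0 isCoprime_one_left 0
  rw [pow_zero, mul_one] at h5
  have h6 : ∑ l ∈ range L, ((cls (HS P.α P.β j) (x / 2 ^ (l + 1)) (2 * (x / 2 ^ (l + 1))) 0 1 0).card : ℝ) =
      ∑ l ∈ range L, f1 P (x / 2 ^ l) (j - (0 : ℕ) * l) := by
    apply sum_congr rfl
    intro l _
    unfold f1
    rw [show x / 2 ^ l / 2 = x / 2 ^ (l + 1) by rw [pow_succ, div_div], Nat.cast_zero, zero_mul, sub_zero]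
  rw [h4, h6] at h3
  linarith

theorem NO_Up : Up (NO P) := Up_dy (by norm_num) (f1_Up P) (NO_Dy P)

theorem FO_NO (x : ℝ) (j : ℤ) : FO P 1 {1} x j = NO P x j := by
  have h := ncard_Lv_odd P (d := 1) odd_one (Or.inl rfl : (1 : ℤ) = 1 ∨ _) {1} x j
  unfold NO
  rw [h]
  simp

theorem FC_NA (x : ℝ) (j : ℤ) : FC P 1 {1} x j = NA P 1 1 {1} x j := by
  have h := ncard_Lv P (d := 1) odd_one (Or.inl rfl : (1 : ℤ) = 1 ∨ _) {1} x j
  unfold NA
  rw [h]
  simp

theorem NA_triv {x : ℝ} (hx : 0 ≤ x) (j : ℤ) : NA P 1 1 {1} x j ≤ x := by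
  unfold NA
  have h1 : {n : ℕ | (n : ℝ) ≤ x ∧ n ∈ Lv P 1 1 {1} j} ⊆ (Icc 1 ⌊x⌋₊ : Finset ℕ) := by
    rintro n ⟨g1, g2, _⟩
    rw [mem_coe, mem_Icc, Nat.le_floor_iff hx]
    exact ⟨g2, g1⟩
  have h2 := Set.ncard_le_ncard h1 (Finset.finite_toSet _)
  rw [Set.ncard_coe_finset, Nat.card_Icc, Nat.add_sub_cancel] at h2
  calc (({n : ℕ | (n : ℝ) ≤ x ∧ n ∈ Lv P 1 1 {1} j}.ncard : ℕ) : ℝ) ≤ (⌊x⌋₊ : ℕ) := by exact_mod_cast h2
    _ ≤ x := Nat.floor_le hx

theorem NA_step (x : ℝ) (j : ℤ) : NA P 1 1 {1} x j ≤ NO P x j + NA P 1 1 {1} (x / 2) (j - P.β) + 2 := by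
  have h := FO_eq P 1 {1} x j
  rw [FO_NO, FC_NA, FC_NA, card_singleton] at h
  have := (abs_le.1 h).1
  push_cast at this
  linarith

theorem NA_iter (x : ℝ) (j : ℤ) (L : ℕ) : NA P 1 1 {1} x j ≤
    ∑ l ∈ range L, NO P (x / 2 ^ l) (j - P.β * l) + NA P 1 1 {1} (x / 2 ^ L) (j - P.β * L) + 2 * L := by
  induction L with
  | zero => simp
  | succ L ih =>
    have h := NA_step P (x / 2 ^ L) (j - P.β * L)
    rw [sum_range_succ]
    have e1 : x / 2 ^ L / 2 = x / 2 ^ (L + 1) := by rw [pow_succ, div_div]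
    have e2 : j - P.β * L - P.β = j - P.β * ((L + 1 : ℕ) : ℤ) := by push_cast; ring
    rw [e1, e2] at h
    push_cast at h ⊢
    linarith

theorem NA_Dy : Dy P.β 4 (NO P) (NA P 1 1 {1}) := by
  intro x hx L h1 h2 j
  have hx0 : 0 < x := by linarith
  have hs : 1 ≤ Real.sqrt x := Real.one_le_sqrt.2 (by linarith)
  have h3 := NA_iter P x j L
  have h4 := NA_triv P (show 0 ≤ x / 2 ^ L by positivity) (j - P.β * L)
  have h5 : (L : ℝ) ≤ Real.sqrt x := by
    have g1 : (L : ℝ) ≤ 2 ^ L := by exact_mod_cast Nat.lt_two_pow_self.le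
    refine g1.trans ?_
    rw [le_div_iff₀ (by positivity)] at h1
    have g2 : Real.sqrt x * 2 ^ L ≤ Real.sqrt x * Real.sqrt x := by
      rw [Real.mul_self_sqrt hx0.le]; exact h1
    exact le_of_mul_le_mul_left g2 (by linarith)
  linarith

theorem NA_Up : Up (NA P 1 1 {1}) := Up_dy (by norm_num) (NO_Up P) (NA_Dy P)

/-- the upper bound for all `x ≥ 2` -/
theorem up_all {g : ℝ → ℤ → ℝ} (h : Up g) {c : ℝ} (hc : 0 ≤ c) (ht : ∀ x : ℝ, 0 ≤ x → ∀ j, g x j ≤ c * x) :
    ∃ A : ℝ, 0 < A ∧ ∀ x : ℝ, 2 ≤ x → ∀ j : ℤ, g x j ≤ A * x / Real.sqrt (Real.log x) := by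
  obtain ⟨C, hC, X₀, hX0, h1⟩ := h
  refine ⟨C + c * Real.sqrt (Real.log X₀), by positivity, fun x hx j => ?_⟩
  have hx0 : 0 < x := by linarith
  have hl : 0 < Real.log x := Real.log_pos (by linarith)
  have hr : 0 < Real.sqrt (Real.log x) := Real.sqrt_pos.2 hl
  rcases le_or_gt X₀ x with h2 | h2
  · refine (h1 x h2 j).trans ?_
    apply div_le_div_of_nonneg_right _ hr.le
    apply mul_le_mul_of_nonneg_right _ hx0.le
    have : 0 ≤ c * Real.sqrt (Real.log X₀) := by positivity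
    linarith
  · rw [le_div_iff₀ hr]
    have h3 : Real.sqrt (Real.log x) ≤ Real.sqrt (Real.log X₀) := Real.sqrt_le_sqrt (Real.log_le_log hx0 h2.le)
    have h4 := mul_le_mul (ht x hx0.le j) h3 hr.le (by positivity)
    have h5 : 0 ≤ C * x := by positivity
    linarith

section
variable {P}
variable {Ψ : ℝ → ℝ} {δ : ℝ}

theorem nu_nonneg' : 0 ≤ A0 P / lam := by
  have := A0_ge P
  have := lam_pos
  positivity

theorem NO_De (L : Law (NA P 1 1 {1}) (A0 P / lam) (2 * ww P ^ 2 / lam ^ 3)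
    (kap P / ww P) (fun x => Real.log x / ww P) Ψ δ) : De (A0 P / lam) (NO P) :=
  De_dy (by norm_num) nu_nonneg' (f1_Up P) (f1_De P L) (NO_Dy P)

theorem NA_De (L : Law (NA P 1 1 {1}) (A0 P / lam) (2 * ww P ^ 2 / lam ^ 3)
    (kap P / ww P) (fun x => Real.log x / ww P) Ψ δ) : De (A0 P / lam) (NA P 1 1 {1}) :=
  De_dy (by norm_num) nu_nonneg' (NO_Up P) (NO_De L) (NA_Dy P)
end

end Pool.Agent.R468.MF
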