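import Mathlib
import Pool.Agent.H705R2.Weyl

/-!
Gaussian sums along an irrational rotation: the twisted theta series.
-/

set_option autoImplicit false

namespace Pool.Agent.R468.MF

open Filter Topology Complex
open Pool.Agent.H705R2 (Circ)

/-- the Gaussian sum with a twist -/
theorem gauss_summable {a : ℝ} (ha : 0 < a) (c β : ℝ) :
    Summable fun j : ℤ => cexp (-(Real.pi * a * ((j : ℂ) - c) ^ 2) - 2 * Real.pi * I * β * j) := by
  have h : Summable fun j : ℤ => jacobiTheta₂_term j (-(I * a * c) - β) (I * a) := by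
    rw [summable_jacobiTheta₂_term_iff]
    simpa using ha
  have h2 := h.mul_left (cexp (-(Real.pi * a * c ^ 2)))
  refine h2.congr fun j => ?_
  unfold jacobiTheta₂_term
  rw [← Complex.exp_add]
  congr 1
  have hI : I ^ 2 = -1 := I_sq
  linear_combination (-(2 * Real.pi * j * a * c) + Real.pi * j ^ 2 * a) * hI

theorem gauss_real_summable {a : ℝ} (ha : 0 < a) (c : ℝ) :
    Summable fun j : ℤ => Real.exp (-(Real.pi * a * ((j : ℝ) - c) ^ 2)) := by
  have h := (gauss_summable ha c 0).norm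
  refine h.congr fun j => ?_
  rw [Complex.norm_exp]
  congr 1
  have : (-(Real.pi * a * ((j : ℂ) - c) ^ 2) - 2 * Real.pi * I * (0 : ℝ) * j) =
      ((-(Real.pi * a * ((j : ℝ) - c) ^ 2) : ℝ) : ℂ) := by
    push_cast
    ring
  rw [this, Complex.ofReal_re]

/-- Poisson summation for the twisted Gaussian sum -/
theorem gauss_poisson {a : ℝ} (ha : 0 < a) (c β : ℝ) :
    (Real.sqrt a : ℂ) * ∑' j : ℤ, cexp (-(Real.pi * a * ((j : ℂ) - c) ^ 2) - 2 * Real.pi * I * β * j) =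
      ∑' n : ℤ, cexp (-(Real.pi / a * ((n : ℂ) + β) ^ 2) - 2 * Real.pi * I * c * (n + β)) := by
  have hac : (a : ℂ) ≠ 0 := by exact_mod_cast ha.ne'
  have hI : I ^ 2 = -1 := I_sq
  have h := Complex.tsum_exp_neg_quadratic (a := (a : ℂ)) (by simpa using ha) ((a : ℂ) * c - I * β)
  have hs : (Real.sqrt a : ℂ) = (a : ℂ) ^ (1 / 2 : ℂ) := by
    rw [Real.sqrt_eq_rpow, Complex.ofReal_cpow ha.le]
    norm_num
  have hs0 : (a : ℂ) ^ (1 / 2 : ℂ) ≠ 0 := by
    rw [← hs]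
    exact_mod_cast (Real.sqrt_pos.2 ha).ne'
  have e1 : ∑' j : ℤ, cexp (-(Real.pi * a * ((j : ℂ) - c) ^ 2) - 2 * Real.pi * I * β * j) =
      cexp (-(Real.pi * a * c ^ 2)) *
        ∑' n : ℤ, cexp (-Real.pi * a * n ^ 2 + 2 * Real.pi * ((a : ℂ) * c - I * β) * n) := by
    rw [← tsum_mul_left]
    refine tsum_congr fun n => ?_
    rw [← Complex.exp_add]
    congr 1
    ring
  rw [e1, h, hs]
  rw [show ∀ x y z : ℂ, x * (y * (1 / x * z)) = (x * (1 / x)) * (y * z) by intros; ring,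
    mul_one_div_cancel hs0, one_mul, ← tsum_mul_left]
  refine tsum_congr fun n => ?_
  rw [← Complex.exp_add]
  congr 1
  have e2 : -(Real.pi : ℂ) / a * (n + I * ((a : ℂ) * c - I * β)) ^ 2 =
      -(Real.pi / a * ((n : ℂ) + β) ^ 2) - 2 * Real.pi * I * c * (n + β) + Real.pi * a * c ^ 2 := by
    have e3 : (n : ℂ) + I * ((a : ℂ) * c - I * β) = (n + β) + I * (a * c) := by
      linear_combination (-(β : ℂ)) * hI
    rw [e3]
    field_simp
    linear_combination (-((a : ℂ) ^ 2 * c ^ 2)) * hI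
  rw [e2]
  ring

/-- the dual sum -/
noncomputable def TT (a β : ℝ) : ℝ := ∑' n : ℤ, Real.exp (-(Real.pi / a * ((n : ℝ) + β) ^ 2))

theorem TT_summable {a : ℝ} (ha : 0 < a) (β : ℝ) :
    Summable fun n : ℤ => Real.exp (-(Real.pi / a * ((n : ℝ) + β) ^ 2)) := by
  have h := gauss_real_summable (a := 1 / a) (by positivity) (-β)
  refine h.congr fun j => ?_
  congr 1
  ring

theorem norm_gauss_le {a : ℝ} (ha : 0 < a) (c β : ℝ) :
    ‖(Real.sqrt a : ℂ) * ∑' j : ℤ, cexp (-(Real.pi * a * ((j : ℂ) - c) ^ 2) - 2 * Real.pi * I * β * j)‖ ≤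
      TT a β := by
  rw [gauss_poisson ha]
  have hn : ∀ n : ℤ, ‖cexp (-(Real.pi / a * ((n : ℂ) + β) ^ 2) - 2 * Real.pi * I * c * (n + β))‖ =
      Real.exp (-(Real.pi / a * ((n : ℝ) + β) ^ 2)) := by
    intro n
    rw [Complex.norm_exp]
    congr 1
    have : (-(Real.pi / a * ((n : ℂ) + β) ^ 2) - 2 * Real.pi * I * c * (n + β)) =
        ((-(Real.pi / a * ((n : ℝ) + β) ^ 2) : ℝ) : ℂ) + ((-(2 * Real.pi * c * (n + β)) : ℝ) : ℂ) * I := by
      push_cast
      ring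
    rw [this, Complex.add_re, Complex.ofReal_re, Complex.re_ofReal_mul, Complex.I_re, mul_zero, add_zero]
  unfold TT
  simp only [← hn]
  apply norm_tsum_le_tsum_norm
  simp only [hn]
  exact TT_summable ha β

/-- the dual sum of an irrational twist is small -/
theorem TT_le {a : ℝ} (ha : 0 < a) (ha1 : a ≤ 1) {β d : ℝ} (hd : 0 ≤ d) (hβ : ∀ n : ℤ, d ≤ |(n : ℝ) + β|) :
    TT a β ≤ Real.exp (-(Real.pi * (1 / a - 1) * d ^ 2)) * TT 1 β := by
  unfold TT
  rw [← tsum_mul_left]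
  refine (TT_summable ha β).tsum_le_tsum (fun n => ?_) ((TT_summable one_pos β).mul_left _)
  rw [← Real.exp_add]
  apply Real.exp_le_exp.2
  have h1 : d ^ 2 ≤ ((n : ℝ) + β) ^ 2 := by
    rw [← sq_abs ((n : ℝ) + β)]
    exact pow_le_pow_left₀ hd (hβ n) 2
  have h2 : 0 ≤ Real.pi * (1 / a - 1) := by
    apply mul_nonneg Real.pi_pos.le
    rw [sub_nonneg, le_div_iff₀ ha]
    linarith
  have h3 := mul_le_mul_of_nonneg_left h1 h2
  have h4 : Real.pi / a * ((n : ℝ) + β) ^ 2 =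
      Real.pi * (1 / a - 1) * ((n : ℝ) + β) ^ 2 + Real.pi / 1 * ((n : ℝ) + β) ^ 2 := by ring
  rw [h4]
  linarith

theorem exp_small {d : ℝ} (hd : 0 < d) : Tendsto (fun a : ℝ => Real.exp (-(Real.pi * (1 / a - 1) * d ^ 2)))
    (𝓝[>] 0) (𝓝 0) := by
  apply Real.tendsto_exp_neg_atTop_nhds_zero.comp
  have h1 : Tendsto (fun a : ℝ => 1 / a) (𝓝[>] 0) atTop := by
    simpa only [one_div] using tendsto_inv_nhdsGT_zero
  have h2 : Tendsto (fun a : ℝ => 1 / a - 1) (𝓝[>] 0) atTop := tendsto_atTop_add_const_right _ _ h1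
  exact (h2.const_mul_atTop Real.pi_pos).atTop_mul_const (by positivity)

/-- irrational twist -/
theorem twist_small {β : ℝ} (hβ : Irrational β) : ∀ ε : ℝ, 0 < ε → ∃ a₀ : ℝ, 0 < a₀ ∧ ∀ a : ℝ, 0 < a → a < a₀ →
    ∀ c : ℝ, ‖(Real.sqrt a : ℂ) *
      ∑' j : ℤ, cexp (-(Real.pi * a * ((j : ℂ) - c) ^ 2) - 2 * Real.pi * I * β * j)‖ ≤ ε := by
  intro ε hε
  set d : ℝ := |(-β) - round (-β)| with hd
  have hd0 : 0 < d := by
    rw [hd, abs_pos, sub_ne_zero]
    intro h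
    exact hβ ⟨-(round (-β) : ℚ), by push_cast; linarith⟩
  have hdn : ∀ n : ℤ, d ≤ |(n : ℝ) + β| := by
    intro n
    have h1 := round_le (-β) n
    rw [← hd] at h1
    refine h1.trans (le_of_eq ?_)
    rw [abs_sub_comm]
    congr 1
    ring
  have hT : Tendsto (fun a : ℝ => Real.exp (-(Real.pi * (1 / a - 1) * d ^ 2)) * TT 1 β) (𝓝[>] 0) (𝓝 0) := by
    have := (exp_small hd0).mul_const (TT 1 β)
    rwa [zero_mul] at this
  have h2 : ∀ᶠ a : ℝ in 𝓝[>] 0, Real.exp (-(Real.pi * (1 / a - 1) * d ^ 2)) * TT 1 β ≤ ε :=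
    hT.eventually_le_const hε
  rw [eventually_nhdsWithin_iff, Metric.eventually_nhds_iff] at h2
  obtain ⟨r, hr, h3⟩ := h2
  refine ⟨min r 1, by positivity, fun a ha har c => ?_⟩
  refine (norm_gauss_le ha c β).trans ((TT_le ha ((lt_min_iff.1 har).2.le) hd0.le hdn).trans (h3 ?_ ha))
  rw [Real.dist_eq, sub_zero, abs_of_pos ha]
  exact (lt_min_iff.1 har).1

/-- no twist: the Gaussian sum is close to one -/
theorem gauss_one : ∀ ε : ℝ, 0 < ε → ∃ a₀ : ℝ, 0 < a₀ ∧ ∀ a : ℝ, 0 < a → a < a₀ → ∀ c : ℝ,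
    |Real.sqrt a * ∑' j : ℤ, Real.exp (-(Real.pi * a * ((j : ℝ) - c) ^ 2)) - 1| ≤ ε := by
  intro ε hε
  have hT : Tendsto (fun a : ℝ => Real.exp (-(Real.pi * (1 / a - 1) * 1 ^ 2)) * TT 1 0) (𝓝[>] 0) (𝓝 0) := by
    have := (exp_small one_pos).mul_const (TT 1 0)
    rwa [zero_mul] at this
  have h2 : ∀ᶠ a : ℝ in 𝓝[>] 0, Real.exp (-(Real.pi * (1 / a - 1) * 1 ^ 2)) * TT 1 0 ≤ ε :=
    hT.eventually_le_const hε
  rw [eventually_nhdsWithin_iff, Metric.eventually_nhds_iff] at h2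
  obtain ⟨r, hr, h3⟩ := h2
  refine ⟨min r 1, by positivity, fun a ha har c => ?_⟩
  have ha1 : a ≤ 1 := (lt_min_iff.1 har).2.le
  have hp := gauss_poisson ha c 0
  have e1 : (Real.sqrt a : ℂ) * ∑' j : ℤ, cexp (-(Real.pi * a * ((j : ℂ) - c) ^ 2) - 2 * Real.pi * I * (0 : ℝ) * j) =
      ((Real.sqrt a * ∑' j : ℤ, Real.exp (-(Real.pi * a * ((j : ℝ) - c) ^ 2)) : ℝ) : ℂ) := by
    push_cast
    congr 1
    refine tsum_congr fun j => ?_
    congr 1
    ring
  rw [e1] at hp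
  -- split off the term of zero
  set f : ℤ → ℂ := fun n => cexp (-(Real.pi / a * ((n : ℂ) + (0 : ℝ)) ^ 2) - 2 * Real.pi * I * c * (n + (0 : ℝ)))
    with hf
  have hfn : ∀ n : ℤ, ‖f n‖ = Real.exp (-(Real.pi / a * ((n : ℝ) + 0) ^ 2)) := by
    intro n
    rw [hf]
    simp only
    rw [Complex.norm_exp]
    congr 1
    have : (-(Real.pi / a * ((n : ℂ) + (0 : ℝ)) ^ 2) - 2 * Real.pi * I * c * (n + (0 : ℝ))) =
        ((-(Real.pi / a * ((n : ℝ) + 0) ^ 2) : ℝ) : ℂ) + ((-(2 * Real.pi * c * n) : ℝ) : ℂ) * I := by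
      push_cast
      ring
    rw [this, Complex.add_re, Complex.ofReal_re, Complex.re_ofReal_mul, Complex.I_re, mul_zero, add_zero]
  have hfs : Summable f := by
    apply Summable.of_norm
    simp only [hfn]
    exact TT_summable ha 0
  have h0 : f 0 = 1 := by simp [hf]
  have hsplit := hfs.tsum_eq_add_tsum_ite 0
  rw [h0] at hsplit
  have e2 : (((Real.sqrt a * ∑' j : ℤ, Real.exp (-(Real.pi * a * ((j : ℝ) - c) ^ 2)) - 1 : ℝ)) : ℂ) =
      ∑' n : ℤ, ite (n = 0) 0 (f n) := by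
    rw [Complex.ofReal_sub, hp, hsplit, Complex.ofReal_one]
    ring
  rw [← Real.norm_eq_abs, ← Complex.norm_real, e2]
  have hg : ∀ n : ℤ, ‖ite (n = 0) 0 (f n)‖ ≤
      Real.exp (-(Real.pi * (1 / a - 1) * 1 ^ 2)) * Real.exp (-(Real.pi / 1 * ((n : ℝ) + 0) ^ 2)) := by
    intro n
    split_ifs with hn
    · rw [norm_zero]; positivity
    · rw [hfn, ← Real.exp_add]
      apply Real.exp_le_exp.2
      have h1 : (1 : ℝ) ≤ ((n : ℝ) + 0) ^ 2 := by
        rw [add_zero]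
        have : (1 : ℤ) ≤ n ^ 2 := by
          have : 0 < n ^ 2 := by positivity
          omega
        exact_mod_cast this
      have h4 : 0 ≤ Real.pi * (1 / a - 1) := by
        apply mul_nonneg Real.pi_pos.le
        rw [sub_nonneg, le_div_iff₀ ha]
        linarith
      have h5 := mul_le_mul_of_nonneg_left h1 h4
      have h6 : Real.pi / a * ((n : ℝ) + 0) ^ 2 =
          Real.pi * (1 / a - 1) * ((n : ℝ) + 0) ^ 2 + Real.pi / 1 * ((n : ℝ) + 0) ^ 2 := by ring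
      rw [h6]
      linarith
  have hgs : Summable fun n : ℤ =>
      Real.exp (-(Real.pi * (1 / a - 1) * 1 ^ 2)) * Real.exp (-(Real.pi / 1 * ((n : ℝ) + 0) ^ 2)) :=
    (TT_summable one_pos 0).mul_left _
  have h7 := tsum_of_norm_bounded hgs.hasSum hg
  refine h7.trans ?_
  rw [tsum_mul_left]
  apply h3 _ ha
  rw [Real.dist_eq, sub_zero, abs_of_pos ha]
  exact (lt_min_iff.1 har).1

end Pool.Agent.R468.MF
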