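import Pool.Agent.R468.MF.E1

/-!
Gaussian sums of a continuous periodic function along an irrational rotation.
-/

set_option autoImplicit false

namespace Pool.Agent.R468.MF

open Filter Topology Complex MeasureTheory Set
open Pool.Agent.H705R2 (Circ)

/-- the Gaussian sum of `Φ` along a rotation -/
noncomputable def GS (α a c θ : ℝ) (Φ : Circ → ℂ) : ℂ :=
  (Real.sqrt a : ℂ) * ∑' j : ℤ, ((Real.exp (-(Real.pi * a * ((j : ℝ) - c) ^ 2)) : ℝ) : ℂ) *
    Φ ((θ - j * α : ℝ) : Circ)

theorem GS_summable {a : ℝ} (ha : 0 < a) (α c θ : ℝ) (Φ : C(Circ, ℂ)) :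
    Summable fun j : ℤ => ((Real.exp (-(Real.pi * a * ((j : ℝ) - c) ^ 2)) : ℝ) : ℂ) *
      Φ ((θ - j * α : ℝ) : Circ) := by
  apply Summable.of_norm_bounded ((gauss_real_summable ha c).mul_right ‖Φ‖)
  intro j
  rw [norm_mul, Complex.norm_real, Real.norm_eq_abs, abs_of_pos (Real.exp_pos _)]
  exact mul_le_mul_of_nonneg_left (Φ.norm_coe_le_norm _) (Real.exp_pos _).le

theorem GS_sub {a : ℝ} (ha : 0 < a) (α c θ : ℝ) (Φ Ψ : C(Circ, ℂ)) :
    GS α a c θ Φ - GS α a c θ Ψ = GS α a c θ (Φ - Ψ : C(Circ, ℂ)) := by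
  unfold GS
  rw [← mul_sub, ← (GS_summable ha α c θ Φ).tsum_sub (GS_summable ha α c θ Ψ)]
  congr 1
  refine tsum_congr fun j => ?_
  rw [ContinuousMap.sub_apply]
  ring

theorem GS_norm {a : ℝ} (ha : 0 < a) (α c θ : ℝ) (Φ : C(Circ, ℂ)) :
    ‖GS α a c θ Φ‖ ≤ (Real.sqrt a * ∑' j : ℤ, Real.exp (-(Real.pi * a * ((j : ℝ) - c) ^ 2))) * ‖Φ‖ := by
  unfold GS
  rw [norm_mul, Complex.norm_real, Real.norm_eq_abs, abs_of_nonneg (Real.sqrt_nonneg _), mul_assoc]
  apply mul_le_mul_of_nonneg_left _ (Real.sqrt_nonneg _)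
  rw [← tsum_mul_right]
  refine tsum_of_norm_bounded ((gauss_real_summable ha c).mul_right ‖Φ‖).hasSum fun j => ?_
  rw [norm_mul, Complex.norm_real, Real.norm_eq_abs, abs_of_pos (Real.exp_pos _)]
  exact mul_le_mul_of_nonneg_left (Φ.norm_coe_le_norm _) (Real.exp_pos _).le

/-- the property of the theorem -/
def Good (α : ℝ) (Φ : Circ → ℂ) : Prop := ∀ ε : ℝ, 0 < ε → ∃ a₀ : ℝ, 0 < a₀ ∧ ∀ a : ℝ, 0 < a → a < a₀ →
  ∀ c θ : ℝ, ‖GS α a c θ Φ - ∫ z : Circ, Φ z‖ ≤ ε

theorem good_fourier {α : ℝ} (hα : Irrational α) (n : ℤ) : Good α (fourier n : C(Circ, ℂ)) := by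
  intro ε hε
  by_cases hn : n = 0
  · subst hn
    obtain ⟨a₀, h0, h⟩ := gauss_one ε hε
    refine ⟨a₀, h0, fun a ha ha2 c θ => ?_⟩
    have hint : ∫ x : Circ, (fourier 0 x : ℂ) = 1 := by
      simp [Measure.real]
    rw [hint]
    have h1 := h a ha ha2 c
    rw [← Real.norm_eq_abs, ← Complex.norm_real] at h1
    refine le_trans (le_of_eq ?_) h1
    congr 1
    unfold GS
    push_cast
    congr 2
    refine tsum_congr fun j => ?_
    rw [fourier_zero, mul_one]
  · have hirr : Irrational (n * α : ℝ) := hα.intCast_mul hn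
    obtain ⟨a₀, h0, h⟩ := twist_small hirr ε hε
    refine ⟨a₀, h0, fun a ha ha2 c θ => ?_⟩
    rw [Pool.Agent.H705R2.integral_fourier_eq_zero hn, sub_zero]
    have h1 := h a ha ha2 c
    have e1 : GS α a c θ (fourier n : C(Circ, ℂ)) = cexp (2 * Real.pi * I * n * θ) *
        ((Real.sqrt a : ℂ) *
          ∑' j : ℤ, cexp (-(Real.pi * a * ((j : ℂ) - c) ^ 2) - 2 * Real.pi * I * ((n * α : ℝ) : ℂ) * j)) := by
      unfold GS
      rw [mul_left_comm]
      congr 1
      rw [← tsum_mul_left]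
      refine tsum_congr fun j => ?_
      rw [fourier_coe_apply, Complex.ofReal_exp, ← Complex.exp_add, ← Complex.exp_add]
      congr 1
      push_cast
      ring
    rw [e1, norm_mul]
    have e2 : ‖cexp (2 * Real.pi * I * n * θ)‖ = 1 := by
      have : 2 * (Real.pi : ℂ) * I * n * θ = ((2 * Real.pi * n * θ : ℝ) : ℂ) * I := by
        push_cast; ring
      rw [this, Complex.norm_exp_ofReal_mul_I]
    rw [e2, one_mul]
    exact h1

theorem integral_sub_circ (f g : C(Circ, ℂ)) :
    ∫ x : Circ, (f - g) x = (∫ x : Circ, f x) - ∫ x : Circ, g x := by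
  have := integral_sub (μ := (volume : Measure Circ)) (f := f) (g := g)
    (f.continuous.integrable_of_hasCompactSupport (HasCompactSupport.of_compactSpace _))
    (g.continuous.integrable_of_hasCompactSupport (HasCompactSupport.of_compactSpace _))
  simpa using this

/-- EQUIDISTRIBUTION: Gaussian averages along an irrational rotation converge to the mean, uniformly in
the centre and in the starting point. -/
theorem equi {α : ℝ} (hα : Irrational α) (Φ : C(Circ, ℂ)) : Good α Φ := by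
  have hmem : ∀ f ∈ (Submodule.span ℂ (range <| @fourier 1)), Good α f := by
    intro f hf
    induction hf using Submodule.span_induction with
    | mem f hf =>
      obtain ⟨n, rfl⟩ := hf
      exact good_fourier hα n
    | zero =>
      intro ε hε
      refine ⟨1, one_pos, fun a ha ha2 c θ => ?_⟩
      simp [GS, hε.le]
    | add f g hf hg ihf ihg =>
      intro ε hε
      obtain ⟨a1, h1, h1'⟩ := ihf (ε / 2) (by positivity)
      obtain ⟨a2, h2, h2'⟩ := ihg (ε / 2) (by positivity)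
      refine ⟨min a1 a2, lt_min h1 h2, fun a ha ha2 c θ => ?_⟩
      have hi : ∫ x : Circ, (f + g) x = (∫ x : Circ, f x) + ∫ x : Circ, g x := by
        have := integral_add (μ := (volume : Measure Circ)) (f := f) (g := g)
          (f.continuous.integrable_of_hasCompactSupport (HasCompactSupport.of_compactSpace _))
          (g.continuous.integrable_of_hasCompactSupport (HasCompactSupport.of_compactSpace _))
        simpa using this
      have hs : GS α a c θ (f + g : C(Circ, ℂ)) = GS α a c θ f + GS α a c θ g := by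
        unfold GS
        rw [← mul_add, ← (GS_summable ha α c θ f).tsum_add (GS_summable ha α c θ g)]
        congr 1
        refine tsum_congr fun j => ?_
        rw [ContinuousMap.add_apply]
        ring
      rw [hi, hs]
      have e : GS α a c θ f + GS α a c θ g - ((∫ x : Circ, f x) + ∫ x : Circ, g x) =
          (GS α a c θ f - ∫ x : Circ, f x) + (GS α a c θ g - ∫ x : Circ, g x) := by ring
      rw [e]
      refine (norm_add_le _ _).trans ?_
      have b1 := h1' a ha (lt_min_iff.1 ha2).1 c θ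
      have b2 := h2' a ha (lt_min_iff.1 ha2).2 c θ
      linarith
    | smul t f hf ihf =>
      intro ε hε
      obtain ⟨a1, h1, h1'⟩ := ihf (ε / (‖t‖ + 1)) (by positivity)
      refine ⟨a1, h1, fun a ha ha2 c θ => ?_⟩
      have hi : ∫ x : Circ, (t • f) x = t * (∫ x : Circ, f x) := by
        simp [integral_const_mul]
      have hs : GS α a c θ (t • f : C(Circ, ℂ)) = t * GS α a c θ f := by
        unfold GS
        have e : ∑' j : ℤ, ((Real.exp (-(Real.pi * a * ((j : ℝ) - c) ^ 2)) : ℝ) : ℂ) *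
            (t • f : C(Circ, ℂ)) ((θ - j * α : ℝ) : Circ) =
            t * ∑' j : ℤ, ((Real.exp (-(Real.pi * a * ((j : ℝ) - c) ^ 2)) : ℝ) : ℂ) *
              f ((θ - j * α : ℝ) : Circ) := by
          rw [← tsum_mul_left]
          refine tsum_congr fun j => ?_
          have : (t • f : C(Circ, ℂ)) ((θ - j * α : ℝ) : Circ) = t * f ((θ - j * α : ℝ) : Circ) := rfl
          rw [this]
          ring
        rw [e]
        ring
      rw [hi, hs, ← mul_sub, norm_mul]
      have b1 := h1' a ha ha2 c θ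
      rw [le_div_iff₀ (by positivity)] at b1
      nlinarith [norm_nonneg (GS α a c θ f - ∫ x : Circ, f x), norm_nonneg t]
  intro ε hε
  have hcl : Φ ∈ (Submodule.span ℂ (range <| @fourier 1)).topologicalClosure := by
    rw [span_fourier_closure_eq_top]; trivial
  rw [← SetLike.mem_coe, Submodule.topologicalClosure_coe, Metric.mem_closure_iff] at hcl
  obtain ⟨f, hf, hfd⟩ := hcl (ε / 4) (by positivity)
  obtain ⟨a1, h1, h1'⟩ := hmem f hf (ε / 4) (by positivity)
  obtain ⟨a2, h2, h2'⟩ := gauss_one 1 one_pos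
  refine ⟨min a1 a2, lt_min h1 h2, fun a ha ha2 c θ => ?_⟩
  have b1 := h1' a ha (lt_min_iff.1 ha2).1 c θ
  have b2 := h2' a ha (lt_min_iff.1 ha2).2 c
  have b3 := GS_norm ha α c θ (Φ - f)
  rw [dist_eq_norm] at hfd
  have b4 : Real.sqrt a * ∑' j : ℤ, Real.exp (-(Real.pi * a * ((j : ℝ) - c) ^ 2)) ≤ 2 := by
    linarith [(abs_le.1 b2).2]
  have b5 : ‖GS α a c θ (Φ - f : C(Circ, ℂ))‖ ≤ ε / 2 := by
    refine b3.trans ?_
    have := mul_le_mul b4 hfd.le (norm_nonneg _) (by norm_num)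
    linarith
  have b6 : ‖∫ x : Circ, (Φ - f) x‖ ≤ ε / 4 := by
    have h := norm_integral_le_of_norm_le_const (μ := (volume : Measure Circ)) (f := fun x => (Φ - f) x)
      (C := ε / 4) (Filter.Eventually.of_forall fun x => ((Φ - f).norm_coe_le_norm x).trans hfd.le)
    simpa [Measure.real] using h
  have e : GS α a c θ Φ - ∫ z : Circ, Φ z = GS α a c θ (Φ - f : C(Circ, ℂ)) +
      (GS α a c θ f - ∫ z : Circ, f z) - ∫ x : Circ, (Φ - f) x := by
    rw [← GS_sub ha, integral_sub_circ]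
    ring
  rw [e]
  refine (norm_sub_le _ _).trans ?_
  have := norm_add_le (GS α a c θ (Φ - f : C(Circ, ℂ))) (GS α a c θ f - ∫ z : Circ, f z)
  linarith

/-- the real form, for a continuous function of period one -/
theorem equi_real {α : ℝ} (hα : Irrational α) {Ψ : ℝ → ℝ} (hc : Continuous Ψ) (hp : ∀ t, Ψ (t + 1) = Ψ t) :
    ∀ ε : ℝ, 0 < ε → ∃ a₀ : ℝ, 0 < a₀ ∧ ∀ a : ℝ, 0 < a → a < a₀ → ∀ c θ : ℝ,
      (Summable fun j : ℤ => Real.exp (-(Real.pi * a * ((j : ℝ) - c) ^ 2)) * Ψ (θ - j * α)) ∧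
      |Real.sqrt a * ∑' j : ℤ, Real.exp (-(Real.pi * a * ((j : ℝ) - c) ^ 2)) * Ψ (θ - j * α) -
        ∫ t in (0 : ℝ)..1, Ψ t| ≤ ε := by
  have hper : Function.Periodic Ψ 1 := hp
  let F : Circ → ℝ := hper.lift
  have hF : ∀ t : ℝ, F (t : Circ) = Ψ t := fun t => hper.lift_coe t
  have hFc : Continuous F := by
    have hq : Topology.IsQuotientMap ((↑) : ℝ → Circ) := QuotientAddGroup.isQuotientMap_mk _
    rw [hq.continuous_iff]
    have : F ∘ ((↑) : ℝ → Circ) = Ψ := funext hF
    rw [this]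
    exact hc
  let Φ : C(Circ, ℂ) := ⟨fun z => (F z : ℂ), Complex.continuous_ofReal.comp hFc⟩
  have hΦ : ∀ t : ℝ, Φ (t : Circ) = (Ψ t : ℂ) := fun t => by
    change ((F (t : Circ) : ℝ) : ℂ) = _
    rw [hF]
  have hint : ∫ z : Circ, Φ z = ((∫ t in (0 : ℝ)..1, Ψ t : ℝ) : ℂ) := by
    have h1 := AddCircle.intervalIntegral_preimage 1 0 (fun z => Φ z)
    rw [← h1, zero_add, ← intervalIntegral.integral_ofReal]
    apply intervalIntegral.integral_congr
    intro t _
    exact hΦ t
  intro ε hε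
  obtain ⟨a₀, h0, h⟩ := equi hα Φ ε hε
  refine ⟨a₀, h0, fun a ha ha2 c θ => ?_⟩
  have hs := GS_summable ha α c θ Φ
  simp only [hΦ, ← Complex.ofReal_mul] at hs
  rw [Complex.summable_ofReal] at hs
  refine ⟨hs, ?_⟩
  have h1 := h a ha ha2 c θ
  rw [hint] at h1
  rw [← Real.norm_eq_abs, ← Complex.norm_real]
  refine le_trans (le_of_eq ?_) h1
  congr 1
  unfold GS
  simp only [hΦ]
  push_cast
  rfl

end Pool.Agent.R468.MF
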