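import Pool.Agent.R468.MF.Dec3

/-!
The most frequent values and the tuples with equal values.
-/

set_option autoImplicit false

namespace Pool.Agent.R468.MF

open Filter Topology Finset
open Pool.Agent.R468.GL
open Pool.Agent.H499R2.LT (od Dn_iff)
open Pool.Agent.H499R2.ND (Td Dn cnt Tn mem_cls cls cls_card_le)
open Pool.Agent.R468.LL (lam lam_eq lam_pos lam_lt)

/-- the tuples with a common value -/
theorem tuples {S : ℤ → Set ℕ} (hS : ∀ n j j', n ∈ S j → n ∈ S j' → j = j') {X : Set ℕ} (hX : X.Finite) {r : ℕ}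
    (hr : 1 ≤ r) (J₀ : Finset ℤ) : ∃ J : Finset ℤ, J₀ ⊆ J ∧
      ({v : Fin r → ℕ | (∀ i, v i ∈ X) ∧ ∃ j, ∀ i, v i ∈ S j}.ncard : ℝ) =
        ∑ j ∈ J, ({n : ℕ | n ∈ X ∧ n ∈ S j}.ncard : ℝ) ^ r := by
  classical
  have hf : ∀ j, {n : ℕ | n ∈ X ∧ n ∈ S j}.Finite := fun j => hX.subset fun n hn => hn.1
  let val : ℕ → ℤ := fun n => if h : ∃ j, n ∈ S j then h.choose else 0
  have hval : ∀ n j, n ∈ S j → val n = j := by
    intro n j hn
    have h : ∃ j, n ∈ S j := ⟨j, hn⟩
    have h1 : val n = h.choose := dif_pos h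
    rw [h1]
    exact hS n _ _ h.choose_spec hn
  refine ⟨J₀ ∪ hX.toFinset.image val, subset_union_left, ?_⟩
  have h0 : 0 < r := hr
  have key : {v : Fin r → ℕ | (∀ i, v i ∈ X) ∧ ∃ j, ∀ i, v i ∈ S j} =
      (((J₀ ∪ hX.toFinset.image val).biUnion fun j => Fintype.piFinset fun _ : Fin r => (hf j).toFinset :
        Finset (Fin r → ℕ)) : Set (Fin r → ℕ)) := by
    ext v
    rw [Set.mem_ofPred_eq, mem_coe, mem_biUnion]
    constructor
    · rintro ⟨h1, j, h2⟩
      refine ⟨j, ?_, ?_⟩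
      · rw [mem_union, mem_image]
        right
        exact ⟨v ⟨0, h0⟩, hX.mem_toFinset.2 (h1 _), hval _ _ (h2 _)⟩
      · rw [Fintype.mem_piFinset]
        intro i
        rw [Set.Finite.mem_toFinset]
        exact ⟨h1 i, h2 i⟩
    · rintro ⟨j, _, h2⟩
      rw [Fintype.mem_piFinset] at h2
      have h3 : ∀ i, v i ∈ X ∧ v i ∈ S j := fun i => (hf j).mem_toFinset.1 (h2 i)
      exact ⟨fun i => (h3 i).1, j, fun i => (h3 i).2⟩
  rw [key, Set.ncard_coe_finset, card_biUnion]
  · push_cast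
    apply sum_congr rfl
    intro j _
    rw [Fintype.card_piFinset_const, Set.ncard_eq_toFinset_card _ (hf j)]
    push_cast
    rfl
  · intro j _ j' _ hne
    rw [Function.onFun, Finset.disjoint_left]
    intro v hv hv'
    rw [Fintype.mem_piFinset] at hv hv'
    exact hne (hS _ _ _ ((hf j).mem_toFinset.1 (hv ⟨0, h0⟩)).2 ((hf j').mem_toFinset.1 (hv' ⟨0, h0⟩)).2)

variable (P : Par)

/-- ALL POSITIVE INTEGERS -/
theorem main_all : ∃ (δ : ℝ) (Ψ : ℝ → ℝ), 0 < δ ∧
    Dn (fun n : ℕ => ∃ k : ℕ, (Td 1)^[k] (1 * (n : ℤ)) ∈ ({1} : Finset ℤ)) δ ∧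
    (∀ t, δ * (ww P * qr P / (1 - qr P)) ≤ Ψ t ∧ Ψ t ≤ δ * (ww P / (1 - qr P))) ∧
    Law (NA P 1 1 {1}) (A0 P / lam) (2 * ww P ^ 2 / lam ^ 3) (kap P / ww P) (fun x => Real.log x / ww P) Ψ δ ∧
    Law (fun x j => 2 * NO P x j) (A0 P / lam) (2 * ww P ^ 2 / lam ^ 3) (kap P / ww P) (fun x => Real.log x / ww P) Ψ δ := by
  obtain ⟨δ, Ψ, h0, h1, h2, h3, L, h4⟩ := law_all P (d := 1) odd_one (by omega) (Or.inl rfl : (1 : ℤ) = 1 ∨ _) {1}
  refine ⟨δ, Ψ, h1 ⟨1, by simp, by norm_num, by omega⟩, h2, h3, L, ?_⟩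
  exact
    { v_pos := L.v_pos
      irr := L.irr
      cont := L.cont
      per := L.per
      psi_nonneg := L.psi_nonneg
      psi_int := L.psi_int
      nonneg := fun x j => by unfold NO; positivity
      mass := by
        intro ε hε
        -- the density of the odd numbers of the basin
        have hodd : Dn (fun m => m % 2 = 1 ∧ ∃ k : ℕ, (Td 1)^[k] (1 * (m : ℤ)) ∈ ({1} : Finset ℤ)) (δ / 2) := by
          have hB : Dn Pool.Agent.H499R2.ND.Bas δ := Dn_iff (fun n _ => exists_congr fun k => iff_one n k) h2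
          have := Pool.Agent.H499R2.ND.inv_prog Pool.Agent.H499R2.ND.Bas_inv hB (q := 2) (by norm_num) 1
          have h5 : Dn (fun m => m % 2 = 1 ∧ Pool.Agent.H499R2.ND.Bas m) (δ / 2) := by exact_mod_cast this
          exact Dn_iff (fun n _ => and_congr_right fun _ => exists_congr fun k => (iff_one n k).symm) h5
        obtain ⟨X₀, hX0, hX⟩ := Dn_upper hodd (by positivity) (ε / 2) (by positivity)
        refine ⟨X₀, hX0, fun x hx J => ?_⟩
        have h6 := hX x hx
        have h7 : ∑ j ∈ J, NO P x j ≤ ({n : ℕ | (n : ℝ) ≤ x ∧ 1 ≤ n ∧ n % 2 = 1 ∧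
            ∃ k : ℕ, (Td 1)^[k] (1 * (n : ℤ)) ∈ ({1} : Finset ℤ)}.ncard : ℝ) := by
          classical
          have hfin : ∀ S : Set ℕ, ({n : ℕ | (n : ℝ) ≤ x ∧ n % 2 = 1 ∧ n ∈ S}).Finite := fun S =>
            (fin_le x).subset fun n hn => hn.1
          have key : ∑ j ∈ J, {n : ℕ | (n : ℝ) ≤ x ∧ n % 2 = 1 ∧ n ∈ Lv P 1 1 {1} j}.ncard ≤
              {n : ℕ | (n : ℝ) ≤ x ∧ 1 ≤ n ∧ n % 2 = 1 ∧ ∃ k : ℕ, (Td 1)^[k] (1 * (n : ℤ)) ∈ ({1} : Finset ℤ)}.ncard := by
            have e : ∀ j ∈ J, {n : ℕ | (n : ℝ) ≤ x ∧ n % 2 = 1 ∧ n ∈ Lv P 1 1 {1} j}.ncard =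
                ((hfin (Lv P 1 1 {1} j)).toFinset).card := fun j _ => Set.ncard_eq_toFinset_card _ (hfin _)
            rw [sum_congr rfl e, ← card_biUnion]
            · rw [← Set.ncard_coe_finset]
              apply Set.ncard_le_ncard
              · intro n hn
                rw [mem_coe, mem_biUnion] at hn
                obtain ⟨j, _, hn⟩ := hn
                rw [Set.Finite.mem_toFinset] at hn
                obtain ⟨h1, h2', h2, k, ⟨h3, _⟩, _⟩ := hn
                exact ⟨h1, h2, h2', k, h3⟩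
              · exact (fin_le x).subset fun n hn => hn.1
            · intro j _ j' _ hne
              rw [Function.onFun, Finset.disjoint_left]
              intro n hn hn'
              rw [Set.Finite.mem_toFinset] at hn hn'
              exact hne (Lv_unique P hn.2.2 hn'.2.2)
          unfold NO
          exact_mod_cast key
        rw [← mul_sum]
        linarith
      loc := by
        intro K ε hε
        obtain ⟨X₀, hX0, hX⟩ := h4 K ε hε
        refine ⟨X₀, hX0, fun x hx j hj => ?_⟩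
        have := hX x hx j hj
        have e : Real.log x / ww P - j * (kap P / ww P) = sv P (x, j) := by
          unfold sv
          ring
        rw [e]
        have e2 : 2 * NO P x j / (x * gn (A0 P / lam) (2 * ww P ^ 2 / lam ^ 3) x j) =
            ({n : ℕ | (n : ℝ) ≤ x ∧ n % 2 = 1 ∧ n ∈ Lv P 1 1 {1} j}.ncard : ℝ) / (x / 2 * gd P x j) := by
          rw [gd_gn]
          unfold NO
          rw [show x / 2 * gn (A0 P / lam) (2 * ww P ^ 2 / lam ^ 3) x j =
            x * gn (A0 P / lam) (2 * ww P ^ 2 / lam ^ 3) x j / 2 by ring, div_div_eq_mul_div]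
          congr 1
          ring
        rw [e2]
        exact this }

end Pool.Agent.R468.MF
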