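import Pool.Agent.R468.MF.Gen
import Pool.Agent.R468.LL.Fin

/-!
The most frequent values and the tuples with equal values: total stopping times.
-/

set_option autoImplicit false

namespace Pool.Agent.R468.MF

open Filter Topology Finset
open Pool.Agent.R468.GL
open Pool.Agent.H499R2.LT (od Dn_iff)
open Pool.Agent.H499R2.ND (Td Dn cnt Tn CC Bas BasC)
open Pool.Agent.R468.LL (lam lam_eq lam_pos lam_lt)

theorem Lv_neg' (P : Par) {j : ℤ} (hj : j < 0) {n : ℕ} (h : n ∈ Lv P 1 1 {1} j) : False := by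
  obtain ⟨_, k, _, h3⟩ := h
  have h4 := (od_bd 1 k (1 * (n : ℤ))).1
  have h5 : (0 : ℤ) ≤ P.α * od 1 k (1 * (n : ℤ)) := mul_nonneg (Nat.cast_nonneg _) h4
  have h6 : (0 : ℤ) ≤ P.β * (k : ℤ) := by positivity
  omega

theorem NA_neg (P : Par) (x : ℝ) {j : ℤ} (hj : j < 0) : NA P 1 1 {1} x j = 0 := by
  unfold NA
  have : {n : ℕ | (n : ℝ) ≤ x ∧ n ∈ Lv P 1 1 {1} j} = ∅ := by
    ext n
    simp only [Set.mem_ofPred_eq, Set.mem_empty_iff_false, iff_false]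
    exact fun h => Lv_neg' P hj h.2
  rw [this]
  simp

theorem le_max_int {Ψ : ℝ → ℝ} (hc : Continuous Ψ) {M : ℝ} (h : ∀ t, Ψ t ≤ M) : ∫ t in (0 : ℝ)..1, Ψ t ≤ M := by
  have h1 := intervalIntegral.integral_mono_on (a := 0) (b := 1) (μ := MeasureTheory.volume) (by norm_num)
    (hc.intervalIntegrable _ _) (continuous_const (y := M).intervalIntegrable _ _) (fun x _ => h x)
  simpa using h1

/-- ALL POSITIVE INTEGERS, any statistic of the family -/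
theorem freq (P : Par) (St : ℕ → ℕ → Prop) (hSt : ∀ n k : ℕ, n ∈ Lv P 1 1 {1} (k : ℤ) ↔ 1 ≤ n ∧ St n k) :
    ∃ (δ : ℝ) (Ψ : ℝ → ℝ) (M : ℝ), 0 < δ ∧
    Dn (fun n : ℕ => ∃ k : ℕ, (Td 1)^[k] (1 * (n : ℤ)) ∈ ({1} : Finset ℤ)) δ ∧
    Continuous Ψ ∧ (∀ t, Ψ (t + 1) = Ψ t) ∧
    (∀ t, δ * (ww P * qr P / (1 - qr P)) ≤ Ψ t ∧ Ψ t ≤ δ * (ww P / (1 - qr P))) ∧
    (∫ t in (0 : ℝ)..1, Ψ t = δ) ∧ (∀ t, Ψ t ≤ M) ∧ (∃ t, Ψ t = M) ∧ δ ≤ M ∧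
    (∀ K ε : ℝ, 0 < ε → ∃ X₀ : ℝ, ∀ x : ℝ, X₀ ≤ x → ∀ k : ℕ,
      |(k : ℝ) - A0 P / lam * Real.log x| ≤ K * Real.sqrt (Real.log x) →
      |({n : ℕ | 1 ≤ n ∧ (n : ℝ) ≤ x ∧ St n k}.ncard : ℝ) / (x * gd P x k) - Ψ (sv P (x, k))| ≤ ε) ∧
    (∀ ε : ℝ, 0 < ε → ∃ X₀ : ℝ, ∀ x : ℝ, X₀ ≤ x →
      (∀ k : ℕ, ({n : ℕ | 1 ≤ n ∧ (n : ℝ) ≤ x ∧ St n k}.ncard : ℝ) ≤
        (M + ε) * x / Real.sqrt (2 * Real.pi * (2 * ww P ^ 2 / lam ^ 3 * Real.log x))) ∧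
      (∃ k : ℕ, |(k : ℝ) - A0 P / lam * Real.log x| ≤ ε * Real.sqrt (Real.log x) ∧
        (M - ε) * x / Real.sqrt (2 * Real.pi * (2 * ww P ^ 2 / lam ^ 3 * Real.log x)) ≤
          ({n : ℕ | 1 ≤ n ∧ (n : ℝ) ≤ x ∧ St n k}.ncard : ℝ)) ∧
      ∀ k : ℕ, (∀ i : ℕ, {n : ℕ | 1 ≤ n ∧ (n : ℝ) ≤ x ∧ St n i}.ncard ≤ {n : ℕ | 1 ≤ n ∧ (n : ℝ) ≤ x ∧ St n k}.ncard) →
        |(k : ℝ) - A0 P / lam * Real.log x| ≤ ε * Real.sqrt (Real.log x)) ∧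
    (∀ r : ℕ, 1 ≤ r → Tendsto (fun x : ℝ =>
      ({w : Fin r → ℕ | (∀ i, 1 ≤ w i ∧ (w i : ℝ) ≤ x) ∧ ∃ k : ℕ, ∀ i, St (w i) k}.ncard : ℝ) *
        (Real.sqrt (2 * Real.pi * (2 * ww P ^ 2 / lam ^ 3 * Real.log x)) ^ (r - 1) / x ^ r)) atTop
      (𝓝 (1 / Real.sqrt r * ∫ t in (0 : ℝ)..1, Ψ t ^ r))) := by
  obtain ⟨δ, Ψ, h0, h1, h2, L, _⟩ := main_all P
  obtain ⟨t₀, h3, h4, h5⟩ := mode_nat L h0 (NA_De L) (fun x j hj => NA_neg P x hj)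
  obtain ⟨A, hA, hu⟩ := up_all (NA_Up P) (c := 1) (by norm_num) (fun x hx j => by
    rw [one_mul]; exact NA_triv P hx j)
  have hN : ∀ (x : ℝ) (k : ℕ), NA P 1 1 {1} x k = ({n : ℕ | 1 ≤ n ∧ (n : ℝ) ≤ x ∧ St n k}.ncard : ℝ) := by
    intro x k
    unfold NA
    have : {n : ℕ | (n : ℝ) ≤ x ∧ n ∈ Lv P 1 1 {1} (k : ℤ)} = {n : ℕ | 1 ≤ n ∧ (n : ℝ) ≤ x ∧ St n k} := by
      ext n
      rw [Set.mem_ofPred_eq, Set.mem_ofPred_eq, hSt]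
      tauto
    rw [this]
  refine ⟨δ, Ψ, Ψ t₀, h0, h1, L.cont, L.per, h2, L.psi_int, h3, ⟨t₀, rfl⟩, ?_, ?_, ?_, ?_⟩
  · rw [← L.psi_int]
    exact le_max_int L.cont h3
  · intro K ε hε
    obtain ⟨X₀, _, hX⟩ := L.loc K ε hε
    refine ⟨X₀, fun x hx k hk => ?_⟩
    have h6 := hX x hx (k : ℤ) (by exact_mod_cast hk)
    rw [hN, ← gd_gn] at h6
    have e : Real.log x / ww P - ((k : ℤ) : ℝ) * (kap P / ww P) = sv P (x, (k : ℤ)) := by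
      unfold sv
      ring
    rw [e] at h6
    exact h6
  · intro ε hε
    obtain ⟨X₀, _, hX⟩ := h5 ε hε
    refine ⟨X₀, fun x hx => ?_⟩
    obtain ⟨g1, ⟨k, g2, g3⟩, g4⟩ := hX x hx
    refine ⟨fun k => ?_, ⟨k, g2, ?_⟩, fun k hk => g4 k fun i => ?_⟩
    · have := g1 k
      rw [hN] at this
      exact this
    · rw [hN] at g3
      exact g3
    · rw [hN, hN]
      exact_mod_cast hk i
  · intro r hr
    have h6 := tup_nat L hA hu (S := Lv P 1 1 {1}) (X := fun x => {n : ℕ | (n : ℝ) ≤ x}) (c := 1)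
      (fun x => fin_le x) (fun n j j' g1 g2 => Lv_unique P g1 g2) (fun x j => by rw [one_mul]; rfl) r hr
    refine h6.congr fun x => ?_
    have e : {w : Fin r → ℕ | (∀ i, w i ∈ {n : ℕ | (n : ℝ) ≤ x}) ∧ ∃ j, ∀ i, w i ∈ Lv P 1 1 {1} j} =
        {w : Fin r → ℕ | (∀ i, 1 ≤ w i ∧ (w i : ℝ) ≤ x) ∧ ∃ k : ℕ, ∀ i, St (w i) k} := by
      ext w
      rw [Set.mem_ofPred_eq, Set.mem_ofPred_eq]
      constructor
      · rintro ⟨g1, j, g2⟩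
        have hj : 0 ≤ j := by
          by_contra hcon
          exact Lv_neg' P (by omega) (g2 ⟨0, hr⟩)
        obtain ⟨k, rfl⟩ := Int.eq_ofNat_of_zero_le hj
        exact ⟨fun i => ⟨((hSt _ _).1 (g2 i)).1, g1 i⟩, k, fun i => ((hSt _ _).1 (g2 i)).2⟩
      · rintro ⟨g1, k, g2⟩
        exact ⟨fun i => (g1 i).2, k, fun i => (hSt _ _).2 ⟨(g1 i).1, g2 i⟩⟩
    rw [e, one_pow, one_mul]
    unfold sd
    ring

end Pool.Agent.R468.MF
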