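import Pool.Agent.R468.MF.Fin2
import Pool.Agent.H499R2.HL.C

/-!
The most frequent values and the tuples with equal values: heights of odd integers.
-/

set_option autoImplicit false

namespace Pool.Agent.R468.MF

open Filter Topology Finset
open Pool.Agent.R468.GL
open Pool.Agent.H499R2.LT (od Dn_iff odn od_nat)
open Pool.Agent.H499R2.ND (Td Dn cnt Tn CC Bas BasC IsHt ht_iff)
open Pool.Agent.H499R2.HL (H ht_H)
open Pool.Agent.R468.LL (lam lam_eq lam_pos lam_lt mu_lam)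
open Pool.Agent.Y966.LD (IsHeight)

theorem isHt_iff' {m h : ℕ} : IsHt m h ↔ IsHeight m h := by
  constructor
  · rintro ⟨h1, h2, h3⟩
    refine ⟨⟨h1, h2⟩, fun j hj => ?_⟩
    by_contra hlt
    exact h3 j hj.1 (by omega) hj.2
  · rintro ⟨⟨h1, h2⟩, h3⟩
    refine ⟨h1, h2, fun j hj1 hj2 hj3 => ?_⟩
    have := h3 ⟨hj1, hj3⟩
    omega

/-- the odd integers of height `j` -/
def SH (j : ℤ) : Set ℕ := {m | m % 2 = 1 ∧ ∃ k : ℕ, (k : ℤ) = j ∧ IsHeight m k}

theorem SH_unique (n : ℕ) (j j' : ℤ) (h : n ∈ SH j) (h' : n ∈ SH j') : j = j' := by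
  obtain ⟨_, k, h1, h2⟩ := h
  obtain ⟨_, k', h1', h2'⟩ := h'
  rw [← h1, ← h1', h2.unique h2']

theorem SH_Lv {n : ℕ} {j : ℤ} (h : n ∈ SH j) (hn : n ≠ 1) : n ∈ Lv PO 1 1 {1} j := by
  obtain ⟨h0, k, h1, h2⟩ := h
  obtain ⟨t, h3, h4⟩ := (ht_H h0 hn k).1 (isHt_iff'.2 h2)
  refine ⟨by omega, t, ?_, ?_⟩
  · simp only [iff_one]
    exact h3
  · rw [one_mul, od_nat, h4]
    have h5 : (PO.α : ℤ) = 1 := rfl
    have h6 : (PO.β : ℤ) = 0 := rfl
    rw [h5, h6]
    omega

/-- the counts of the heights -/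
noncomputable def NH (x : ℝ) (j : ℤ) : ℝ := 2 * ({n : ℕ | n ∈ {n : ℕ | (n : ℝ) ≤ x} ∧ n ∈ SH j}.ncard : ℝ)

theorem NH_le (x : ℝ) (j : ℤ) : NH x j ≤ 2 * NO PO x j + 2 := by
  unfold NH NO
  have h1 : {n : ℕ | n ∈ {n : ℕ | (n : ℝ) ≤ x} ∧ n ∈ SH j} ⊆
      insert 1 {n : ℕ | (n : ℝ) ≤ x ∧ n % 2 = 1 ∧ n ∈ Lv PO 1 1 {1} j} := by
    rintro n ⟨h1, h2⟩
    by_cases hn : n = 1
    · left; exact hn
    · right
      exact ⟨h1, h2.1, SH_Lv h2 hn⟩
  have h2 := (Set.ncard_le_ncard h1 (((fin_le x).subset fun n hn => hn.1).insert 1)).trans (Set.ncard_insert_le _ _)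
  have h3 : ({n : ℕ | n ∈ {n : ℕ | (n : ℝ) ≤ x} ∧ n ∈ SH j}.ncard : ℝ) ≤
      {n : ℕ | (n : ℝ) ≤ x ∧ n % 2 = 1 ∧ n ∈ Lv PO 1 1 {1} j}.ncard + 1 := by exact_mod_cast h2
  linarith

theorem NH_nat (x : ℝ) (k : ℕ) : NH x k = 2 * ({m : ℕ | m % 2 = 1 ∧ (m : ℝ) ≤ x ∧ IsHeight m k}.ncard : ℝ) := by
  unfold NH
  have : {n : ℕ | n ∈ {n : ℕ | (n : ℝ) ≤ x} ∧ n ∈ SH k} = {m : ℕ | m % 2 = 1 ∧ (m : ℝ) ≤ x ∧ IsHeight m k} := by
    ext n
    constructor
    · rintro ⟨h1, h2, k', h3, h4⟩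
      have : k' = k := by exact_mod_cast h3
      subst this
      exact ⟨h2, h1, h4⟩
    · rintro ⟨h1, h2, h3⟩
      exact ⟨h2, h1, k, rfl, h3⟩
  rw [this]

theorem NH_neg (x : ℝ) {j : ℤ} (hj : j < 0) : NH x j = 0 := by
  unfold NH
  have : {n : ℕ | n ∈ {n : ℕ | (n : ℝ) ≤ x} ∧ n ∈ SH j} = ∅ := by
    ext n
    simp only [Set.mem_ofPred_eq, Set.mem_empty_iff_false, iff_false]
    rintro ⟨_, _, k, h1, _⟩
    omega
  rw [this]
  simp

theorem De_pert {ν : ℝ} {f g : ℝ → ℤ → ℝ} (h : De ν f) (hg : ∀ x j, g x j ≤ 2 * f x j + 2) : De ν g := by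
  intro ε hε
  obtain ⟨K, hK, X₀, hX0, hX⟩ := h (ε / 4) (by positivity)
  refine ⟨K, hK, max X₀ (16 / ε ^ 2), le_max_of_le_left hX0, fun x hx j hj => ?_⟩
  have hx1 : X₀ ≤ x := (le_max_left _ _).trans hx
  have hx2 : 16 / ε ^ 2 ≤ x := (le_max_right _ _).trans hx
  have hx0 : 0 < x := by linarith
  have hl : 0 < Real.log x := Real.log_pos (by linarith)
  have h1 := hX x hx1 j hj
  have h2 := hg x j
  have h3 := root_small x hx0 hl
  have h4 : 4 / ε ≤ Real.sqrt x := by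
    apply Real.le_sqrt_of_sq_le
    rw [div_pow]
    norm_num
    exact hx2
  rw [div_le_iff₀ hε] at h4
  have h5 : 4 ≤ x / Real.sqrt (Real.log x) * ε := h4.trans (mul_le_mul_of_nonneg_right h3 hε.le)
  have e1 : ε * x / Real.sqrt (Real.log x) = x / Real.sqrt (Real.log x) * ε := by ring
  have e2 : ε / 4 * x / Real.sqrt (Real.log x) = x / Real.sqrt (Real.log x) * ε / 4 := by ring
  rw [e1]
  rw [e2] at h1
  linarith

/-- the law of the heights -/
theorem law_H : ∃ (δ : ℝ) (Ψ : ℝ → ℝ), 0 < δ ∧ δ ≤ 1 ∧ (δ = 1 ↔ ∀ n : ℕ, 1 ≤ n → Bas n) ∧ Dn Bas δ ∧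
    (∀ s, δ * Real.log 2 ≤ Ψ s ∧ Ψ s ≤ 2 * δ * Real.log 2) ∧
    (∀ K ε : ℝ, 0 < ε → ∃ X₀ : ℝ, ∀ x : ℝ, X₀ ≤ x → ∀ k : ℕ,
      |(k : ℝ) - 2 / Real.log (16 / 9) * Real.log x| ≤ K * Real.sqrt (Real.log x) →
      |({m : ℕ | m % 2 = 1 ∧ (m : ℝ) ≤ x ∧ IsHeight m k}.ncard : ℝ) / (x / 2 * Pool.Agent.R468.LL.gd x k) -
        Ψ (Real.logb 2 (3 ^ k * x))| ≤ ε) ∧
    Law NH (A0 PO / lam) (2 * ww PO ^ 2 / lam ^ 3) (kap PO / ww PO) (fun x => Real.log x / ww PO) Ψ δ := by
  obtain ⟨δ, Ψ, h0, h1, h2, h3, h4, h5, h6, h7, h8⟩ := Pool.Agent.R468.LL.main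
  have hl2 : 0 < Real.log 2 := Real.log_pos (by norm_num)
  have hlam := lam_pos
  refine ⟨δ, Ψ, h0, h1, h2, h3, h6, h8, ?_⟩
  exact
    { v_pos := by have := ww_pos PO; positivity
      irr := kw_irr PO
      cont := h4
      per := h5
      psi_nonneg := fun t => (mul_nonneg h0.le hl2.le).trans (h6 t).1
      psi_int := h7
      nonneg := fun x j => by unfold NH; positivity
      mass := by
        intro ε hε
        have hodd : Dn (fun m => m % 2 = 1 ∧ Bas m) (δ / 2) := by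
          have := Pool.Agent.H499R2.ND.inv_prog Pool.Agent.H499R2.ND.Bas_inv h3 (q := 2) (by norm_num) 1
          exact_mod_cast this
        obtain ⟨X₀, hX0, hX⟩ := Dn_upper hodd (by positivity) (ε / 2) (by positivity)
        refine ⟨X₀, hX0, fun x hx J => ?_⟩
        have h9 := hX x hx
        have h10 : ∑ j ∈ J, ({n : ℕ | n ∈ {n : ℕ | (n : ℝ) ≤ x} ∧ n ∈ SH j}.ncard : ℝ) ≤
            ({n : ℕ | (n : ℝ) ≤ x ∧ 1 ≤ n ∧ n % 2 = 1 ∧ Bas n}.ncard : ℝ) := by
          classical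
          have hfin : ∀ S : Set ℕ, ({n : ℕ | n ∈ {n : ℕ | (n : ℝ) ≤ x} ∧ n ∈ S}).Finite := fun S =>
            (fin_le x).subset fun n hn => hn.1
          have key : ∑ j ∈ J, {n : ℕ | n ∈ {n : ℕ | (n : ℝ) ≤ x} ∧ n ∈ SH j}.ncard ≤
              {n : ℕ | (n : ℝ) ≤ x ∧ 1 ≤ n ∧ n % 2 = 1 ∧ Bas n}.ncard := by
            have e : ∀ j ∈ J, {n : ℕ | n ∈ {n : ℕ | (n : ℝ) ≤ x} ∧ n ∈ SH j}.ncard =
                ((hfin (SH j)).toFinset).card := fun j _ => Set.ncard_eq_toFinset_card _ (hfin _)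
            rw [sum_congr rfl e, ← card_biUnion]
            · rw [← Set.ncard_coe_finset]
              apply Set.ncard_le_ncard
              · intro n hn
                rw [mem_coe, mem_biUnion] at hn
                obtain ⟨j, _, hn⟩ := hn
                rw [Set.Finite.mem_toFinset] at hn
                obtain ⟨g1, g2, k, _, g3⟩ := hn
                exact ⟨g1, by omega, g2, (ht_iff (Nat.odd_iff.2 g2)).2 ⟨k, isHt_iff'.2 g3⟩⟩
              · exact (fin_le x).subset fun n hn => hn.1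
            · intro j _ j' _ hne
              rw [Function.onFun, Finset.disjoint_left]
              intro n hn hn'
              rw [Set.Finite.mem_toFinset] at hn hn'
              exact hne (SH_unique n j j' hn.2 hn'.2)
          exact_mod_cast key
        unfold NH
        rw [← mul_sum]
        linarith
      loc := by
        intro K ε hε
        obtain ⟨X₀, hX⟩ := h8 K ε hε
        -- the window has only nonnegative integers
        have hT : Tendsto (fun x : ℝ => A0 PO / lam * Real.sqrt (Real.log x) - K) atTop atTop := by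
          apply tendsto_atTop_add_const_right
          apply (Real.tendsto_sqrt_atTop.comp Real.tendsto_log_atTop).const_mul_atTop
          have := A0_ge PO
          positivity
        obtain ⟨X₁, hX₁⟩ := eventually_atTop.1 (hT.eventually_ge_atTop 0)
        refine ⟨max 2 (max X₀ X₁), le_max_left _ _, fun x hx j hj => ?_⟩
        have hx2 : 2 ≤ x := (le_max_left _ _).trans hx
        have hx0 : X₀ ≤ x := ((le_max_left _ _).trans (le_max_right _ _)).trans hx
        have hx1 := hX₁ x (((le_max_right _ _).trans (le_max_right _ _)).trans hx)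
        have hxp : 0 < x := by linarith
        have hl : 0 < Real.log x := Real.log_pos (by linarith)
        have hr := Real.sqrt_pos.2 hl
        have hrr : Real.sqrt (Real.log x) * Real.sqrt (Real.log x) = Real.log x := Real.mul_self_sqrt hl.le
        have hj0 : 0 ≤ j := by
          have g1 := (abs_le.1 hj).1
          have g2 : 0 ≤ (A0 PO / lam * Real.sqrt (Real.log x) - K) * Real.sqrt (Real.log x) := mul_nonneg hx1 hr.le
          have g3 : (A0 PO / lam * Real.sqrt (Real.log x) - K) * Real.sqrt (Real.log x) =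
              A0 PO / lam * Real.log x - K * Real.sqrt (Real.log x) := by
            rw [sub_mul, mul_assoc, hrr]
          have g4 : (0 : ℝ) ≤ j := by linarith
          exact_mod_cast g4
        obtain ⟨k, rfl⟩ := Int.eq_ofNat_of_zero_le hj0
        have hmu : A0 PO / lam = 2 / Real.log (16 / 9) := by rw [mu_lam, A0_PO]
        have h9 := hX x hx0 k (by rw [← hmu]; exact_mod_cast hj)
        have e1 : Real.logb 2 (3 ^ k * x) = Real.log x / ww PO - ((k : ℤ) : ℝ) * (kap PO / ww PO) := by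
          unfold Real.logb
          rw [ww_PO, kap_PO, Real.log_mul (by positivity) hxp.ne', Real.log_pow]
          push_cast
          ring
        have e2 : Pool.Agent.R468.LL.gd x k = gn (A0 PO / lam) (2 * ww PO ^ 2 / lam ^ 3) x (k : ℤ) := by
          unfold Pool.Agent.R468.LL.gd gn sd
          rw [hmu, ww_PO]
          unfold lam
          push_cast
          rfl
        rw [e1, e2] at h9
        have e3 : NH x (k : ℤ) / (x * gn (A0 PO / lam) (2 * ww PO ^ 2 / lam ^ 3) x (k : ℤ)) =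
            ({m : ℕ | m % 2 = 1 ∧ (m : ℝ) ≤ x ∧ IsHeight m k}.ncard : ℝ) /
              (x / 2 * gn (A0 PO / lam) (2 * ww PO ^ 2 / lam ^ 3) x (k : ℤ)) := by
          rw [NH_nat, show x / 2 * gn (A0 PO / lam) (2 * ww PO ^ 2 / lam ^ 3) x (k : ℤ) =
            x * gn (A0 PO / lam) (2 * ww PO ^ 2 / lam ^ 3) x (k : ℤ) / 2 by ring, div_div_eq_mul_div]
          congr 1
          ring
        change |NH x (k : ℤ) / (x * gn (A0 PO / lam) (2 * ww PO ^ 2 / lam ^ 3) x (k : ℤ)) - _| ≤ ε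
        rw [e3]
        exact h9 }

end Pool.Agent.R468.MF
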