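import Pool.Agent.R468.MF.FinH

/-!
The most frequent values and the tuples with equal values: heights of odd integers, final form.
-/

set_option autoImplicit false

namespace Pool.Agent.R468.MF

open Filter Topology Finset
open Pool.Agent.R468.GL
open Pool.Agent.H499R2.ND (Dn Bas)
open Pool.Agent.R468.LL (lam lam_eq lam_pos lam_lt mu_lam)
open Pool.Agent.Y966.LD (IsHeight)

theorem freq_H : ∃ (δ : ℝ) (Ψ : ℝ → ℝ) (M : ℝ), 0 < δ ∧ δ ≤ 1 ∧ (δ = 1 ↔ ∀ n : ℕ, 1 ≤ n → Bas n) ∧ Dn Bas δ ∧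
    Continuous Ψ ∧ (∀ t, Ψ (t + 1) = Ψ t) ∧
    (∀ s, δ * Real.log 2 ≤ Ψ s ∧ Ψ s ≤ 2 * δ * Real.log 2) ∧
    (∫ t in (0 : ℝ)..1, Ψ t = δ) ∧ (∀ t, Ψ t ≤ M) ∧ (∃ t, Ψ t = M) ∧ δ ≤ M ∧
    (∀ K ε : ℝ, 0 < ε → ∃ X₀ : ℝ, ∀ x : ℝ, X₀ ≤ x → ∀ k : ℕ,
      |(k : ℝ) - 2 / Real.log (16 / 9) * Real.log x| ≤ K * Real.sqrt (Real.log x) →
      |({m : ℕ | m % 2 = 1 ∧ (m : ℝ) ≤ x ∧ IsHeight m k}.ncard : ℝ) /
        (x / 2 * (Real.exp (-(((k : ℝ) - 2 / Real.log (16 / 9) * Real.log x) ^ 2 /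
          (2 * (2 * Real.log 2 ^ 2 / Real.log (4 / 3) ^ 3 * Real.log x)))) /
          Real.sqrt (2 * Real.pi * (2 * Real.log 2 ^ 2 / Real.log (4 / 3) ^ 3 * Real.log x)))) -
        Ψ (Real.logb 2 (3 ^ k * x))| ≤ ε) ∧
    (∀ ε : ℝ, 0 < ε → ∃ X₀ : ℝ, ∀ x : ℝ, X₀ ≤ x →
      (∀ k : ℕ, ({m : ℕ | m % 2 = 1 ∧ (m : ℝ) ≤ x ∧ IsHeight m k}.ncard : ℝ) ≤
        (M + ε) * (x / 2) / Real.sqrt (2 * Real.pi * (2 * Real.log 2 ^ 2 / Real.log (4 / 3) ^ 3 * Real.log x))) ∧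
      (∃ k : ℕ, |(k : ℝ) - 2 / Real.log (16 / 9) * Real.log x| ≤ ε * Real.sqrt (Real.log x) ∧
        (M - ε) * (x / 2) / Real.sqrt (2 * Real.pi * (2 * Real.log 2 ^ 2 / Real.log (4 / 3) ^ 3 * Real.log x)) ≤
          ({m : ℕ | m % 2 = 1 ∧ (m : ℝ) ≤ x ∧ IsHeight m k}.ncard : ℝ)) ∧
      ∀ k : ℕ, (∀ i : ℕ, {m : ℕ | m % 2 = 1 ∧ (m : ℝ) ≤ x ∧ IsHeight m i}.ncard ≤
          {m : ℕ | m % 2 = 1 ∧ (m : ℝ) ≤ x ∧ IsHeight m k}.ncard) →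
        |(k : ℝ) - 2 / Real.log (16 / 9) * Real.log x| ≤ ε * Real.sqrt (Real.log x)) ∧
    (∀ r : ℕ, 1 ≤ r → Tendsto (fun x : ℝ =>
      ({w : Fin r → ℕ | (∀ i, w i % 2 = 1 ∧ (w i : ℝ) ≤ x) ∧ ∃ k : ℕ, ∀ i, IsHeight (w i) k}.ncard : ℝ) *
        (Real.sqrt (2 * Real.pi * (2 * Real.log 2 ^ 2 / Real.log (4 / 3) ^ 3 * Real.log x)) ^ (r - 1) /
          (x / 2) ^ r)) atTop
      (𝓝 (1 / Real.sqrt r * ∫ t in (0 : ℝ)..1, Ψ t ^ r))) := by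
  obtain ⟨δ, Ψ, h0, h1, h2, h3, h4, h5, L⟩ := law_H
  obtain ⟨_, _, _, _, _, L', _⟩ := main_all PO
  have hD : De (A0 PO / lam) NH := De_pert (NO_De L') NH_le
  obtain ⟨t₀, g1, g2, g3⟩ := mode_nat L h0 hD (fun x j hj => NH_neg x hj)
  obtain ⟨C, hC, hup⟩ := Pool.Agent.R468.LL.N_upper
  have hu : ∀ x : ℝ, 2 ≤ x → ∀ j : ℤ, NH x j ≤ (2 * C) * x / Real.sqrt (Real.log x) := by
    intro x hx j
    have hl : 0 < Real.log x := Real.log_pos (by linarith)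
    have hr := Real.sqrt_pos.2 hl
    rcases lt_or_ge j 0 with hj | hj
    · rw [NH_neg x hj]
      positivity
    · obtain ⟨k, rfl⟩ := Int.eq_ofNat_of_zero_le hj
      have e : NH x (Int.ofNat k) = NH x (k : ℤ) := rfl
      have h6 := NH_nat x k
      change NH x (k : ℤ) ≤ _
      rw [h6]
      have h7 := hup x hx k
      have e2 : 2 * C * x / Real.sqrt (Real.log x) = 2 * (C * x / Real.sqrt (Real.log x)) := by ring
      rw [e2]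
      exact mul_le_mul_of_nonneg_left h7 (by norm_num)
  have hmu : A0 PO / lam = 2 / Real.log (16 / 9) := by rw [mu_lam, A0_PO]
  have hsd : ∀ x, sd (2 * ww PO ^ 2 / lam ^ 3) x =
      Real.sqrt (2 * Real.pi * (2 * Real.log 2 ^ 2 / Real.log (4 / 3) ^ 3 * Real.log x)) := by
    intro x
    unfold sd
    rw [ww_PO]
    rfl
  refine ⟨δ, Ψ, Ψ t₀, h0, h1, h2, h3, L.cont, L.per, h4, L.psi_int, g1, ⟨t₀, rfl⟩, ?_, h5, ?_, ?_⟩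
  · rw [← L.psi_int]
    exact le_max_int L.cont g1
  · intro ε hε
    obtain ⟨X₀, _, hX⟩ := g3 ε hε
    refine ⟨X₀, fun x hx => ?_⟩
    obtain ⟨a1, ⟨k, a2, a3⟩, a4⟩ := hX x hx
    rw [hmu] at a2 a4
    rw [hsd] at a1 a3
    refine ⟨fun k => ?_, ⟨k, a2, ?_⟩, fun k hk => a4 k fun i => ?_⟩
    · have := a1 k
      rw [NH_nat] at this
      have e : (Ψ t₀ + ε) * (x / 2) / Real.sqrt (2 * Real.pi * (2 * Real.log 2 ^ 2 / Real.log (4 / 3) ^ 3 * Real.log x)) =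
        (Ψ t₀ + ε) * x / Real.sqrt (2 * Real.pi * (2 * Real.log 2 ^ 2 / Real.log (4 / 3) ^ 3 * Real.log x)) / 2 := by ring
      rw [e]
      linarith
    · rw [NH_nat] at a3
      have e : (Ψ t₀ - ε) * (x / 2) / Real.sqrt (2 * Real.pi * (2 * Real.log 2 ^ 2 / Real.log (4 / 3) ^ 3 * Real.log x)) =
        (Ψ t₀ - ε) * x / Real.sqrt (2 * Real.pi * (2 * Real.log 2 ^ 2 / Real.log (4 / 3) ^ 3 * Real.log x)) / 2 := by ring
      rw [e]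
      linarith
    · rw [NH_nat, NH_nat]
      have := hk i
      have h7 : ({m : ℕ | m % 2 = 1 ∧ (m : ℝ) ≤ x ∧ IsHeight m i}.ncard : ℝ) ≤
          {m : ℕ | m % 2 = 1 ∧ (m : ℝ) ≤ x ∧ IsHeight m k}.ncard := by exact_mod_cast this
      linarith
  · intro r hr
    have h6 := tup_nat L (show 0 < 2 * C by positivity) hu (S := SH) (X := fun x => {n : ℕ | (n : ℝ) ≤ x}) (c := 2)
      (fun x => fin_le x) SH_unique (fun x j => rfl) r hr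
    refine h6.congr fun x => ?_
    have e : {w : Fin r → ℕ | (∀ i, w i ∈ {n : ℕ | (n : ℝ) ≤ x}) ∧ ∃ j, ∀ i, w i ∈ SH j} =
        {w : Fin r → ℕ | (∀ i, w i % 2 = 1 ∧ (w i : ℝ) ≤ x) ∧ ∃ k : ℕ, ∀ i, IsHeight (w i) k} := by
      ext w
      rw [Set.mem_ofPred_eq, Set.mem_ofPred_eq]
      constructor
      · rintro ⟨b1, j, b2⟩
        obtain ⟨_, k, b3, _⟩ := b2 ⟨0, hr⟩
        refine ⟨fun i => ⟨(b2 i).1, b1 i⟩, k, fun i => ?_⟩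
        obtain ⟨_, k', b4, b5⟩ := b2 i
        have : k' = k := by omega
        rw [← this]
        exact b5
      · rintro ⟨b1, k, b2⟩
        exact ⟨fun i => (b1 i).2, k, fun i => ⟨(b1 i).1, k, rfl, b2 i⟩⟩
    rw [e, hsd, div_pow x 2 r, div_div_eq_mul_div]
    ring

end Pool.Agent.R468.MF
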