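import Pool.Agent.R468.MF.Fin2

/-!
The most frequent values and the tuples with equal values: the `3x+1` function and the Collatz function.
-/

set_option autoImplicit false

namespace Pool.Agent.R468.MF

open Filter Topology Finset
open Pool.Agent.R468.GL
open Pool.Agent.H499R2.LT (od Dn_iff)
open Pool.Agent.H499R2.ND (Td Dn cnt Tn CC Bas BasC)

theorem freq_T : ∃ (δ : ℝ) (Ψ : ℝ → ℝ) (M : ℝ), 0 < δ ∧ δ ≤ 1 ∧ (δ = 1 ↔ ∀ n : ℕ, 1 ≤ n → ∃ k : ℕ, Tn^[k] n = 1) ∧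
    Dn (fun n => ∃ k : ℕ, Tn^[k] n = 1) δ ∧
    Continuous Ψ ∧ (∀ t, Ψ (t + 1) = Ψ t) ∧
    (∀ t, δ * (Real.log 3 / 2) ≤ Ψ t ∧ Ψ t ≤ δ * (3 * Real.log 3 / 2)) ∧
    (∫ t in (0 : ℝ)..1, Ψ t = δ) ∧ (∀ t, Ψ t ≤ M) ∧ (∃ t, Ψ t = M) ∧ δ ≤ M ∧
    (∀ K ε : ℝ, 0 < ε → ∃ X₀ : ℝ, ∀ x : ℝ, X₀ ≤ x → ∀ k : ℕ,
      |(k : ℝ) - 2 / Real.log (4 / 3) * Real.log x| ≤ K * Real.sqrt (Real.log x) →
      |({n : ℕ | 1 ≤ n ∧ (n : ℝ) ≤ x ∧ (Tn^[k] n = 1 ∧ ∀ i < k, Tn^[i] n ≠ 1)}.ncard : ℝ) /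
        (x * (Real.exp (-(((k : ℝ) - 2 / Real.log (4 / 3) * Real.log x) ^ 2 /
          (2 * (2 * Real.log 3 ^ 2 / Real.log (4 / 3) ^ 3 * Real.log x)))) /
          Real.sqrt (2 * Real.pi * (2 * Real.log 3 ^ 2 / Real.log (4 / 3) ^ 3 * Real.log x)))) -
        Ψ (Real.logb 3 (x / 2 ^ k))| ≤ ε) ∧
    (∀ ε : ℝ, 0 < ε → ∃ X₀ : ℝ, ∀ x : ℝ, X₀ ≤ x →
      (∀ k : ℕ, ({n : ℕ | 1 ≤ n ∧ (n : ℝ) ≤ x ∧ (Tn^[k] n = 1 ∧ ∀ i < k, Tn^[i] n ≠ 1)}.ncard : ℝ) ≤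
        (M + ε) * x / Real.sqrt (2 * Real.pi * (2 * Real.log 3 ^ 2 / Real.log (4 / 3) ^ 3 * Real.log x))) ∧
      (∃ k : ℕ, |(k : ℝ) - 2 / Real.log (4 / 3) * Real.log x| ≤ ε * Real.sqrt (Real.log x) ∧
        (M - ε) * x / Real.sqrt (2 * Real.pi * (2 * Real.log 3 ^ 2 / Real.log (4 / 3) ^ 3 * Real.log x)) ≤
          ({n : ℕ | 1 ≤ n ∧ (n : ℝ) ≤ x ∧ (Tn^[k] n = 1 ∧ ∀ i < k, Tn^[i] n ≠ 1)}.ncard : ℝ)) ∧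
      ∀ k : ℕ, (∀ i : ℕ, {n : ℕ | 1 ≤ n ∧ (n : ℝ) ≤ x ∧ (Tn^[i] n = 1 ∧ ∀ j < i, Tn^[j] n ≠ 1)}.ncard ≤
          {n : ℕ | 1 ≤ n ∧ (n : ℝ) ≤ x ∧ (Tn^[k] n = 1 ∧ ∀ j < k, Tn^[j] n ≠ 1)}.ncard) →
        |(k : ℝ) - 2 / Real.log (4 / 3) * Real.log x| ≤ ε * Real.sqrt (Real.log x)) ∧
    (∀ r : ℕ, 1 ≤ r → Tendsto (fun x : ℝ =>
      ({w : Fin r → ℕ | (∀ i, 1 ≤ w i ∧ (w i : ℝ) ≤ x) ∧
        ∃ k : ℕ, ∀ i, (Tn^[k] (w i) = 1 ∧ ∀ j < k, Tn^[j] (w i) ≠ 1)}.ncard : ℝ) *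
        (Real.sqrt (2 * Real.pi * (2 * Real.log 3 ^ 2 / Real.log (4 / 3) ^ 3 * Real.log x)) ^ (r - 1) / x ^ r)) atTop
      (𝓝 (1 / Real.sqrt r * ∫ t in (0 : ℝ)..1, Ψ t ^ r))) := by
  obtain ⟨δ, Ψ, M, h0, h1, h2, h3, h4, h5, h6, h7, h8, h9, h10, h11⟩ := freq PT
    (fun n k => Tn^[k] n = 1 ∧ ∀ i < k, Tn^[i] n ≠ 1) lv_T
  obtain ⟨k0, k1, k2, k3⟩ := dens_one h1
  unfold gd at h9
  rw [A0_PT, ww_PT] at h9 h10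
  rw [ww_PT] at h11
  refine ⟨δ, Ψ, M, k0, k1, k2, k3, h2, h3, ?_, h5, h6, h7, h8, ?_, h10, h11⟩
  · intro t
    have := h4 t
    rw [ww_PT, qr_PT] at this
    have e1 : Real.log 3 * (1 / 3) / (1 - 1 / 3) = Real.log 3 / 2 := by ring
    have e2 : Real.log 3 / (1 - 1 / 3) = 3 * Real.log 3 / 2 := by ring
    rwa [e1, e2] at this
  · intro K ε hε
    obtain ⟨X₀, hX⟩ := h9 K ε hε
    refine ⟨max X₀ 2, fun x hx k hk => ?_⟩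
    have hx0 : 0 < x := by linarith [(le_max_right X₀ 2).trans hx]
    have h12 := hX x ((le_max_left _ _).trans hx) k hk
    have e2 : sv PT (x, (k : ℤ)) = Real.logb 3 (x / 2 ^ k) := by
      unfold sv Real.logb
      rw [ww_PT, kap_PT, Real.log_div hx0.ne' (by positivity), Real.log_pow]
      push_cast
      rfl
    rw [e2] at h12
    exact_mod_cast h12

theorem freq_C : ∃ (δ : ℝ) (Ψ : ℝ → ℝ) (M : ℝ), 0 < δ ∧ δ ≤ 1 ∧ (δ = 1 ↔ ∀ n : ℕ, 1 ≤ n → ∃ k : ℕ, CC^[k] n = 1) ∧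
    Dn (fun n => ∃ k : ℕ, CC^[k] n = 1) δ ∧
    Continuous Ψ ∧ (∀ t, Ψ (t + 1) = Ψ t) ∧
    (∀ t, δ * (Real.log 6 / 5) ≤ Ψ t ∧ Ψ t ≤ δ * (6 * Real.log 6 / 5)) ∧
    (∫ t in (0 : ℝ)..1, Ψ t = δ) ∧ (∀ t, Ψ t ≤ M) ∧ (∃ t, Ψ t = M) ∧ δ ≤ M ∧
    (∀ K ε : ℝ, 0 < ε → ∃ X₀ : ℝ, ∀ x : ℝ, X₀ ≤ x → ∀ k : ℕ,
      |(k : ℝ) - 3 / Real.log (4 / 3) * Real.log x| ≤ K * Real.sqrt (Real.log x) →
      |({n : ℕ | 1 ≤ n ∧ (n : ℝ) ≤ x ∧ (CC^[k] n = 1 ∧ ∀ i < k, CC^[i] n ≠ 1)}.ncard : ℝ) /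
        (x * (Real.exp (-(((k : ℝ) - 3 / Real.log (4 / 3) * Real.log x) ^ 2 /
          (2 * (2 * Real.log 6 ^ 2 / Real.log (4 / 3) ^ 3 * Real.log x)))) /
          Real.sqrt (2 * Real.pi * (2 * Real.log 6 ^ 2 / Real.log (4 / 3) ^ 3 * Real.log x)))) -
        Ψ (Real.logb 6 (x / 2 ^ k))| ≤ ε) ∧
    (∀ ε : ℝ, 0 < ε → ∃ X₀ : ℝ, ∀ x : ℝ, X₀ ≤ x →
      (∀ k : ℕ, ({n : ℕ | 1 ≤ n ∧ (n : ℝ) ≤ x ∧ (CC^[k] n = 1 ∧ ∀ i < k, CC^[i] n ≠ 1)}.ncard : ℝ) ≤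
        (M + ε) * x / Real.sqrt (2 * Real.pi * (2 * Real.log 6 ^ 2 / Real.log (4 / 3) ^ 3 * Real.log x))) ∧
      (∃ k : ℕ, |(k : ℝ) - 3 / Real.log (4 / 3) * Real.log x| ≤ ε * Real.sqrt (Real.log x) ∧
        (M - ε) * x / Real.sqrt (2 * Real.pi * (2 * Real.log 6 ^ 2 / Real.log (4 / 3) ^ 3 * Real.log x)) ≤
          ({n : ℕ | 1 ≤ n ∧ (n : ℝ) ≤ x ∧ (CC^[k] n = 1 ∧ ∀ i < k, CC^[i] n ≠ 1)}.ncard : ℝ)) ∧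
      ∀ k : ℕ, (∀ i : ℕ, {n : ℕ | 1 ≤ n ∧ (n : ℝ) ≤ x ∧ (CC^[i] n = 1 ∧ ∀ j < i, CC^[j] n ≠ 1)}.ncard ≤
          {n : ℕ | 1 ≤ n ∧ (n : ℝ) ≤ x ∧ (CC^[k] n = 1 ∧ ∀ j < k, CC^[j] n ≠ 1)}.ncard) →
        |(k : ℝ) - 3 / Real.log (4 / 3) * Real.log x| ≤ ε * Real.sqrt (Real.log x)) ∧
    (∀ r : ℕ, 1 ≤ r → Tendsto (fun x : ℝ =>
      ({w : Fin r → ℕ | (∀ i, 1 ≤ w i ∧ (w i : ℝ) ≤ x) ∧
        ∃ k : ℕ, ∀ i, (CC^[k] (w i) = 1 ∧ ∀ j < k, CC^[j] (w i) ≠ 1)}.ncard : ℝ) *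
        (Real.sqrt (2 * Real.pi * (2 * Real.log 6 ^ 2 / Real.log (4 / 3) ^ 3 * Real.log x)) ^ (r - 1) / x ^ r)) atTop
      (𝓝 (1 / Real.sqrt r * ∫ t in (0 : ℝ)..1, Ψ t ^ r))) := by
  obtain ⟨δ, Ψ, M, h0, h1, h2, h3, h4, h5, h6, h7, h8, h9, h10, h11⟩ := freq PC
    (fun n k => CC^[k] n = 1 ∧ ∀ i < k, CC^[i] n ≠ 1) lv_C
  obtain ⟨k0, k1, k2, k3⟩ := dens_one h1
  unfold gd at h9
  rw [A0_PC, ww_PC] at h9 h10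
  rw [ww_PC] at h11
  refine ⟨δ, Ψ, M, k0, k1, ?_, Dn_iff (fun n _ => BasC n) k3, h2, h3, ?_, h5, h6, h7, h8, ?_, h10, h11⟩
  · rw [k2]
    exact forall₂_congr fun n _ => BasC n
  · intro t
    have := h4 t
    rw [ww_PC, qr_PC] at this
    have e1 : Real.log 6 * (1 / 6) / (1 - 1 / 6) = Real.log 6 / 5 := by ring
    have e2 : Real.log 6 / (1 - 1 / 6) = 6 * Real.log 6 / 5 := by ring
    rwa [e1, e2] at this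
  · intro K ε hε
    obtain ⟨X₀, hX⟩ := h9 K ε hε
    refine ⟨max X₀ 2, fun x hx k hk => ?_⟩
    have hx0 : 0 < x := by linarith [(le_max_right X₀ 2).trans hx]
    have h12 := hX x ((le_max_left _ _).trans hx) k hk
    have e2 : sv PC (x, (k : ℤ)) = Real.logb 6 (x / 2 ^ k) := by
      unfold sv Real.logb
      rw [ww_PC, kap_PC, Real.log_div hx0.ne' (by positivity), Real.log_pow]
      push_cast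
      rfl
    rw [e2] at h12
    exact_mod_cast h12

end Pool.Agent.R468.MF
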