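import Pool.Agent.R468.MF.Fin

/-!
The most frequent values and the tuples with equal values: general statements.
-/

set_option autoImplicit false

namespace Pool.Agent.R468.MF

open Filter Topology Finset

variable {N : ℝ → ℤ → ℝ} {μ v α : ℝ} {θ : ℝ → ℝ} {Ψ : ℝ → ℝ} {δ : ℝ}

theorem mode_nat (L : Law N μ v α θ Ψ δ) (hδ : 0 < δ) (hD : De μ N) (hneg : ∀ x j, j < 0 → N x j = 0) :
    ∃ t₀ : ℝ, (∀ t, Ψ t ≤ Ψ t₀) ∧ 0 < Ψ t₀ ∧ ∀ ε : ℝ, 0 < ε → ∃ X₀ : ℝ, 2 ≤ X₀ ∧ ∀ x : ℝ, X₀ ≤ x →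
      (∀ k : ℕ, N x k ≤ (Ψ t₀ + ε) * x / sd v x) ∧
      (∃ k : ℕ, |(k : ℝ) - μ * Real.log x| ≤ ε * Real.sqrt (Real.log x) ∧ (Ψ t₀ - ε) * x / sd v x ≤ N x k) ∧
      ∀ k : ℕ, (∀ i : ℕ, N x i ≤ N x k) → |(k : ℝ) - μ * Real.log x| ≤ ε * Real.sqrt (Real.log x) := by
  obtain ⟨t₀, h1, h2, h3⟩ := mode L hδ (fun ε hε => by
    obtain ⟨K, _, X₀, hX0, h⟩ := hD ε hε
    exact ⟨K, X₀, hX0, h⟩)
  refine ⟨t₀, h1, h2, fun ε hε => ?_⟩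
  obtain ⟨X₀, hX0, h⟩ := h3 (min ε (Ψ t₀ / 2)) (by positivity)
  refine ⟨X₀, hX0, fun x hx => ?_⟩
  obtain ⟨g1, ⟨j, g2, g3⟩, g4⟩ := h x hx
  have hx0 : 0 < x := by linarith
  have hl : 0 < Real.log x := Real.log_pos (by linarith)
  have hs := sd_pos L.v_pos hl
  have m1 := min_le_left ε (Ψ t₀ / 2)
  have m2 := min_le_right ε (Ψ t₀ / 2)
  have hr := Real.sqrt_nonneg (Real.log x)
  refine ⟨fun k => ?_, ?_, fun k hk => ?_⟩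
  · refine (g1 k).trans ?_
    gcongr
  · have hj : 0 ≤ j := by
      by_contra hcon
      rw [hneg x j (by omega)] at g3
      have : 0 < (Ψ t₀ - min ε (Ψ t₀ / 2)) * x / sd v x := by
        have : 0 < Ψ t₀ - min ε (Ψ t₀ / 2) := by linarith
        positivity
      linarith
    obtain ⟨k, rfl⟩ := Int.eq_ofNat_of_zero_le hj
    refine ⟨k, ?_, ?_⟩
    · have g5 : |(k : ℝ) - μ * Real.log x| ≤ min ε (Ψ t₀ / 2) * Real.sqrt (Real.log x) := by exact_mod_cast g2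
      exact g5.trans (mul_le_mul_of_nonneg_right m1 hr)
    · refine le_trans ?_ g3
      gcongr
  · have g5 := g4 (k : ℤ) (fun i => by
      rcases lt_or_ge i 0 with hi | hi
      · rw [hneg x i hi]
        exact L.nonneg x _
      · obtain ⟨i', rfl⟩ := Int.eq_ofNat_of_zero_le hi
        exact hk i')
    have g6 : |(k : ℝ) - μ * Real.log x| ≤ min ε (Ψ t₀ / 2) * Real.sqrt (Real.log x) := by exact_mod_cast g5
    exact g6.trans (mul_le_mul_of_nonneg_right m1 hr)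

theorem tup_nat (L : Law N μ v α θ Ψ δ) {A : ℝ} (hA : 0 < A)
    (hu : ∀ x : ℝ, 2 ≤ x → ∀ j : ℤ, N x j ≤ A * x / Real.sqrt (Real.log x)) {S : ℤ → Set ℕ} {X : ℝ → Set ℕ} {c : ℝ}
    (hX : ∀ x, (X x).Finite) (hS : ∀ n j j', n ∈ S j → n ∈ S j' → j = j')
    (hN : ∀ x j, N x j = c * ({n : ℕ | n ∈ X x ∧ n ∈ S j}.ncard : ℝ)) (r : ℕ) (hr : 1 ≤ r) :
    Tendsto (fun x : ℝ => sd v x ^ (r - 1) / x ^ r *
      (c ^ r * ({w : Fin r → ℕ | (∀ i, w i ∈ X x) ∧ ∃ j, ∀ i, w i ∈ S j}.ncard : ℝ))) atTop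
      (𝓝 (1 / Real.sqrt r * ∫ t in (0 : ℝ)..1, Ψ t ^ r)) := by
  rw [Metric.tendsto_atTop]
  intro ε hε
  obtain ⟨X₀, _, h⟩ := powers L hA hu r hr (ε / 2) (by positivity)
  refine ⟨X₀, fun x hx => ?_⟩
  obtain ⟨J₀, hJ⟩ := h x hx
  obtain ⟨J, hJJ, hT⟩ := tuples hS (hX x) hr J₀
  have h1 := hJ J hJJ
  have h2 : ∑ j ∈ J, N x j ^ r = c ^ r * ({w : Fin r → ℕ | (∀ i, w i ∈ X x) ∧ ∃ j, ∀ i, w i ∈ S j}.ncard : ℝ) := by
    rw [hT, mul_sum]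
    exact sum_congr rfl fun j _ => by rw [hN, mul_pow]
  rw [h2] at h1
  rw [Real.dist_eq]
  linarith

end Pool.Agent.R468.MF
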