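import Pool.Agent.R468.MF.Irr

/-!
The local limit laws of the general theorem as instances of `Law`.
-/

set_option autoImplicit false

namespace Pool.Agent.R468.MF

open Filter Topology Finset
open Pool.Agent.R468.GL
open Pool.Agent.H499R2.LT (od Dn_iff)
open Pool.Agent.H499R2.ND (Td Dn cnt)
open Pool.Agent.R468.LL (lam lam_eq lam_pos lam_lt)

variable (P : Par)

theorem gd_gn (x : ℝ) (j : ℤ) : gd P x j = gn (A0 P / lam) (2 * ww P ^ 2 / lam ^ 3) x j := rfl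

/-- the density bounds the counts -/
theorem Dn_upper {Q : ℕ → Prop} {δ : ℝ} (h : Dn Q δ) (h0 : 0 ≤ δ) : ∀ ε : ℝ, 0 < ε → ∃ X₀ : ℝ, 2 ≤ X₀ ∧ ∀ x : ℝ, X₀ ≤ x →
    ({n : ℕ | (n : ℝ) ≤ x ∧ 1 ≤ n ∧ Q n}.ncard : ℝ) ≤ (δ + ε) * x := by
  intro ε hε
  obtain ⟨N₀, hN⟩ := eventually_atTop.1 (h.eventually_lt_const (show δ < δ + ε by linarith))
  refine ⟨max (N₀ + 1) 2, le_max_right _ _, fun x hx => ?_⟩
  have hx0 : 0 < x := by linarith [(le_max_right _ _).trans hx]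
  have hxN : (N₀ : ℝ) + 1 ≤ x := (le_max_left _ _).trans hx
  have h1 : N₀ ≤ ⌊x⌋₊ := Nat.le_floor (by linarith)
  have h2 : 1 ≤ ⌊x⌋₊ := Nat.le_floor (by push_cast; linarith [(Nat.cast_nonneg N₀ : (0 : ℝ) ≤ N₀)])
  have h3 := hN ⌊x⌋₊ h1
  have hf : (0 : ℝ) < (⌊x⌋₊ : ℕ) := by exact_mod_cast h2
  rw [div_lt_iff₀ hf] at h3
  have h4 := Nat.floor_le hx0.le
  have e : {n : ℕ | (n : ℝ) ≤ x ∧ 1 ≤ n ∧ Q n} = {n : ℕ | 1 ≤ n ∧ n ≤ ⌊x⌋₊ ∧ Q n} := by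
    ext n
    rw [Set.mem_ofPred_eq, Set.mem_ofPred_eq, Nat.le_floor_iff hx0.le]
    tauto
  rw [e]
  have h5 : ({n : ℕ | 1 ≤ n ∧ n ≤ ⌊x⌋₊ ∧ Q n}.ncard : ℝ) = cnt Q ⌊x⌋₊ := rfl
  rw [h5]
  nlinarith

theorem law_all {d : ℤ} (hd : Odd d) (hd3 : ¬ (3 : ℤ) ∣ d) {s : ℤ} (hs : s = 1 ∨ s = -1) (F : Finset ℤ) :
    ∃ (δ : ℝ) (Ψ : ℝ → ℝ), 0 ≤ δ ∧ ((∃ a ∈ F, 0 < s * a ∧ ¬ (3 : ℤ) ∣ a) → 0 < δ) ∧
    Dn (fun n : ℕ => ∃ k : ℕ, (Td d)^[k] (s * n) ∈ F) δ ∧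
    (∀ t, δ * (ww P * qr P / (1 - qr P)) ≤ Ψ t ∧ Ψ t ≤ δ * (ww P / (1 - qr P))) ∧
    Law (NA P d s F) (A0 P / lam) (2 * ww P ^ 2 / lam ^ 3) (kap P / ww P) (fun x => Real.log x / ww P) Ψ δ ∧
    (∀ K ε : ℝ, 0 < ε → ∃ X₀ : ℝ, 2 ≤ X₀ ∧ ∀ x : ℝ, X₀ ≤ x → ∀ j : ℤ,
      |(j : ℝ) - A0 P / lam * Real.log x| ≤ K * Real.sqrt (Real.log x) →
      |({n : ℕ | (n : ℝ) ≤ x ∧ n % 2 = 1 ∧ n ∈ Lv P d s F j}.ncard : ℝ) / (x / 2 * gd P x j) -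
        Ψ (sv P (x, j))| ≤ ε) := by
  have hw := ww_pos P
  have hlam := lam_pos
  have hq := oq_pos P
  have hq0 := qr_pos P
  obtain ⟨δ, Ψ, h0, h1, h2, h3, h4, h5, h6, h7, h8⟩ := main_side P hd hd3 hs F
  refine ⟨δ, Ψ, h0, h1, h2, h5, ?_, h8⟩
  have hmass := Dn_upper h2 h0
  exact
    { v_pos := by positivity
      irr := kw_irr P
      cont := h3
      per := h4
      psi_nonneg := fun t => (mul_nonneg h0 (by positivity)).trans (h5 t).1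
      psi_int := h6
      nonneg := fun x j => Nat.cast_nonneg _
      mass := by
        intro ε hε
        obtain ⟨X₀, hX0, hX⟩ := hmass ε hε
        exact ⟨X₀, hX0, fun x hx J => (NA_sum P d s F x J).trans (hX x hx)⟩
      loc := by
        intro K ε hε
        obtain ⟨X₀, hX0, hX⟩ := h7 K ε hε
        refine ⟨X₀, hX0, fun x hx j hj => ?_⟩
        have := hX x hx j hj
        have e : Real.log x / ww P - j * (kap P / ww P) = sv P (x, j) := by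
          unfold sv
          ring
        rw [e]
        exact this }

end Pool.Agent.R468.MF
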