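import Pool.Agent.R468.MF.Tup

/-!
Consequences of a local limit law with a periodic factor: the most frequent value.
-/

set_option autoImplicit false

namespace Pool.Agent.R468.MF

open Filter Topology

variable {N : ℝ → ℤ → ℝ} {μ v α : ℝ} {θ : ℝ → ℝ} {Ψ : ℝ → ℝ} {δ : ℝ}

/-- an interval of length `ε √(log x)` has a point where `Φ` is positive -/
theorem near {Φ : ℝ → ℝ} (hα : Irrational α) (hc : Continuous Φ) (hp : ∀ t, Φ (t + 1) = Φ t)
    (h0 : ∀ t, 0 ≤ Φ t) (hint : 0 < ∫ t in (0 : ℝ)..1, Φ t) : ∀ ε : ℝ, 0 < ε → ∃ X₀ : ℝ, 2 ≤ X₀ ∧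
    ∀ x : ℝ, X₀ ≤ x → ∀ θ : ℝ, ∃ j : ℤ, |(j : ℝ) - μ * Real.log x| ≤ ε * Real.sqrt (Real.log x) ∧
      0 < Φ (θ - j * α) := by
  intro ε hε
  obtain ⟨t₀, ht₀⟩ := per_bound hc hp
  set I : ℝ := ∫ t in (0 : ℝ)..1, Φ t with hI
  have hpi := Real.pi_pos
  set M : ℝ := Φ t₀ with hM
  have hM0 : 0 ≤ M := h0 t₀
  -- the choice of the width
  have hA : Tendsto (fun A : ℝ => Real.exp (-(Real.pi * A * ε ^ 2 / 2)) * (2 * Real.sqrt 2 * M)) atTop (𝓝 0) := by
    rw [← zero_mul (2 * Real.sqrt 2 * M)]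
    apply Tendsto.mul_const
    apply Real.tendsto_exp_neg_atTop_nhds_zero.comp
    have : Tendsto (fun A : ℝ => Real.pi * ε ^ 2 / 2 * A) atTop atTop := tendsto_id.const_mul_atTop (by positivity)
    refine this.congr fun A => ?_
    ring
  obtain ⟨A₁, hA₁⟩ := eventually_atTop.1 (hA.eventually_le_const (show (0 : ℝ) < I / 4 by positivity))
  set A : ℝ := max A₁ 1 with hAdef
  have hA0 : 0 < A := lt_max_of_lt_right one_pos
  obtain ⟨a₁, ha₁, h1⟩ := equi_real hα hc hp (I / 4) (by positivity)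
  obtain ⟨a₂, ha₂, h2⟩ := gauss_one 1 one_pos
  have hT : Tendsto (fun x : ℝ => A / Real.log x) atTop (𝓝 0) :=
    Tendsto.div_atTop tendsto_const_nhds Real.tendsto_log_atTop
  obtain ⟨X₁, hX₁⟩ := eventually_atTop.1 ((hT.eventually_lt_const ha₁).and (hT.eventually_lt_const ha₂))
  refine ⟨max X₁ 2, le_max_right _ _, fun x hx θ => ?_⟩
  have hx2 : 2 ≤ x := (le_max_right _ _).trans hx
  have hl : 0 < Real.log x := Real.log_pos (by linarith)
  obtain ⟨b1, b2⟩ := hX₁ x ((le_max_left _ _).trans hx)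
  set a : ℝ := A / Real.log x with ha
  have ha0 : 0 < a := by positivity
  obtain ⟨hs, h3⟩ := h1 a ha0 b1 (μ * Real.log x) θ
  have h4 := h2 (a / 2) (by positivity) (by linarith) (μ * Real.log x)
  by_contra hcon
  push Not at hcon
  have hzero : ∀ j : ℤ, |(j : ℝ) - μ * Real.log x| ≤ ε * Real.sqrt (Real.log x) → Φ (θ - j * α) = 0 := fun j hj =>
    le_antisymm (hcon j hj) (h0 _)
  have hsum := gauss_real_summable (a := a / 2) (by positivity) (μ * Real.log x)
  have h5 : ∀ j : ℤ, Real.exp (-(Real.pi * a * ((j : ℝ) - μ * Real.log x) ^ 2)) * Φ (θ - j * α) ≤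
      Real.exp (-(Real.pi * A * ε ^ 2 / 2)) * M * Real.exp (-(Real.pi * (a / 2) * ((j : ℝ) - μ * Real.log x) ^ 2)) := by
    intro j
    by_cases hj : |(j : ℝ) - μ * Real.log x| ≤ ε * Real.sqrt (Real.log x)
    · rw [hzero j hj, mul_zero]
      positivity
    · have h6 : ε ^ 2 * Real.log x ≤ ((j : ℝ) - μ * Real.log x) ^ 2 := by
        have h7 : (ε * Real.sqrt (Real.log x)) ^ 2 ≤ |(j : ℝ) - μ * Real.log x| ^ 2 :=
          pow_le_pow_left₀ (by positivity) (lt_of_not_ge hj).le 2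
        rwa [sq_abs, mul_pow, Real.sq_sqrt hl.le] at h7
      have h7 : Real.exp (-(Real.pi * a * ((j : ℝ) - μ * Real.log x) ^ 2)) ≤
          Real.exp (-(Real.pi * A * ε ^ 2 / 2)) * Real.exp (-(Real.pi * (a / 2) * ((j : ℝ) - μ * Real.log x) ^ 2)) := by
        rw [← Real.exp_add]
        apply Real.exp_le_exp.2
        have h8 : Real.pi * A * ε ^ 2 / 2 = Real.pi * (a / 2) * (ε ^ 2 * Real.log x) := by
          rw [ha]
          field_simp
        have h9 := mul_le_mul_of_nonneg_left h6 (show 0 ≤ Real.pi * (a / 2) by positivity)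
        rw [h8]
        linarith
      calc Real.exp (-(Real.pi * a * ((j : ℝ) - μ * Real.log x) ^ 2)) * Φ (θ - j * α) ≤
            (Real.exp (-(Real.pi * A * ε ^ 2 / 2)) * Real.exp (-(Real.pi * (a / 2) * ((j : ℝ) - μ * Real.log x) ^ 2))) * M :=
            mul_le_mul h7 (ht₀ _) (h0 _) (by positivity)
        _ = _ := by ring
  have h6 : ∑' j : ℤ, Real.exp (-(Real.pi * a * ((j : ℝ) - μ * Real.log x) ^ 2)) * Φ (θ - j * α) ≤
      Real.exp (-(Real.pi * A * ε ^ 2 / 2)) * M *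
        ∑' j : ℤ, Real.exp (-(Real.pi * (a / 2) * ((j : ℝ) - μ * Real.log x) ^ 2)) := by
    rw [← tsum_mul_left]
    exact hs.tsum_le_tsum h5 (hsum.mul_left _)
  have h7 : Real.sqrt a = Real.sqrt 2 * Real.sqrt (a / 2) := by
    rw [← Real.sqrt_mul (by norm_num)]
    congr 1
    ring
  have h8 : Real.sqrt (a / 2) * ∑' j : ℤ, Real.exp (-(Real.pi * (a / 2) * ((j : ℝ) - μ * Real.log x) ^ 2)) ≤ 2 := by
    linarith [(abs_le.1 h4).2]
  have h9 := hA₁ A (le_max_left _ _)
  have h10 : Real.sqrt a * ∑' j : ℤ, Real.exp (-(Real.pi * a * ((j : ℝ) - μ * Real.log x) ^ 2)) * Φ (θ - j * α) ≤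
      I / 4 := by
    calc Real.sqrt a * ∑' j : ℤ, Real.exp (-(Real.pi * a * ((j : ℝ) - μ * Real.log x) ^ 2)) * Φ (θ - j * α)
        ≤ Real.sqrt a * (Real.exp (-(Real.pi * A * ε ^ 2 / 2)) * M *
          ∑' j : ℤ, Real.exp (-(Real.pi * (a / 2) * ((j : ℝ) - μ * Real.log x) ^ 2))) :=
          mul_le_mul_of_nonneg_left h6 (Real.sqrt_nonneg _)
      _ = Real.exp (-(Real.pi * A * ε ^ 2 / 2)) * (Real.sqrt 2 * (Real.sqrt (a / 2) *
          ∑' j : ℤ, Real.exp (-(Real.pi * (a / 2) * ((j : ℝ) - μ * Real.log x) ^ 2))) * M) := by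
          rw [h7]; ring
      _ ≤ Real.exp (-(Real.pi * A * ε ^ 2 / 2)) * (Real.sqrt 2 * 2 * M) := by gcongr
      _ = Real.exp (-(Real.pi * A * ε ^ 2 / 2)) * (2 * Real.sqrt 2 * M) := by ring
      _ ≤ I / 4 := h9
  linarith [(abs_le.1 h3).1]

/-- THE MOST FREQUENT VALUE -/
theorem mode (L : Law N μ v α θ Ψ δ) (hδ : 0 < δ)
    (hdec : ∀ ε : ℝ, 0 < ε → ∃ K : ℝ, ∃ X₀ : ℝ, 2 ≤ X₀ ∧ ∀ x : ℝ, X₀ ≤ x → ∀ j : ℤ,
      K * Real.sqrt (Real.log x) < |(j : ℝ) - μ * Real.log x| → N x j ≤ ε * x / Real.sqrt (Real.log x)) :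
    ∃ t₀ : ℝ, (∀ t, Ψ t ≤ Ψ t₀) ∧ 0 < Ψ t₀ ∧ ∀ ε : ℝ, 0 < ε → ∃ X₀ : ℝ, 2 ≤ X₀ ∧ ∀ x : ℝ, X₀ ≤ x →
      (∀ j, N x j ≤ (Ψ t₀ + ε) * x / sd v x) ∧
      (∃ j : ℤ, |(j : ℝ) - μ * Real.log x| ≤ ε * Real.sqrt (Real.log x) ∧ (Ψ t₀ - ε) * x / sd v x ≤ N x j) ∧
      ∀ j : ℤ, (∀ i, N x i ≤ N x j) → |(j : ℝ) - μ * Real.log x| ≤ ε * Real.sqrt (Real.log x) := by
  have hv := L.v_pos
  obtain ⟨t₀, ht₀⟩ := per_bound L.cont L.per
  have hM : 0 < Ψ t₀ := by
    by_contra hcon
    push Not at hcon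
    have h0 : ∀ t, Ψ t = 0 := fun t => le_antisymm ((ht₀ t).trans hcon) (L.psi_nonneg t)
    have h1 := L.psi_int
    simp only [h0, intervalIntegral.integral_zero] at h1
    linarith
  set M := Ψ t₀ with hMdef
  set c0 : ℝ := Real.sqrt (2 * Real.pi * v) with hc0
  have hpi := Real.pi_pos
  have hc0p : 0 < c0 := Real.sqrt_pos.2 (by positivity)
  -- upper bounds, with a small error
  have hupp : ∀ ε : ℝ, 0 < ε → ∀ η : ℝ, 0 < η → ∃ X₀ : ℝ, 2 ≤ X₀ ∧ ∀ x : ℝ, X₀ ≤ x → ∀ j : ℤ,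
      N x j ≤ (M + ε) * x / sd v x ∧ (η * Real.sqrt (Real.log x) < |(j : ℝ) - μ * Real.log x| →
        N x j ≤ max (M / 2) ((M + ε) * Real.exp (-(η ^ 2 / (2 * v)))) * x / sd v x) := by
    intro ε hε η hη
    obtain ⟨K, X₁, hX1, h1⟩ := hdec (M / (2 * c0)) (by positivity)
    obtain ⟨X₂, hX2, h2⟩ := L.loc K ε hε
    refine ⟨max X₁ X₂, le_max_of_le_left hX1, fun x hx j => ?_⟩
    have hxx : 2 ≤ x := (hX1.trans (le_max_left _ _)).trans hx
    have hx0 : 0 < x := by linarith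
    have hl : 0 < Real.log x := Real.log_pos (by linarith)
    have hs := sd_pos hv hl
    have hsl : 0 < Real.sqrt (Real.log x) := Real.sqrt_pos.2 hl
    have hsd : sd v x = c0 * Real.sqrt (Real.log x) := by
      unfold sd
      rw [hc0, ← Real.sqrt_mul (by positivity)]
      congr 1
      ring
    rcases le_or_gt |(j : ℝ) - μ * Real.log x| (K * Real.sqrt (Real.log x)) with hj | hj
    · have b1 := (abs_le.1 (h2 x ((le_max_right _ _).trans hx) j hj)).2
      have b2 := gn_pos (μ := μ) hv hl j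
      have b3 : N x j / (x * gn μ v x j) ≤ M + ε := by linarith [ht₀ (θ x - j * α)]
      rw [div_le_iff₀ (by positivity)] at b3
      have b4 := gn_le (μ := μ) hv hl j
      constructor
      · refine b3.trans ?_
        calc (M + ε) * (x * gn μ v x j) ≤ (M + ε) * (x * (1 / sd v x)) := by gcongr
          _ = (M + ε) * x / sd v x := by ring
      · intro hj2
        refine b3.trans ?_
        have b5 : gn μ v x j ≤ Real.exp (-(η ^ 2 / (2 * v))) / sd v x := by
          unfold gn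
          apply div_le_div_of_nonneg_right _ hs.le
          apply Real.exp_le_exp.2
          apply neg_le_neg
          have b6 : (η * Real.sqrt (Real.log x)) ^ 2 ≤ |(j : ℝ) - μ * Real.log x| ^ 2 :=
            pow_le_pow_left₀ (by positivity) hj2.le 2
          rw [sq_abs, mul_pow, Real.sq_sqrt hl.le] at b6
          rw [div_le_div_iff₀ (by positivity) (by positivity)]
          nlinarith
        calc (M + ε) * (x * gn μ v x j) ≤ (M + ε) * (x * (Real.exp (-(η ^ 2 / (2 * v))) / sd v x)) := by gcongr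
          _ = (M + ε) * Real.exp (-(η ^ 2 / (2 * v))) * x / sd v x := by ring
          _ ≤ _ := by
            gcongr
            exact le_max_right _ _
    · have b1 := h1 x ((le_max_left _ _).trans hx) j hj
      have b2 : M / (2 * c0) * x / Real.sqrt (Real.log x) = M / 2 * x / sd v x := by
        rw [hsd]
        field_simp
      rw [b2] at b1
      constructor
      · refine b1.trans ?_
        gcongr
        linarith
      · intro _
        refine b1.trans ?_
        gcongr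
        exact le_max_left _ _
  -- lower bound near the centre
  have hlow : ∀ ε : ℝ, 0 < ε → ∀ η : ℝ, 0 < η → ∃ X₀ : ℝ, 2 ≤ X₀ ∧ ∀ x : ℝ, X₀ ≤ x → ∃ j : ℤ,
      |(j : ℝ) - μ * Real.log x| ≤ η * Real.sqrt (Real.log x) ∧ (M - ε) * x / sd v x ≤ N x j := by
    intro ε hε η hη
    -- the distance from the centre
    have hT : Tendsto (fun s : ℝ => (M - ε / 2) * Real.exp (-(s ^ 2 / (2 * v)))) (𝓝 0) (𝓝 (M - ε / 2)) := by
      have : Continuous fun s : ℝ => (M - ε / 2) * Real.exp (-(s ^ 2 / (2 * v))) := by fun_prop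
      have h := this.tendsto 0
      simpa using h
    obtain ⟨s0, hs0, hs0'⟩ := Metric.eventually_nhds_iff.1 (hT.eventually_const_lt (show M - ε < M - ε / 2 by linarith))
    set s : ℝ := min (s0 / 2) η with hs
    have hsp : 0 < s := by positivity
    let Φ : ℝ → ℝ := fun t => max (Ψ t - (M - ε / 4)) 0
    have hΦc : Continuous Φ := (L.cont.sub continuous_const).max continuous_const
    have hΦp : ∀ t, Φ (t + 1) = Φ t := fun t => by simp only [Φ, L.per]
    have hΦ0 : ∀ t, 0 ≤ Φ t := fun t => le_max_right _ _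
    have hint : 0 < ∫ t in (0 : ℝ)..1, Φ t := by
      have hper : Function.Periodic Φ 1 := hΦp
      have e1 : ∫ t in (0 : ℝ)..1, Φ t = ∫ t in (t₀ - 1 / 2 : ℝ)..(t₀ - 1 / 2 + 1), Φ t := by
        have := hper.intervalIntegral_add_eq 0 (t₀ - 1 / 2)
        rw [zero_add] at this
        exact this
      rw [e1]
      apply intervalIntegral.integral_pos (by linarith) hΦc.continuousOn (fun t _ => hΦ0 t)
      refine ⟨t₀, ⟨by linarith, by linarith⟩, ?_⟩
      change 0 < max (Ψ t₀ - (M - ε / 4)) 0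
      apply lt_max_of_lt_left
      rw [← hMdef]
      linarith
    obtain ⟨X₁, hX1, h1⟩ := near (μ := μ) L.irr hΦc hΦp hΦ0 hint s hsp
    obtain ⟨X₂, hX2, h2⟩ := L.loc s (ε / 4) (by positivity)
    refine ⟨max X₁ X₂, le_max_of_le_left hX1, fun x hx => ?_⟩
    have hxx : 2 ≤ x := (hX1.trans (le_max_left _ _)).trans hx
    have hx0 : 0 < x := by linarith
    have hl : 0 < Real.log x := Real.log_pos (by linarith)
    have hss := sd_pos hv hl
    obtain ⟨j, hj1, hj2⟩ := h1 x ((le_max_left _ _).trans hx) (θ x)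
    refine ⟨j, hj1.trans (mul_le_mul_of_nonneg_right (min_le_right _ _) (Real.sqrt_nonneg _)), ?_⟩
    have hj3 : M - ε / 4 < Ψ (θ x - j * α) := by
      rcases lt_max_iff.1 hj2 with h | h
      · linarith
      · exact absurd h (lt_irrefl _)
    have b1 := (abs_le.1 (h2 x ((le_max_right _ _).trans hx) j hj1)).1
    have b2 := gn_pos (μ := μ) hv hl j
    have b3 : M - ε / 2 ≤ N x j / (x * gn μ v x j) := by linarith
    rcases le_or_gt (M - ε) 0 with hneg | hpos
    · refine le_trans ?_ (L.nonneg x j)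
      apply div_nonpos_of_nonpos_of_nonneg _ hss.le
      exact mul_nonpos_of_nonpos_of_nonneg hneg hx0.le
    rw [le_div_iff₀ (by positivity)] at b3
    refine le_trans ?_ b3
    have b5 : Real.exp (-(s ^ 2 / (2 * v))) / sd v x ≤ gn μ v x j := by
      unfold gn
      apply div_le_div_of_nonneg_right _ hss.le
      apply Real.exp_le_exp.2
      apply neg_le_neg
      have b6 : |(j : ℝ) - μ * Real.log x| ^ 2 ≤ (s * Real.sqrt (Real.log x)) ^ 2 :=
        pow_le_pow_left₀ (abs_nonneg _) hj1 2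
      rw [sq_abs, mul_pow, Real.sq_sqrt hl.le] at b6
      rw [div_le_div_iff₀ (by positivity) (by positivity)]
      nlinarith
    have b7 := hs0' (y := s) (by
      rw [Real.dist_eq, sub_zero, abs_of_pos hsp]
      have := min_le_left (s0 / 2) η
      linarith)
    calc (M - ε) * x / sd v x ≤ (M - ε / 2) * Real.exp (-(s ^ 2 / (2 * v))) * x / sd v x := by gcongr
      _ = (M - ε / 2) * (x * (Real.exp (-(s ^ 2 / (2 * v))) / sd v x)) := by ring
      _ ≤ (M - ε / 2) * (x * gn μ v x j) := by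
        apply mul_le_mul_of_nonneg_left _ (by linarith)
        exact mul_le_mul_of_nonneg_left b5 hx0.le
  refine ⟨t₀, ht₀, hM, fun ε hε => ?_⟩
  -- the small parameter for the location of the maximum
  set E : ℝ := Real.exp (-(ε ^ 2 / (2 * v))) with hE
  have hE1 : E < 1 := by
    rw [hE, Real.exp_lt_one_iff, neg_lt_zero]
    positivity
  have hE0 : 0 < E := Real.exp_pos _
  set ρ : ℝ := min ε (min (M / 4) (M * (1 - E) / 4)) with hρ
  have hρ0 : 0 < ρ := by
    have : 0 < 1 - E := by linarith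
    positivity
  have hρ1 : ρ ≤ ε := min_le_left _ _
  have hρ2 : ρ ≤ M / 4 := (min_le_right _ _).trans (min_le_left _ _)
  have hρ3 : ρ ≤ M * (1 - E) / 4 := (min_le_right _ _).trans (min_le_right _ _)
  obtain ⟨X₁, hX1, h1⟩ := hupp ρ hρ0 ε hε
  obtain ⟨X₂, hX2, h2⟩ := hlow ρ hρ0 ε hε
  refine ⟨max X₁ X₂, le_max_of_le_left hX1, fun x hx => ?_⟩
  have hxx : 2 ≤ x := (hX1.trans (le_max_left _ _)).trans hx
  have hx0 : 0 < x := by linarith
  have hl : 0 < Real.log x := Real.log_pos (by linarith)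
  have hss := sd_pos hv hl
  obtain ⟨j₀, hj0, hj0'⟩ := h2 x ((le_max_right _ _).trans hx)
  refine ⟨fun j => ?_, ⟨j₀, hj0, ?_⟩, fun j hj => ?_⟩
  · refine (h1 x ((le_max_left _ _).trans hx) j).1.trans ?_
    gcongr
  · refine le_trans ?_ hj0'
    gcongr
  · by_contra hcon
    push Not at hcon
    have b1 := (h1 x ((le_max_left _ _).trans hx) j).2 hcon
    have b2 := hj0'.trans (hj j₀)
    have b3 : max (M / 2) ((M + ρ) * E) < M - ρ := by
      apply max_lt
      · linarith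
      · nlinarith
    have b4 : max (M / 2) ((M + ρ) * E) * x / sd v x < (M - ρ) * x / sd v x := by gcongr
    linarith

end Pool.Agent.R468.MF
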