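import Pool.Agent.R468.GL.Inst
import Pool.Agent.R468.MF.Mode

/-!
The local limit laws of the general theorem as instances of `Law`.
-/

set_option autoImplicit false

namespace Pool.Agent.R468.MF

open Filter Topology Finset
open Pool.Agent.R468.GL
open Pool.Agent.H499R2.LT (od Dn_iff)
open Pool.Agent.H499R2.ND (Td Dn)
open Pool.Agent.R468.LL (lam lam_eq lam_pos lam_lt)

theorem indep {a b : ℤ} (h : (a : ℝ) * Real.log 2 = b * Real.log 3) : a = 0 ∧ b = 0 := by
  have h2 : 0 < Real.log 2 := Real.log_pos (by norm_num)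
  have h3 : 0 < Real.log 3 := Real.log_pos (by norm_num)
  have key : ∀ m n : ℕ, (m : ℝ) * Real.log 2 = n * Real.log 3 → m = 0 ∧ n = 0 := by
    intro m n hmn
    rw [← Real.log_pow, ← Real.log_pow] at hmn
    have e : (2 : ℝ) ^ m = 3 ^ n := Real.log_injOn_pos (Set.mem_Ioi.2 (by positivity)) (Set.mem_Ioi.2 (by positivity)) hmn
    have e2 : 2 ^ m = 3 ^ n := by exact_mod_cast e
    have hm : m = 0 := by
      by_contra hm
      have h4 : 2 ∣ 3 ^ n := e2 ▸ dvd_pow_self 2 hm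
      have := Nat.Prime.dvd_of_dvd_pow Nat.prime_two h4
      omega
    subst hm
    refine ⟨rfl, ?_⟩
    by_contra hn
    have h4 : 3 ∣ 3 ^ n := dvd_pow_self 3 hn
    rw [← e2] at h4
    omega
  rcases le_or_gt 0 a with ha | ha
  · have hb : 0 ≤ b := by
      have : (0 : ℝ) ≤ b * Real.log 3 := by rw [← h]; exact mul_nonneg (by exact_mod_cast ha) h2.le
      have : (0 : ℝ) ≤ b := nonneg_of_mul_nonneg_left this h3
      exact_mod_cast this
    obtain ⟨m, rfl⟩ := Int.eq_ofNat_of_zero_le ha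
    obtain ⟨n, rfl⟩ := Int.eq_ofNat_of_zero_le hb
    obtain ⟨r1, r2⟩ := key m n (by exact_mod_cast h)
    omega
  · have hb : b < 0 := by
      have h4 : (b : ℝ) * Real.log 3 < 0 := by
        rw [← h]; exact mul_neg_of_neg_of_pos (by exact_mod_cast ha) h2
      have : (b : ℝ) < 0 := by
        by_contra hcon
        push Not at hcon
        have := mul_nonneg hcon h3.le
        linarith
      exact_mod_cast this
    obtain ⟨m, hm⟩ := Int.eq_ofNat_of_zero_le (show 0 ≤ -a by omega)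
    obtain ⟨n, hn⟩ := Int.eq_ofNat_of_zero_le (show 0 ≤ -b by omega)
    have hmR : (m : ℝ) = -a := by exact_mod_cast hm.symm
    have hnR : (n : ℝ) = -b := by exact_mod_cast hn.symm
    obtain ⟨r1, r2⟩ := key m n (by rw [hmR, hnR]; linarith)
    omega

theorem kw_irr (P : Par) : Irrational (kap P / ww P) := by
  rintro ⟨q, hq⟩
  have hw := ww_pos P
  have hd : (0 : ℝ) < q.den := by exact_mod_cast q.den_pos
  have e1 : (q : ℝ) = q.num / q.den := by exact_mod_cast (Rat.num_div_den q).symm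
  rw [e1, div_eq_div_iff hd.ne' hw.ne'] at hq
  unfold kap ww at hq
  have e2 : ((q.den * P.k1 - q.num * P.α : ℤ) : ℝ) * Real.log 2 = ((q.den * P.o1 + q.num * P.β : ℤ) : ℝ) * Real.log 3 := by
    push_cast
    linarith
  obtain ⟨r1, r2⟩ := indep e2
  have h := P.bez
  have h3 : (q.den : ℤ) = 0 := by
    calc (q.den : ℤ) = q.den * ((P.α : ℤ) * P.o1 + P.β * P.k1) := by rw [h, mul_one]
      _ = P.α * (q.den * P.o1 + q.num * P.β) + P.β * (q.den * P.k1 - q.num * P.α) := by ring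
      _ = 0 := by rw [r1, r2]; ring
  have := q.den_pos
  omega

variable (P : Par)

/-- the counts up to `x` -/
noncomputable def NA (d s : ℤ) (F : Finset ℤ) (x : ℝ) (j : ℤ) : ℝ :=
  ({n : ℕ | (n : ℝ) ≤ x ∧ n ∈ Lv P d s F j}.ncard : ℝ)

theorem Lv_unique {d s : ℤ} {F : Finset ℤ} {j j' : ℤ} {n : ℕ} (h : n ∈ Lv P d s F j) (h' : n ∈ Lv P d s F j') :
    j = j' := by
  obtain ⟨_, k, ⟨h1, h2⟩, h3⟩ := h
  obtain ⟨_, k', ⟨h1', h2'⟩, h3'⟩ := h'
  have : k = k' := by
    rcases lt_trichotomy k k' with h | h | h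
    · exact absurd h1 (h2' k h)
    · exact h
    · exact absurd h1' (h2 k' h)
  subst this
  rw [← h3, ← h3']

theorem fin_le (x : ℝ) : {n : ℕ | (n : ℝ) ≤ x}.Finite := by
  refine (Set.finite_Iic ⌈x⌉₊).subset ?_
  intro n hn
  rw [Set.mem_Iic]
  have h : (n : ℝ) ≤ x := hn
  have : (n : ℝ) ≤ ⌈x⌉₊ := h.trans (Nat.le_ceil x)
  exact_mod_cast this

/-- sums of the counts -/
theorem NA_sum (d s : ℤ) (F : Finset ℤ) (x : ℝ) (J : Finset ℤ) :
    ∑ j ∈ J, NA P d s F x j ≤ ({n : ℕ | (n : ℝ) ≤ x ∧ 1 ≤ n ∧ ∃ k : ℕ, (Td d)^[k] (s * n) ∈ F}.ncard : ℝ) := by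
  classical
  have hfin : ∀ S : Set ℕ, ({n : ℕ | (n : ℝ) ≤ x ∧ n ∈ S}).Finite := fun S => (fin_le x).subset fun n hn => hn.1
  have key : ∑ j ∈ J, {n : ℕ | (n : ℝ) ≤ x ∧ n ∈ Lv P d s F j}.ncard ≤
      {n : ℕ | (n : ℝ) ≤ x ∧ 1 ≤ n ∧ ∃ k : ℕ, (Td d)^[k] (s * n) ∈ F}.ncard := by
    have e : ∀ j ∈ J, {n : ℕ | (n : ℝ) ≤ x ∧ n ∈ Lv P d s F j}.ncard = ((hfin (Lv P d s F j)).toFinset).card :=
      fun j _ => Set.ncard_eq_toFinset_card _ (hfin _)
    rw [sum_congr rfl e, ← card_biUnion]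
    · rw [← Set.ncard_coe_finset]
      apply Set.ncard_le_ncard
      · intro n hn
        rw [mem_coe, mem_biUnion] at hn
        obtain ⟨j, _, hn⟩ := hn
        rw [Set.Finite.mem_toFinset] at hn
        obtain ⟨h1, h2, k, ⟨h3, _⟩, _⟩ := hn
        exact ⟨h1, h2, k, h3⟩
      · exact (fin_le x).subset fun n hn => hn.1
    · intro j _ j' _ hne
      rw [Function.onFun, Finset.disjoint_left]
      intro n hn hn'
      rw [Set.Finite.mem_toFinset] at hn hn'
      exact hne (Lv_unique P hn.2 hn'.2)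
  unfold NA
  exact_mod_cast key

end Pool.Agent.R468.MF
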