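import Pool.Agent.R468.MF.Inst
import Pool.Agent.TH977.LL.All
import Pool.Agent.TH977.LL.Main

/-!
The level sets of the statistic and the level sets of the Syracuse map, and the typical values.
-/

set_option autoImplicit false

namespace Pool.Agent.R468.MF

open Filter Topology Finset
open Pool.Agent.R468.GL
open Pool.Agent.H499R2.LT (od Dn_iff odn od_nat)
open Pool.Agent.H499R2.ND (Td Dn cnt Tn mem_cls cls)
open Pool.Agent.R468.LL (lam lam_eq lam_pos lam_lt)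
open Pool.Agent.TH977.LL (HS H2 HS_unique We ef ef_spec odd_iff_H2)
open Pool.Agent.H320R2.PD Pool.Agent.TH977.IP
open Pool.Agent.H499R2.HL (H)

variable (P : Par)

theorem Lv_HS {n : ℕ} (hn : Odd n) (j : ℤ) : n ∈ Lv P 1 1 {1} j ↔ (n : ℤ) ∈ HS P.α P.β j := by
  have hn1 : 1 ≤ n := hn.pos
  have hH : ∀ k : ℕ, ((Td 1)^[k] (1 * (n : ℤ)) ∈ ({1} : Finset ℤ) ∧ ∀ i < k, (Td 1)^[i] (1 * (n : ℤ)) ∉ ({1} : Finset ℤ)) ↔
      H k n := by
    intro k
    unfold H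
    simp only [iff_one]
  constructor
  · rintro ⟨_, k, h1, h2⟩
    rw [hH] at h1
    rw [one_mul, od_nat] at h2
    obtain ⟨⟨K, a1, a2, a3⟩, ⟨K', b1, b2, b3⟩⟩ := (odd_iff_H2 hn k (odn k n)).1 ⟨h1, rfl⟩
    have : K = K' := by
      rcases lt_trichotomy K K' with h | h | h
      · exact absurd a1 (b2 K h)
      · exact h
      · exact absurd b1 (a2 K' h)
    subst this
    refine ⟨K, a1, a2, ?_⟩
    push_cast at a3 b3
    have a4 : (K : ℤ) = odn k n := by linarith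
    have b4 : ((Pool.Agent.TH977.LL.es (n : ℤ) K : ℕ) : ℤ) = k := by linarith
    rw [a4, b4]
    exact h2
  · rintro ⟨K, a1, a2, a3⟩
    have h1 : (n : ℤ) ∈ H2 ((K : ℤ), ((Pool.Agent.TH977.LL.es (n : ℤ) K : ℕ) : ℤ) - K) := by
      refine ⟨⟨K, a1, a2, by push_cast; ring⟩, ⟨K, a1, a2, ?_⟩⟩
      simp only
      push_cast
      ring
    obtain ⟨h2, h3⟩ := (odd_iff_H2 hn _ K).2 h1
    refine ⟨hn1, Pool.Agent.TH977.LL.es (n : ℤ) K, (hH _).2 h2, ?_⟩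
    rw [one_mul, od_nat, h3]
    exact a3

open scoped Classical in
/-- few atypical elements -/
theorem atyp {Ψ : ℝ → ℝ} {δ : ℝ} (L : Law (NA P 1 1 {1}) (A0 P / lam) (2 * ww P ^ 2 / lam ^ 3) (kap P / ww P)
    (fun x => Real.log x / ww P) Ψ δ) : ∀ ε : ℝ, 0 < ε → ∃ K : ℝ, 0 < K ∧ ∃ e₀ : ℕ, ∀ e : ℕ, e₀ ≤ e → ∀ I : Finset ℤ,
      (∀ i ∈ I, K * Real.sqrt (Real.log (2 ^ (e + 2))) < |(i : ℝ) - A0 P / lam * Real.log (2 ^ (e + 2))|) →
      ∑ i ∈ I, (((We e).filter fun x => x ∈ HS P.α P.β i).card : ℝ) ≤ ε * 2 ^ e := by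
  intro ε hε
  obtain ⟨K, hK, X₀, hX0, hX⟩ := mass_out L (ε / 4) (by positivity)
  obtain ⟨e₀, he₀⟩ := eventually_atTop.1 ((tendsto_pow_atTop_atTop_of_one_lt (by norm_num : (1 : ℝ) < 2)).eventually_ge_atTop X₀)
  refine ⟨K, hK, e₀, fun e he I hI => ?_⟩
  have h1 := hX (2 ^ (e + 2)) (he₀ (e + 2) (by omega)) I hI
  have h2 : ∀ i ∈ I, (((We e).filter fun x => x ∈ HS P.α P.β i).card : ℝ) ≤ NA P 1 1 {1} (2 ^ (e + 2)) i := by
    intro i _
    unfold NA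
    rw [← Set.ncard_coe_finset]
    have h3 : (((We e).filter fun x => x ∈ HS P.α P.β i : Finset ℤ) : Set ℤ) ⊆
        (fun n : ℕ => (n : ℤ)) '' {n : ℕ | (n : ℝ) ≤ 2 ^ (e + 2) ∧ n ∈ Lv P 1 1 {1} i} := by
      intro x hx
      rw [mem_coe, mem_filter] at hx
      obtain ⟨hx1, hx2⟩ := hx
      unfold We at hx1
      rw [mem_cls] at hx1
      obtain ⟨⟨g1, g2⟩, g3, _, _⟩ := hx1
      have h0 : (0 : ℤ) ≤ x := by
        have h4 : (0 : ℝ) ≤ x := le_trans (by positivity) g1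
        exact_mod_cast h4
      obtain ⟨n, rfl⟩ := Int.eq_ofNat_of_zero_le h0
      have hn : Odd n := by exact_mod_cast g3
      refine ⟨n, ⟨?_, (Lv_HS P hn i).2 hx2⟩, rfl⟩
      have h5 : (2 : ℝ) ^ (e + 2) = 4 * 2 ^ e := by ring
      rw [h5]
      exact_mod_cast g2.le
    have h4 := Set.ncard_le_ncard h3 (((fin_le (2 ^ (e + 2))).subset fun n hn => hn.1).image _)
    rw [Set.ncard_image_of_injective _ (Nat.cast_injective (R := ℤ))] at h4
    exact_mod_cast h4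
  refine (sum_le_sum h2).trans (h1.trans (le_of_eq ?_))
  ring

end Pool.Agent.R468.MF
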