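import Pool.Agent.R468.MF.Abs

/-!
Consequences of a local limit law with a periodic factor: the sums of the powers of the counts.
-/

set_option autoImplicit false

namespace Pool.Agent.R468.MF

open Filter Topology

/-- A local limit law with a periodic factor: counts `N x j`, mean `μ log x`, variance `v log x`. -/
structure Law (N : ℝ → ℤ → ℝ) (μ v α : ℝ) (θ : ℝ → ℝ) (Ψ : ℝ → ℝ) (δ : ℝ) : Prop where
  v_pos : 0 < v
  irr : Irrational α
  cont : Continuous Ψ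
  per : ∀ t, Ψ (t + 1) = Ψ t
  psi_nonneg : ∀ t, 0 ≤ Ψ t
  psi_int : ∫ t in (0 : ℝ)..1, Ψ t = δ
  nonneg : ∀ x j, 0 ≤ N x j
  mass : ∀ ε : ℝ, 0 < ε → ∃ X₀ : ℝ, 2 ≤ X₀ ∧ ∀ x : ℝ, X₀ ≤ x → ∀ J : Finset ℤ, ∑ j ∈ J, N x j ≤ (δ + ε) * x
  loc : ∀ K ε : ℝ, 0 < ε → ∃ X₀ : ℝ, 2 ≤ X₀ ∧ ∀ x : ℝ, X₀ ≤ x → ∀ j : ℤ,
    |(j : ℝ) - μ * Real.log x| ≤ K * Real.sqrt (Real.log x) →
    |N x j / (x * gn μ v x j) - Ψ (θ x - j * α)| ≤ ε

/-- a bound for a continuous periodic function -/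
theorem per_bound {Ψ : ℝ → ℝ} (hc : Continuous Ψ) (hp : ∀ t, Ψ (t + 1) = Ψ t) :
    ∃ t₀ : ℝ, ∀ t, Ψ t ≤ Ψ t₀ := by
  obtain ⟨t₀, _, h⟩ := isCompact_Icc.exists_isMaxOn (Set.nonempty_Icc.2 zero_le_one) hc.continuousOn
  refine ⟨t₀, fun t => ?_⟩
  have hper : Function.Periodic Ψ 1 := hp
  have h1 : Ψ t = Ψ (Int.fract t) := by
    have h2 := hper.sub_zsmul_eq (x := t) ⌊t⌋
    rw [zsmul_one] at h2
    unfold Int.fract
    exact h2.symm
  rw [h1]
  exact h ⟨Int.fract_nonneg t, (Int.fract_lt_one t).le⟩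

variable {N : ℝ → ℤ → ℝ} {μ v α : ℝ} {θ : ℝ → ℝ} {Ψ : ℝ → ℝ} {δ : ℝ}

/-- the window -/
noncomputable def win (μ K x : ℝ) : Finset ℤ :=
  Finset.Icc ⌈μ * Real.log x - K * Real.sqrt (Real.log x)⌉ ⌊μ * Real.log x + K * Real.sqrt (Real.log x)⌋

theorem mem_win {K x : ℝ} {j : ℤ} : j ∈ win μ K x ↔ |(j : ℝ) - μ * Real.log x| ≤ K * Real.sqrt (Real.log x) := by
  unfold win
  rw [Finset.mem_Icc, Int.ceil_le, Int.le_floor, abs_le]
  constructor
  · rintro ⟨h1, h2⟩; constructor <;> linarith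
  · rintro ⟨h1, h2⟩; constructor <;> linarith

/-- the window has nearly the full sum -/
theorem win_sum {Φ : ℝ → ℝ} (hα : Irrational α) (hc : Continuous Φ) (hp : ∀ t, Φ (t + 1) = Φ t)
    (h0 : ∀ t, 0 ≤ Φ t) (hv : 0 < v) (r : ℕ) (hr : 1 ≤ r) : ∀ ε : ℝ, 0 < ε → ∃ K : ℝ, 0 < K ∧
    ∃ X₀ : ℝ, 2 ≤ X₀ ∧ ∀ x : ℝ, X₀ ≤ x → ∀ K' : ℝ, K ≤ K' → ∀ θ : ℝ,
      |∑ j ∈ win μ K' x, sd v x ^ (r - 1) * gn μ v x j ^ r * Φ (θ - j * α) -
        1 / Real.sqrt r * ∫ t in (0 : ℝ)..1, Φ t| ≤ ε := by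
  intro ε hε
  obtain ⟨t₀, ht₀⟩ := per_bound hc hp
  have hM : 0 ≤ Φ t₀ := h0 _
  obtain ⟨K₀, hK, X₁, _, h1⟩ := tail_sum (μ := μ) hv r hr (ε / (2 * (Φ t₀ + 1))) (by positivity)
  obtain ⟨X₂, hX2, h2⟩ := full_sum hα hc hp (μ := μ) hv r hr (ε / 2) (by positivity)
  refine ⟨K₀, hK, max X₁ X₂, le_max_of_le_right hX2, fun x hx K hKK θ => ?_⟩
  obtain ⟨hs, hf⟩ := h2 x ((le_max_right _ _).trans hx) θ
  have hx2 : 2 ≤ x := hX2.trans ((le_max_right _ _).trans hx)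
  have hl : 0 < Real.log x := Real.log_pos (by linarith)
  set w : ℤ → ℝ := fun j => sd v x ^ (r - 1) * gn μ v x j ^ r with hw
  have hw0 : ∀ j, 0 ≤ w j := fun j =>
    mul_nonneg (pow_nonneg (sd_pos hv hl).le _) (pow_nonneg (gn_pos hv hl j).le _)
  have hup : ∑ j ∈ win μ K x, w j * Φ (θ - j * α) ≤ ∑' j : ℤ, w j * Φ (θ - j * α) :=
    hs.sum_le_tsum _ (fun j _ => mul_nonneg (hw0 j) (h0 _))
  have hlow : ∑' j : ℤ, w j * Φ (θ - j * α) ≤ ∑ j ∈ win μ K x, w j * Φ (θ - j * α) + ε / 2 := by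
    refine hs.tsum_le_of_sum_le fun J => ?_
    have h3 : ∑ j ∈ J, w j * Φ (θ - j * α) ≤
        ∑ j ∈ win μ K x, w j * Φ (θ - j * α) + ∑ j ∈ J \ win μ K x, w j * Φ (θ - j * α) := by
      rw [← Finset.sum_union Finset.disjoint_sdiff]
      exact Finset.sum_le_sum_of_subset_of_nonneg (by
        intro j hj
        rw [Finset.mem_union, Finset.mem_sdiff]
        by_cases h : j ∈ win μ K x
        · exact Or.inl h
        · exact Or.inr ⟨hj, h⟩) (fun j _ _ => mul_nonneg (hw0 j) (h0 _))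
    have h4 := h1 x ((le_max_left _ _).trans hx) (J \ win μ K x) (fun j hj => by
      have := (Finset.mem_sdiff.1 hj).2
      rw [mem_win] at this
      exact lt_of_le_of_lt (mul_le_mul_of_nonneg_right hKK (Real.sqrt_nonneg _)) (lt_of_not_ge this))
    have h5 : ∑ j ∈ J \ win μ K x, w j * Φ (θ - j * α) ≤ ε / 2 := by
      calc ∑ j ∈ J \ win μ K x, w j * Φ (θ - j * α) ≤ ∑ j ∈ J \ win μ K x, w j * (Φ t₀ + 1) :=
            Finset.sum_le_sum fun j _ => mul_le_mul_of_nonneg_left ((ht₀ _).trans (by linarith)) (hw0 j)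
        _ = (∑ j ∈ J \ win μ K x, w j) * (Φ t₀ + 1) := by rw [Finset.sum_mul]
        _ ≤ ε / (2 * (Φ t₀ + 1)) * (Φ t₀ + 1) := mul_le_mul_of_nonneg_right h4 (by positivity)
        _ = ε / 2 := by field_simp
    linarith
  rw [abs_le] at hf ⊢
  constructor <;> linarith [hf.1, hf.2]

/-- nearly the whole mass is in a window -/
theorem mass_out (L : Law N μ v α θ Ψ δ) : ∀ ε : ℝ, 0 < ε → ∃ K : ℝ, 0 < K ∧ ∃ X₀ : ℝ, 2 ≤ X₀ ∧
    ∀ x : ℝ, X₀ ≤ x → ∀ J : Finset ℤ,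
      (∀ j ∈ J, K * Real.sqrt (Real.log x) < |(j : ℝ) - μ * Real.log x|) → ∑ j ∈ J, N x j ≤ ε * x := by
  intro ε hε
  obtain ⟨K, hK, X₁, hX1, h1⟩ := win_sum (μ := μ) L.irr L.cont L.per L.psi_nonneg L.v_pos 1 le_rfl (ε / 4)
    (by positivity)
  obtain ⟨X₂, hX2, h2⟩ := L.mass (ε / 4) (by positivity)
  obtain ⟨X₃, hX3, h3⟩ := L.loc K (ε / 8) (by positivity)
  obtain ⟨X₄, hX4, h4⟩ := full_sum (Φ := fun _ => 1) L.irr continuous_const (fun _ => rfl) (μ := μ) L.v_pos 1 le_rfl 1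
    one_pos
  refine ⟨K, hK, max (max X₁ X₂) (max X₃ X₄), le_max_of_le_left (le_max_of_le_left hX1), fun x hx J hJ => ?_⟩
  have hx1 : X₁ ≤ x := ((le_max_left _ _).trans (le_max_left _ _)).trans hx
  have hx2 : X₂ ≤ x := ((le_max_right _ _).trans (le_max_left _ _)).trans hx
  have hx3 : X₃ ≤ x := ((le_max_left _ _).trans (le_max_right _ _)).trans hx
  have hx4 : X₄ ≤ x := ((le_max_right _ _).trans (le_max_right _ _)).trans hx
  have hxx : 2 ≤ x := hX1.trans hx1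
  have hx0 : 0 < x := by linarith
  have hl : 0 < Real.log x := Real.log_pos (by linarith)
  have hdis : Disjoint (win μ K x) J := by
    rw [Finset.disjoint_left]
    intro j hj hj2
    rw [mem_win] at hj
    linarith [hJ j hj2]
  have g1 := h2 x hx2 (win μ K x ∪ J)
  rw [Finset.sum_union hdis] at g1
  -- the sum over the window
  have g2 : (δ - ε / 2) * x ≤ ∑ j ∈ win μ K x, N x j := by
    have a1 := h1 x hx1 K le_rfl (θ x)
    simp only [Nat.sub_self, pow_zero, one_mul, pow_one, Nat.cast_one, Real.sqrt_one, div_one] at a1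
    rw [L.psi_int] at a1
    obtain ⟨hs4, a2⟩ := h4 x hx4 (θ x)
    simp only [Nat.sub_self, pow_zero, one_mul, pow_one, Nat.cast_one, Real.sqrt_one, div_one, mul_one,
      intervalIntegral.integral_const, sub_zero, smul_eq_mul] at a2 hs4
    have a3 : ∑ j ∈ win μ K x, gn μ v x j ≤ 2 := by
      have := hs4.sum_le_tsum (win μ K x) (fun j _ => (gn_pos L.v_pos hl j).le)
      linarith [(abs_le.1 a2).2]
    have a4 : ∀ j ∈ win μ K x, x * (gn μ v x j * Ψ (θ x - j * α)) - x * (gn μ v x j * (ε / 8)) ≤ N x j := by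
      intro j hj
      rw [mem_win] at hj
      have b1 := (abs_le.1 (h3 x hx3 j hj)).1
      have b2 := gn_pos (μ := μ) L.v_pos hl j
      have b3 : Ψ (θ x - j * α) - ε / 8 ≤ N x j / (x * gn μ v x j) := by linarith
      rw [le_div_iff₀ (by positivity)] at b3
      linarith
    have a5 := Finset.sum_le_sum a4
    rw [Finset.sum_sub_distrib, ← Finset.mul_sum, ← Finset.mul_sum, ← Finset.sum_mul] at a5
    have a6 := (abs_le.1 a1).1
    have a7 : (δ - ε / 4) * x ≤ x * ∑ j ∈ win μ K x, gn μ v x j * Ψ (θ x - j * α) := by nlinarith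
    have a8 : x * ((∑ j ∈ win μ K x, gn μ v x j) * (ε / 8)) ≤ x * (ε / 4) :=
      mul_le_mul_of_nonneg_left (by nlinarith) hx0.le
    linarith
  have g3 := mul_pos hε hx0
  nlinarith

theorem pow_sub_pow_bd {a b M : ℝ} (ha : 0 ≤ a) (hb : 0 ≤ b) (haM : a ≤ M) (hbM : b ≤ M) (r : ℕ) :
    |a ^ r - b ^ r| ≤ |a - b| * (r * M ^ (r - 1)) := by
  have hM : 0 ≤ M := ha.trans haM
  rw [← (Commute.all a b).mul_geom_sum₂ r, abs_mul]
  apply mul_le_mul_of_nonneg_left _ (abs_nonneg _)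
  rw [abs_of_nonneg (Finset.sum_nonneg fun i _ => by positivity)]
  calc ∑ i ∈ Finset.range r, a ^ i * b ^ (r - 1 - i) ≤ ∑ _i ∈ Finset.range r, M ^ (r - 1) := by
        refine Finset.sum_le_sum fun i hi => ?_
        rw [Finset.mem_range] at hi
        calc a ^ i * b ^ (r - 1 - i) ≤ M ^ i * M ^ (r - 1 - i) :=
              mul_le_mul (pow_le_pow_left₀ ha haM _) (pow_le_pow_left₀ hb hbM _) (by positivity) (by positivity)
          _ = M ^ (r - 1) := by rw [← pow_add]; congr 1; omega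
    _ = r * M ^ (r - 1) := by rw [Finset.sum_const, Finset.card_range, nsmul_eq_mul]

/-- THE SUMS OF THE POWERS OF THE COUNTS -/
theorem powers (L : Law N μ v α θ Ψ δ) {A : ℝ} (hA : 0 < A)
    (hu : ∀ x : ℝ, 2 ≤ x → ∀ j : ℤ, N x j ≤ A * x / Real.sqrt (Real.log x)) (r : ℕ) (hr : 1 ≤ r) :
    ∀ ε : ℝ, 0 < ε → ∃ X₀ : ℝ, 2 ≤ X₀ ∧ ∀ x : ℝ, X₀ ≤ x → ∃ J₀ : Finset ℤ, ∀ J : Finset ℤ, J₀ ⊆ J →
      |sd v x ^ (r - 1) / x ^ r * ∑ j ∈ J, N x j ^ r - 1 / Real.sqrt r * ∫ t in (0 : ℝ)..1, Ψ t ^ r| ≤ ε := by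
  intro ε hε
  have hv := L.v_pos
  obtain ⟨t₀, ht₀⟩ := per_bound L.cont L.per
  set M : ℝ := Ψ t₀ + 1 with hM
  have hM1 : 1 ≤ M := by have := L.psi_nonneg t₀; linarith
  set c0 : ℝ := Real.sqrt (2 * Real.pi * v) with hc0
  have hc0p : 0 < c0 := Real.sqrt_pos.2 (by have := Real.pi_pos; positivity)
  set B : ℝ := (A * c0) ^ (r - 1) with hB
  have hB0 : 0 < B := by positivity
  set R : ℝ := r * M ^ (r - 1) with hR
  have hr0 : (0 : ℝ) < r := by exact_mod_cast hr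
  have hR0 : 0 < R := by positivity
  obtain ⟨K₁, hK₁, X₁, hX1, h1⟩ := win_sum (μ := μ) (Φ := fun t => Ψ t ^ r) L.irr (L.cont.pow r)
    (fun t => by simp only [L.per]) (fun t => pow_nonneg (L.psi_nonneg t) r) hv r hr (ε / 3) (by positivity)
  obtain ⟨K₂, hK₂, X₂, hX2, h2⟩ := mass_out L (ε / (3 * B)) (by positivity)
  set K : ℝ := max K₁ K₂ with hK
  have hee : 0 < min 1 (ε / (6 * R)) := by positivity
  obtain ⟨X₃, hX3, h3⟩ := L.loc K (min 1 (ε / (6 * R))) hee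
  obtain ⟨X₄, hX4, h4⟩ := full_sum (Φ := fun _ => 1) L.irr continuous_const (fun _ => rfl) (μ := μ) hv r hr 1 one_pos
  refine ⟨max (max X₁ X₂) (max X₃ X₄), le_max_of_le_left (le_max_of_le_left hX1), fun x hx =>
    ⟨win μ K x, fun J hJ => ?_⟩⟩
  have hx1 : X₁ ≤ x := ((le_max_left _ _).trans (le_max_left _ _)).trans hx
  have hx2 : X₂ ≤ x := ((le_max_right _ _).trans (le_max_left _ _)).trans hx
  have hx3 : X₃ ≤ x := ((le_max_left _ _).trans (le_max_right _ _)).trans hx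
  have hx4 : X₄ ≤ x := ((le_max_right _ _).trans (le_max_right _ _)).trans hx
  have hxx : 2 ≤ x := hX1.trans hx1
  have hx0 : 0 < x := by linarith
  have hl : 0 < Real.log x := Real.log_pos (by linarith)
  have hs := sd_pos hv hl
  have hsl : 0 < Real.sqrt (Real.log x) := Real.sqrt_pos.2 hl
  have hsd : sd v x = c0 * Real.sqrt (Real.log x) := by
    unfold sd
    rw [hc0, ← Real.sqrt_mul (by have := Real.pi_pos; positivity)]
    congr 1
    ring
  -- outside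
  have g1 : sd v x ^ (r - 1) / x ^ r * ∑ j ∈ J \ win μ K x, N x j ^ r ≤ ε / 3 := by
    have b1 : ∀ j ∈ J \ win μ K x, sd v x ^ (r - 1) / x ^ r * N x j ^ r ≤ B / x * N x j := by
      intro j _
      have c1 := hu x hxx j
      have c2 : N x j ^ (r - 1) ≤ (A * x / Real.sqrt (Real.log x)) ^ (r - 1) := pow_le_pow_left₀ (L.nonneg x j) c1 _
      have c3 : N x j ^ r = N x j ^ (r - 1) * N x j := by
        rw [← pow_succ]; congr 1; omega
      have c4 : x ^ r = x ^ (r - 1) * x := by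
        rw [← pow_succ]; congr 1; omega
      have c5 : sd v x ^ (r - 1) / x ^ r * ((A * x / Real.sqrt (Real.log x)) ^ (r - 1) * N x j) = B / x * N x j := by
        rw [hsd, hB, c4, div_pow, mul_pow, mul_pow, mul_pow]
        field_simp
      rw [← c5, c3]
      apply mul_le_mul_of_nonneg_left _ (by positivity)
      exact mul_le_mul_of_nonneg_right c2 (L.nonneg x j)
    have b2 := Finset.sum_le_sum b1
    rw [← Finset.mul_sum, ← Finset.mul_sum] at b2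
    have b3 := h2 x hx2 (J \ win μ K x) (fun j hj => by
      have := (Finset.mem_sdiff.1 hj).2
      rw [mem_win] at this
      exact lt_of_le_of_lt (mul_le_mul_of_nonneg_right (le_max_right _ _) (Real.sqrt_nonneg _)) (lt_of_not_ge this))
    refine b2.trans ((mul_le_mul_of_nonneg_left b3 (by positivity)).trans (le_of_eq ?_))
    field_simp
  have g1' : 0 ≤ sd v x ^ (r - 1) / x ^ r * ∑ j ∈ J \ win μ K x, N x j ^ r :=
    mul_nonneg (by positivity) (Finset.sum_nonneg fun j _ => pow_nonneg (L.nonneg x j) r)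
  -- inside
  have g2 : |sd v x ^ (r - 1) / x ^ r * ∑ j ∈ win μ K x, N x j ^ r -
      ∑ j ∈ win μ K x, sd v x ^ (r - 1) * gn μ v x j ^ r * Ψ (θ x - j * α) ^ r| ≤ ε / 3 := by
    have b1 : ∀ j ∈ win μ K x, |sd v x ^ (r - 1) / x ^ r * N x j ^ r -
        sd v x ^ (r - 1) * gn μ v x j ^ r * Ψ (θ x - j * α) ^ r| ≤
        sd v x ^ (r - 1) * gn μ v x j ^ r * (ε / 6) := by
      intro j hj
      rw [mem_win] at hj
      have c1 := h3 x hx3 j hj
      have c2 := gn_pos (μ := μ) hv hl j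
      set q := N x j / (x * gn μ v x j) with hq
      have c3 : sd v x ^ (r - 1) / x ^ r * N x j ^ r = sd v x ^ (r - 1) * gn μ v x j ^ r * q ^ r := by
        rw [hq, div_pow, mul_pow]
        field_simp
      have hq0 : 0 ≤ q := div_nonneg (L.nonneg x j) (by positivity)
      have hqM : q ≤ M := by
        have d1 := (abs_le.1 c1).2
        have d2 := ht₀ (θ x - j * α)
        have d3 := min_le_left 1 (ε / (6 * R))
        rw [hM]
        linarith
      have c4 := pow_sub_pow_bd hq0 (L.psi_nonneg (θ x - j * α)) hqM ((ht₀ _).trans (by rw [hM]; linarith)) r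
      have c5 : |q - Ψ (θ x - j * α)| * (r * M ^ (r - 1)) ≤ ε / 6 := by
        rw [← hR]
        have d3 := min_le_right 1 (ε / (6 * R))
        calc |q - Ψ (θ x - j * α)| * R ≤ ε / (6 * R) * R := mul_le_mul_of_nonneg_right (c1.trans d3) hR0.le
          _ = ε / 6 := by field_simp
      rw [c3, ← mul_sub, abs_mul, abs_of_nonneg (mul_nonneg (pow_nonneg hs.le _) (pow_nonneg c2.le _))]
      exact mul_le_mul_of_nonneg_left (c4.trans c5) (mul_nonneg (pow_nonneg hs.le _) (pow_nonneg c2.le _))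
    obtain ⟨hs4, a2⟩ := h4 x hx4 (θ x)
    simp only [mul_one, intervalIntegral.integral_const, sub_zero, smul_eq_mul] at a2 hs4
    have a3 : ∑ j ∈ win μ K x, sd v x ^ (r - 1) * gn μ v x j ^ r ≤ 2 := by
      have d1 := hs4.sum_le_tsum (win μ K x) (fun j _ =>
        mul_nonneg (pow_nonneg hs.le _) (pow_nonneg (gn_pos hv hl j).le _))
      have d2 : 1 / Real.sqrt r ≤ 1 := by
        rw [div_le_one (Real.sqrt_pos.2 hr0)]
        exact Real.one_le_sqrt.2 (by exact_mod_cast hr)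
      linarith [(abs_le.1 a2).2]
    rw [Finset.mul_sum, ← Finset.sum_sub_distrib]
    refine (Finset.abs_sum_le_sum_abs _ _).trans ((Finset.sum_le_sum b1).trans ?_)
    rw [← Finset.sum_mul]
    calc (∑ j ∈ win μ K x, sd v x ^ (r - 1) * gn μ v x j ^ r) * (ε / 6) ≤ 2 * (ε / 6) :=
          mul_le_mul_of_nonneg_right a3 (by positivity)
      _ = ε / 3 := by ring
  have g3 := h1 x hx1 K (le_max_left _ _) (θ x)
  have g4 : ∑ j ∈ J, N x j ^ r = ∑ j ∈ win μ K x, N x j ^ r + ∑ j ∈ J \ win μ K x, N x j ^ r := by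
    rw [← Finset.sum_union Finset.disjoint_sdiff, Finset.union_sdiff_of_subset hJ]
  rw [g4, mul_add]
  rw [abs_le] at g2 g3 ⊢
  constructor <;> linarith [g2.1, g2.2, g3.1, g3.2]

end Pool.Agent.R468.MF
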